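import Mathlib

/-!
# Back and forth between groups with solvable embedding problems

A class `C` of groups; for a group `G` a set `O` of normal subgroups (the open normal subgroups). The
embedding property: every `α : E → A` with `E` in `C` lifts every epimorphism `G → A`.
-/

set_option autoImplicit false

namespace Pool.Agent.H87.Fpc

open Function

/-- a homomorphism which factors through a surjective one -/
theorem exists_fac {G A B : Type} [Group G] [Group A] [Group B] (q : G →* A)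
    (hq : Surjective q) (g : G →* B) (h : ∀ x, q x = 1 → g x = 1) :
    ∃ α : A →* B, ∀ x, α (q x) = g x := by
  refine ⟨(QuotientGroup.lift q.ker g h).comp
    (QuotientGroup.quotientKerEquivOfSurjective q hq).symm.toMonoidHom, fun x => ?_⟩
  have h1 : (QuotientGroup.quotientKerEquivOfSurjective q hq).symm (q x) =
      (QuotientGroup.mk x : G ⧸ q.ker) := by
    rw [MulEquiv.symm_apply_eq]
    rfl
  change QuotientGroup.lift q.ker g h
    ((QuotientGroup.quotientKerEquivOfSurjective q hq).symm (q x)) = g x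
  rw [h1]
  rfl

/-- A group with a family of normal subgroups, all embedding problems with groups in `C` are
solvable. -/
structure Pc (C : ∀ (G : Type) [Group G], Prop) {G : Type} [Group G] (O : Set (Subgroup G)) :
    Prop where
  quo : ∀ U ∈ O, ∃ (A : Type) (_ : Group A) (q : G →* A), C A ∧ Surjective q ∧
    ∀ x, q x = 1 ↔ x ∈ U
  inf : ∀ U ∈ O, ∀ V ∈ O, U ⊓ V ∈ O
  top : ⊤ ∈ O
  emb : ∀ (E A : Type) [Group E] [Group A] (α : E →* A) (β : G →* A), C E → Surjective α →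
    Surjective β → β.ker ∈ O → ∃ γ : G →* E, Surjective γ ∧ γ.ker ∈ O ∧ ∀ g, α (γ g) = β g
  cnt : ∃ u : ℕ → Subgroup G, (∀ n, u n ∈ O) ∧ ∀ U ∈ O, ∃ n, u n ≤ U

section bf

variable (C : ∀ (G : Type) [Group G], Prop) {F G : Type} [Group F] [Group G]

/-- `R` is the fibre product of two epimorphisms to a group in `C`. -/
def Fib (O : Set (Subgroup F)) (O' : Set (Subgroup G)) (R : Subgroup (F × G)) : Prop :=
  ∃ (A : Type) (_ : Group A) (f : F →* A) (g : G →* A), Surjective f ∧ Surjective g ∧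
    f.ker ∈ O ∧ g.ker ∈ O' ∧ ∀ a b, (a, b) ∈ R ↔ f a = g b

variable {C} {O : Set (Subgroup F)} {O' : Set (Subgroup G)}

theorem forth (hF : Pc C O) (hG : Pc C O') {R : Subgroup (F × G)} (hR : Fib O O' R)
    {U : Subgroup G} (hU : U ∈ O') :
    ∃ R' ≤ R, Fib O O' R' ∧ ∀ b, ((1 : F), b) ∈ R' → b ∈ U := by
  obtain ⟨A, iA, f, g, hf, hg, hfO, hgO, hm⟩ := hR
  obtain ⟨A', iA', q, hC, hq, hqk⟩ := hG.quo _ (hG.inf U hU g.ker hgO)
  obtain ⟨α, hα⟩ := exists_fac q hq g (fun x hx => ((hqk x).1 hx).2)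
  have hαs : Surjective α := by
    intro a
    obtain ⟨b, rfl⟩ := hg a
    exact ⟨q b, hα b⟩
  obtain ⟨f', hf's, hf'O, hf'⟩ := hF.emb A' A α f hC hαs hf hfO
  have hker : q.ker = U ⊓ g.ker := by
    ext x
    rw [MonoidHom.mem_ker]
    exact hqk x
  refine ⟨(MonoidHom.eqLocus (f'.comp (MonoidHom.fst F G)) (q.comp (MonoidHom.snd F G))), ?_,
    ⟨A', iA', f', q, hf's, hq, hf'O, ?_, fun a b => Iff.rfl⟩, ?_⟩
  · rintro ⟨a, b⟩ hab
    have h1 : f' a = q b := hab
    rw [hm, ← hf', h1, hα]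
  · rw [hker]
    exact hG.inf U hU g.ker hgO
  · intro b hb
    have h1 : f' 1 = q b := hb
    rw [map_one] at h1
    exact ((hqk b).1 h1.symm).1

theorem Fib.swap {R : Subgroup (F × G)} (hR : Fib O O' R) :
    Fib O' O (R.comap (MulEquiv.prodComm : G × F ≃* F × G).toMonoidHom) := by
  obtain ⟨A, iA, f, g, hf, hg, hfO, hgO, hm⟩ := hR
  refine ⟨A, iA, g, f, hg, hf, hgO, hfO, fun a b => ?_⟩
  have h1 : (a, b) ∈ R.comap (MulEquiv.prodComm : G × F ≃* F × G).toMonoidHom ↔ (b, a) ∈ R :=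
    Iff.rfl
  rw [h1, hm]
  exact eq_comm

theorem back (hF : Pc C O) (hG : Pc C O') {R : Subgroup (F × G)} (hR : Fib O O' R)
    {U : Subgroup F} (hU : U ∈ O) :
    ∃ R' ≤ R, Fib O O' R' ∧ ∀ a, (a, (1 : G)) ∈ R' → a ∈ U := by
  obtain ⟨R', h1, h2, h3⟩ := forth hG hF hR.swap hU
  refine ⟨R'.comap (MulEquiv.prodComm : F × G ≃* G × F).toMonoidHom, ?_, h2.swap, ?_⟩
  · rintro ⟨a, b⟩ hab
    have h4 : (b, a) ∈ R' := hab
    exact h1 h4
  · intro a ha
    exact h3 a ha

theorem exists_step (hF : Pc C O) (hG : Pc C O') {R : Subgroup (F × G)} (hR : Fib O O' R)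
    {U : Subgroup F} (hU : U ∈ O) {V : Subgroup G} (hV : V ∈ O') :
    ∃ R' ≤ R, Fib O O' R' ∧ (∀ a, (a, (1 : G)) ∈ R' → a ∈ U) ∧
      ∀ b, ((1 : F), b) ∈ R' → b ∈ V := by
  obtain ⟨R1, h1, h2, h3⟩ := back hF hG hR hU
  obtain ⟨R2, h4, h5, h6⟩ := forth hF hG h2 hV
  exact ⟨R2, h4.trans h1, h5, fun a ha => h3 a (h4 ha), h6⟩

theorem exists_seq (hF : Pc C O) (hG : Pc C O') :
    ∃ R : ℕ → Subgroup (F × G), Antitone R ∧ (∀ n, Fib O O' (R n)) ∧
      (∀ U ∈ O, ∃ n, ∀ a, (a, (1 : G)) ∈ R n → a ∈ U) ∧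
      ∀ V ∈ O', ∃ n, ∀ b, ((1 : F), b) ∈ R n → b ∈ V := by
  obtain ⟨u, hu, hu'⟩ := hF.cnt
  obtain ⟨v, hv, hv'⟩ := hG.cnt
  have h0 : Fib O O' (⊤ : Subgroup (F × G)) := by
    refine ⟨Unit, inferInstance, 1, 1, fun a => ⟨1, rfl⟩, fun a => ⟨1, rfl⟩, ?_, ?_,
      fun a b => ⟨fun _ => rfl, fun _ => trivial⟩⟩
    · rw [MonoidHom.ker_one]
      exact hF.top
    · rw [MonoidHom.ker_one]
      exact hG.top
  choose! s hs1 hs2 hs3 hs4 using fun (n : ℕ) (R : Subgroup (F × G)) (hR : Fib O O' R) =>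
    exists_step hF hG hR (hu n) (hv n)
  let R : ℕ → Subgroup (F × G) := fun n => Nat.rec ⊤ (fun n R => s n R) n
  have hR : ∀ n, Fib O O' (R n) := by
    intro n
    induction n with
    | zero => exact h0
    | succ n ih => exact hs2 n (R n) ih
  have hanti : Antitone R := antitone_nat_of_succ_le fun n => hs1 n (R n) (hR n)
  refine ⟨R, hanti, hR, ?_, ?_⟩
  · intro U hU
    obtain ⟨n, hn⟩ := hu' U hU
    exact ⟨n + 1, fun a ha => hn (hs3 n (R n) (hR n) a ha)⟩
  · intro V hV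
    obtain ⟨n, hn⟩ := hv' V hV
    exact ⟨n + 1, fun a ha => hn (hs4 n (R n) (hR n) a ha)⟩

end bf

/-- The open normal subgroups. -/
def ON (G : Type) [Group G] [TopologicalSpace G] : Set (Subgroup G) :=
  {U | U.Normal ∧ IsOpen (U : Set G)}

section comp

variable {F G : Type} [Group F] [Group G] [TopologicalSpace G] [IsTopologicalGroup G]
  [CompactSpace G] {O : Set (Subgroup F)}

/-- the homomorphism to the complete side -/
theorem exists_hom (hsep : ∀ b : G, (∀ U ∈ ON G, b ∈ U) → b = 1) (R : ℕ → Subgroup (F × G))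
    (hanti : Antitone R) (hR : ∀ n, Fib O (ON G) (R n))
    (hV : ∀ V ∈ ON G, ∃ n, ∀ b, ((1 : F), b) ∈ R n → b ∈ V) :
    ∃ θ : F →* G, ∀ a n, (a, θ a) ∈ R n := by
  have hex : ∀ a : F, ∃ b : G, ∀ n, (a, b) ∈ R n := by
    intro a
    have hc : ∀ n, IsClosed {b : G | (a, b) ∈ R n} := by
      intro n
      obtain ⟨A, iA, f, g, hf, hg, hfO, hgO, hm⟩ := hR n
      have h1 : {b : G | (a, b) ∈ R n} = {b : G | f a = g b} := by
        ext b
        exact hm a b
      rw [h1]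
      obtain ⟨b0, hb0⟩ := hg (f a)
      have h2 : {b : G | f a = g b} = (fun b => b0⁻¹ * b) ⁻¹' (g.ker : Set G) := by
        ext b
        rw [Set.mem_ofPred_eq, Set.mem_preimage, SetLike.mem_coe, MonoidHom.mem_ker, map_mul,
          map_inv, hb0, inv_mul_eq_one]
      rw [h2]
      have h3 : IsClosed (g.ker : Set G) := Subgroup.isClosed_of_isOpen _ hgO.2
      exact h3.preimage (continuous_const.mul continuous_id)
    have hne : (⋂ n, {b : G | (a, b) ∈ R n}).Nonempty := by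
      apply IsCompact.nonempty_iInter_of_sequence_nonempty_isCompact_isClosed
      · intro n b hb
        exact hanti (Nat.le_succ n) hb
      · intro n
        obtain ⟨A, iA, f, g, hf, hg, hfO, hgO, hm⟩ := hR n
        obtain ⟨b0, hb0⟩ := hg (f a)
        exact ⟨b0, (hm a b0).2 hb0.symm⟩
      · exact (hc 0).isCompact
      · exact hc
    obtain ⟨b, hb⟩ := hne
    exact ⟨b, fun n => Set.mem_iInter.1 hb n⟩
  have huniq : ∀ (a : F) (b b' : G), (∀ n, (a, b) ∈ R n) → (∀ n, (a, b') ∈ R n) → b = b' := by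
    intro a b b' h h'
    have h1 : ∀ n, ((1 : F), b⁻¹ * b') ∈ R n := by
      intro n
      have h2 := (R n).mul_mem ((R n).inv_mem (h n)) (h' n)
      have h3 : ((a, b) : F × G)⁻¹ * (a, b') = (1, b⁻¹ * b') := by
        apply Prod.ext
        · exact inv_mul_cancel a
        · rfl
      rwa [h3] at h2
    have h2 : b⁻¹ * b' = 1 := by
      apply hsep
      intro U hU
      obtain ⟨n, hn⟩ := hV U hU
      exact hn _ (h1 n)
    exact inv_mul_eq_one.1 h2
  choose θ hθ using hex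
  refine ⟨MonoidHom.mk' θ ?_, fun a n => hθ a n⟩
  intro a a'
  apply huniq (a * a') _ _ (hθ (a * a'))
  intro n
  exact (R n).mul_mem (hθ a n) (hθ a' n)

end comp

end Pool.Agent.H87.Fpc
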