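import Pool.Agent.H87.Fpc.Exist
import Pool.Graph.R_pool_sql_team_seeded_35f281b4.K7.H53.LD.Points

/-!
# The classes of groups given by composition factors
-/

set_option autoImplicit false

namespace Pool.Agent.H87.Fpc

open Function
open Polynomial
open Pool.Agent.Y60.DC (CompIn)
open Pool.Agent.K7.H53.LD (FactorL StepL)

/-- A class of groups is closed under isomorphism. -/
def IsoInv (Φ : ∀ (T : Type) [Group T], Prop) : Prop :=
  ∀ (T T' : Type) [Group T] [Group T'], Nonempty (T ≃* T') → Φ T → Φ T'

section good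

variable {Φ : ∀ (T : Type) [Group T], Prop}

/-- extensions -/
theorem compIn_ext (hiso : IsoInv Φ) (hsim : ∀ (T : Type) [Group T], Φ T → IsSimpleGroup T)
    {N : Type} [iN : Group N] (h : CompIn Φ N) : ∀ (G : Type) [Group G] (f : G →* N),
      Surjective f → CompIn Φ f.ker → CompIn Φ G := by
    induction h with
    | one N hN =>
      intro G _ f hf hk
      have h1 : ∀ x : G, x ∈ f.ker := fun x => by
        rw [MonoidHom.mem_ker]
        exact Subsingleton.elim _ _
      exact Pool.Agent.Y419.DC.quot hiso hsim hk G f.ker.subtype fun x => ⟨⟨x, h1 x⟩, rfl⟩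
    | ext N M hM hS ih =>
      intro G _ f hf hk
      let g : G →* N ⧸ M := (QuotientGroup.mk' M).comp f
      have hg : Surjective g := (QuotientGroup.mk'_surjective M).comp hf
      have hgk : ∀ x : g.ker, f x.1 ∈ M := by
        intro x
        have h1 : g x.1 = 1 := x.2
        exact (QuotientGroup.eq_one_iff _).1 h1
      let f' : g.ker →* M := (f.comp g.ker.subtype).codRestrict M hgk
      have hf' : Surjective f' := by
        intro m
        obtain ⟨x, hx⟩ := hf (m : N)
        have h1 : x ∈ g.ker := by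
          rw [MonoidHom.mem_ker]
          change (QuotientGroup.mk' M) (f x) = 1
          rw [hx]
          exact (QuotientGroup.eq_one_iff _).2 m.2
        exact ⟨⟨x, h1⟩, Subtype.ext hx⟩
      have hk' : CompIn Φ f'.ker := by
        let τ : f.ker →* f'.ker :=
          { toFun := fun x => ⟨⟨x.1, by
              rw [MonoidHom.mem_ker]
              change (QuotientGroup.mk' M) (f x.1) = 1
              have h1 : f x.1 = 1 := x.2
              rw [h1, map_one]⟩, by
              rw [MonoidHom.mem_ker]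
              exact Subtype.ext x.2⟩
            map_one' := rfl
            map_mul' := fun _ _ => rfl }
        refine Pool.Agent.Y419.DC.quot hiso hsim hk f'.ker τ ?_
        rintro ⟨⟨x, hx⟩, hx'⟩
        have h1 : f x = 1 := congrArg Subtype.val hx'
        exact ⟨⟨x, h1⟩, rfl⟩
      have h1 : CompIn Φ g.ker := ih g.ker f' hf' hk'
      exact Pool.Agent.Y419.DC.ext' hiso g hg h1 hS

theorem good_inC (hiso : IsoInv Φ) (hsim : ∀ (T : Type) [Group T], Φ T → IsSimpleGroup T) :
    Good (InC Φ) where
  fin := fun G _ h => h.1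
  one := fun G _ _ => ⟨inferInstance, CompIn.one G inferInstance⟩
  quo := fun G H _ _ f h hf => by
    haveI := h.1
    exact ⟨Finite.of_surjective f hf, Pool.Agent.Y419.DC.quot hiso hsim h.2 H f hf⟩
  sub := fun G H _ _ f hf hn h => by
    haveI := h.1
    exact ⟨Finite.of_injective f hf, Pool.Agent.Y419.DC.sub hiso hsim h.2 G f hf hn⟩
  ext := fun G H _ _ f hf hk h => by
    haveI := hk.1
    haveI := h.1
    haveI : Finite (G ⧸ f.ker) :=
      Finite.of_equiv H (QuotientGroup.quotientKerEquivOfSurjective f hf).symm.toEquiv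
    refine ⟨Finite.of_equiv _ (Subgroup.groupEquivQuotientProdSubgroup (s := f.ker)).symm, ?_⟩
    exact compIn_ext hiso hsim h.2 G f hf hk.2

end good

section sol

variable {Φ : ∀ (T : Type) [Group T], Prop}

theorem simple_of_factor {p : ℕ} [Fact p.Prime]
    (hΦ : ∀ (T : Type) [Group T], Φ T → FactorL p T) (T : Type) [Group T] (h : Φ T) :
    IsSimpleGroup T :=
  Pool.Agent.K7.H53.LD.FacL.simple p T (Pool.Agent.K7.H53.LD.FactorL.old p T (hΦ T h))

theorem sol_of {p : ℕ} [Fact p.Prime] (hiso : IsoInv Φ)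
    (hΦ : ∀ (T : Type) [Group T], Φ T → FactorL p T) (K : Type) [Field K] [CharP K p]
    (hK : Pool.Agent.TH377.IG.SpecProp K) (L E : Type) [Field L] [Algebra K L]
    [FiniteDimensional K L] [IsGalois K L] [Group E] (α : E →* (L ≃ₐ[K] L)) (hE : InC Φ E)
    (hα : Surjective α) : Sol K L E α := by
  haveI := hE.1
  have h1 : CompIn Φ α.ker := by
    refine Pool.Agent.Y419.DC.sub hiso (simple_of_factor hΦ) hE.2 α.ker α.ker.subtype
      (Subgroup.subtype_injective _) ?_
    rw [Subgroup.range_subtype]
    infer_instance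
  have h2 : CompIn (FactorL p) α.ker := Pool.Agent.Y60.DCF.compIn_mono
    (fun T _ h => hΦ T h) h1
  exact Pool.Agent.K7.H53.LD.stepL_proper p hK L E α (StepL.kernel α hα inferInstance h2)

end sol

/-- Fields with the root form of Hilbert's theorem. -/
theorem spec_HP (K : Type) [Field K] (hp : Pool.Agent.W200.IG.HP K K) :
    Pool.Agent.TH377.IG.SpecProp K := by
  intro L _ _ _ _ G _ _ α h
  obtain ⟨F, i1, i2, i3, i4, i5, i6, i7, i8, γ, hγ⟩ := h
  obtain ⟨Λ, l1, l2, l3, l4, e, ψ', h1, h2⟩ := Pool.Agent.W200.IJ.galois_spec2 (K := K)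
    (A := Polynomial K) (F := RatFunc K) (N := F)
    (Pool.Agent.W200.IG.sp_poly hp (Pool.Agent.W200.IG.sp_base K))
    (k₀ := K) (M := L) (fun c => by
      rw [← IsScalarTower.algebraMap_apply K L F]
      change algebraMap K F c = algebraMap (RatFunc K) F
        (algebraMap K[X] (RatFunc K) (algebraMap K K[X] c))
      rw [← IsScalarTower.algebraMap_apply K K[X] (RatFunc K),
        ← IsScalarTower.algebraMap_apply K (RatFunc K) F])
  let aLΛ : Algebra L Λ := ψ'.toAlgebra
  have hψ : ∀ x : L, algebraMap L Λ x = ψ' x := fun _ => rfl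
  have tLΛ : IsScalarTower K L Λ := IsScalarTower.of_algebraMap_eq fun x => (h1 x).symm
  refine ⟨Λ, l1, l2, aLΛ, tLΛ, l3, l4, e.symm.trans γ, fun σ' => ?_⟩
  obtain ⟨σ, rfl⟩ := e.surjective σ'
  apply AlgEquiv.ext
  intro x
  apply (algebraMap L Λ).injective
  rw [AlgEquiv.restrictNormal_commutes]
  change ψ' (α (γ (e.symm (e σ))) x) = e σ (ψ' x)
  rw [MulEquiv.symm_apply_apply]
  exact (h2 σ x (α (γ σ) x) (hγ σ x)).symm

end Pool.Agent.H87.Fpc
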