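import Pool.Agent.H87.Fpc.Rel

/-!
# Coinduced embedding problems

An embedding problem for a subgroup `H` of a profinite group `G` is transferred to `G`.
-/

set_option autoImplicit false

namespace Pool.Agent.H87.Fpc

open Function

theorem Good.of_bij {C : ∀ (G : Type) [Group G], Prop} (hC : Good C) {G H : Type} [Group G]
    [Group H] (f : G →* H) (hf : Bijective f) (h : C H) : C G := by
  refine hC.sub G H f hf.1 ?_ h
  rw [MonoidHom.range_eq_top.2 hf.2]
  infer_instance

/-- finite powers -/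
theorem Good.pow {C : ∀ (G : Type) [Group G], Prop} (hC : Good C) {N : Type} [Group N]
    (hN : C N) (T : Type) [Finite T] : C (T → N) := by
  refine Finite.induction_empty_option (P := fun T : Type => C (T → N)) ?_ ?_ ?_ T
  · intro T T' e h
    let f : (T' → N) →* (T → N) :=
      { toFun := fun g t => g (e t)
        map_one' := rfl
        map_mul' := fun _ _ => rfl }
    refine hC.of_bij f ⟨?_, ?_⟩ h
    · intro g g' hg
      funext t
      have h1 := congrFun hg (e.symm t)
      change g (e (e.symm t)) = g' (e (e.symm t)) at h1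
      rwa [e.apply_symm_apply] at h1
    · intro g
      refine ⟨fun t => g (e.symm t), ?_⟩
      funext t
      change g (e.symm (e t)) = g t
      rw [e.symm_apply_apply]
  · haveI : Subsingleton (PEmpty → N) := ⟨fun f g => funext fun x => x.elim⟩
    exact hC.one _
  · intro T _ h
    let f : (Option T → N) →* N := Pi.evalMonoidHom (fun _ : Option T => N) none
    refine hC.ext _ _ f (fun x => ⟨fun _ => x, rfl⟩) ?_ hN
    let g : f.ker →* (T → N) :=
      { toFun := fun x t => x.1 (some t)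
        map_one' := rfl
        map_mul' := fun _ _ => rfl }
    refine hC.of_bij g ⟨?_, ?_⟩ h
    · intro x y hxy
      apply Subtype.ext
      funext t
      cases t with
      | none =>
        have h1 : x.1 none = 1 := x.2
        have h2 : y.1 none = 1 := y.2
        rw [h1, h2]
      | some t => exact congrFun hxy t
    · intro y
      refine ⟨⟨fun t => t.elim 1 y, ?_⟩, rfl⟩
      rfl

section coind

variable {Q A E : Type} [Group Q] [Group A] [Group E] (R : Subgroup Q) (β : R →* A)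
  (α : E →* A)

open scoped Classical in
/-- representatives of the cosets -/
noncomputable def sect (t : Q ⧸ R) : Q := if t = ((1 : Q) : Q ⧸ R) then 1 else t.out

theorem mk_sect (t : Q ⧸ R) : ((sect R t : Q) : Q ⧸ R) = t := by
  unfold sect
  split_ifs with h
  · exact h.symm
  · exact QuotientGroup.out_eq' t

theorem sect_one : sect R ((1 : Q) : Q ⧸ R) = 1 := if_pos rfl

theorem coc_mem (q : Q) (t : Q ⧸ R) : (sect R t)⁻¹ * (q * sect R (q⁻¹ • t)) ∈ R := by
  rw [← QuotientGroup.eq, mk_sect]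
  have h1 : ((q * sect R (q⁻¹ • t) : Q) : Q ⧸ R) = q • ((sect R (q⁻¹ • t) : Q) : Q ⧸ R) := rfl
  rw [h1, mk_sect, smul_inv_smul]

/-- the cocycle -/
noncomputable def coc (q : Q) (t : Q ⧸ R) : A :=
  β ⟨(sect R t)⁻¹ * (q * sect R (q⁻¹ • t)), coc_mem R q t⟩

theorem coc_mul (q q' : Q) (t : Q ⧸ R) :
    coc R β (q * q') t = coc R β q t * coc R β q' (q⁻¹ • t) := by
  unfold coc
  rw [← map_mul]
  congr 1
  apply Subtype.ext
  change (sect R t)⁻¹ * (q * q' * sect R ((q * q')⁻¹ • t)) =
    (sect R t)⁻¹ * (q * sect R (q⁻¹ • t)) *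
      ((sect R (q⁻¹ • t))⁻¹ * (q' * sect R (q'⁻¹ • q⁻¹ • t)))
  rw [mul_inv_rev, mul_smul]
  group

theorem coc_one (t : Q ⧸ R) : coc R β 1 t = 1 := by
  have h1 := coc_mul R β 1 1 t
  rw [mul_one, inv_one, one_smul] at h1
  exact left_eq_mul.1 h1

theorem coc_base (r : R) : coc R β (r : Q) ((1 : Q) : Q ⧸ R) = β r := by
  unfold coc
  congr 1
  apply Subtype.ext
  have h1 : (r : Q)⁻¹ • ((1 : Q) : Q ⧸ R) = ((1 : Q) : Q ⧸ R) := by
    have h2 : (r : Q)⁻¹ • ((1 : Q) : Q ⧸ R) = (((r : Q)⁻¹ * 1 : Q) : Q ⧸ R) := rfl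
    rw [h2, QuotientGroup.eq]
    have h3 : ((r : Q)⁻¹ * 1)⁻¹ * 1 = r := by group
    rw [h3]
    exact r.2
  change (sect R ((1 : Q) : Q ⧸ R))⁻¹ * ((r : Q) * sect R ((r : Q)⁻¹ • ((1 : Q) : Q ⧸ R))) = r
  rw [h1, sect_one, inv_one, one_mul, mul_one]

/-- the coinduced group -/
structure Coind : Type where
  f : Q ⧸ R → E
  q : Q
  h : ∀ t, α (f t) = coc R β q t

namespace Coind

variable {R β α}

theorem ext' {x y : Coind R β α} (h1 : x.f = y.f) (h2 : x.q = y.q) : x = y := by
  cases x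
  cases y
  simp only at h1 h2
  subst h1
  subst h2
  rfl

noncomputable instance : Mul (Coind R β α) :=
  ⟨fun x y => ⟨fun t => x.f t * y.f (x.q⁻¹ • t), x.q * y.q, fun t => by
    rw [map_mul, x.h, y.h, coc_mul]⟩⟩

noncomputable instance : One (Coind R β α) :=
  ⟨⟨fun _ => 1, 1, fun t => by rw [map_one, coc_one]⟩⟩

noncomputable instance : Inv (Coind R β α) :=
  ⟨fun x => ⟨fun t => (x.f (x.q • t))⁻¹, x.q⁻¹, fun t => by
    have h1 := coc_mul R β x.q⁻¹ x.q t
    rw [inv_mul_cancel, coc_one, inv_inv] at h1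
    rw [map_inv, x.h]
    exact (eq_inv_of_mul_eq_one_left h1.symm).symm⟩⟩

theorem mul_f (x y : Coind R β α) (t : Q ⧸ R) : (x * y).f t = x.f t * y.f (x.q⁻¹ • t) := rfl

theorem mul_q (x y : Coind R β α) : (x * y).q = x.q * y.q := rfl

noncomputable instance : Group (Coind R β α) :=
  Group.ofLeftAxioms
    (fun x y z => ext' (by
      funext t
      rw [mul_f, mul_f, mul_f, mul_f, mul_assoc, mul_q, mul_inv_rev, mul_smul])
      (mul_assoc x.q y.q z.q))
    (fun x => ext' (by
      funext t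
      change 1 * x.f ((1 : Q)⁻¹ • t) = x.f t
      rw [inv_one, one_smul, one_mul]) (one_mul x.q))
    (fun x => ext' (by
      funext t
      change (x.f (x.q • t))⁻¹ * x.f ((x.q⁻¹)⁻¹ • t) = 1
      rw [inv_inv, inv_mul_cancel]) (inv_mul_cancel x.q))

variable (R β α)

/-- the projection -/
noncomputable def pr : Coind R β α →* Q :=
  MonoidHom.mk' (fun x => x.q) (fun x y => mul_q x y)

variable {R β α}

theorem pr_surjective (hα : Surjective α) : Surjective (pr R β α) := by
  intro q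
  choose s hs using hα
  exact ⟨⟨fun t => s (coc R β q t), q, fun t => hs _⟩, rfl⟩

theorem base_smul {q : Q} (hq : q ∈ R) : q⁻¹ • ((1 : Q) : Q ⧸ R) = ((1 : Q) : Q ⧸ R) := by
  have h2 : q⁻¹ • ((1 : Q) : Q ⧸ R) = ((q⁻¹ * 1 : Q) : Q ⧸ R) := rfl
  rw [h2, QuotientGroup.eq]
  have h3 : (q⁻¹ * 1)⁻¹ * 1 = q := by group
  rwa [h3]

variable (R β α)

/-- the evaluation at the trivial coset -/
noncomputable def ev : (R.comap (pr R β α)) →* E :=
  MonoidHom.mk' (fun x => x.1.f ((1 : Q) : Q ⧸ R)) (fun x y => by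
    change x.1.f _ * y.1.f (x.1.q⁻¹ • ((1 : Q) : Q ⧸ R)) = _
    have h1 : x.1.q ∈ R := x.2
    rw [base_smul h1])

theorem ev_apply (x : R.comap (pr R β α)) : ev R β α x = x.1.f ((1 : Q) : Q ⧸ R) := rfl

theorem map_ev (x : R.comap (pr R β α)) : α (ev R β α x) = β ⟨pr R β α x.1, x.2⟩ := by
  rw [ev_apply, x.1.h]
  exact coc_base R β ⟨pr R β α x.1, x.2⟩

variable {R β α}

open scoped Classical in
/-- the elements which are supported at the trivial coset -/
theorem exists_ev (k : E) (hk : α k = 1) : ∃ x : Coind R β α, pr R β α x = 1 ∧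
    x.f ((1 : Q) : Q ⧸ R) = k := by
  refine ⟨⟨fun t => if t = ((1 : Q) : Q ⧸ R) then k else 1, 1, fun t => ?_⟩, rfl, if_pos rfl⟩
  rw [coc_one]
  split_ifs
  · exact hk
  · exact map_one α

theorem ker_pr {C : ∀ (G : Type) [Group G], Prop} (hC : Good C) [Finite (Q ⧸ R)]
    (hk : C α.ker) : C (pr R β α).ker := by
  let g : (pr R β α).ker →* ((Q ⧸ R) → α.ker) :=
    MonoidHom.mk' (fun x t => ⟨x.1.f t, by
      have h1 : x.1.q = 1 := x.2
      rw [MonoidHom.mem_ker, x.1.h, h1, coc_one]⟩) (fun x y => by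
        funext t
        apply Subtype.ext
        change x.1.f t * y.1.f (x.1.q⁻¹ • t) = x.1.f t * y.1.f t
        have h1 : x.1.q = 1 := x.2
        rw [h1, inv_one, one_smul])
  refine hC.of_bij g ⟨?_, ?_⟩ (hC.pow hk (Q ⧸ R))
  · intro x y hxy
    apply Subtype.ext
    refine ext' ?_ ?_
    · funext t
      exact congrArg Subtype.val (congrFun hxy t)
    · have h1 : x.1.q = 1 := x.2
      have h2 : y.1.q = 1 := y.2
      rw [h1, h2]
  · intro y
    refine ⟨⟨⟨fun t => (y t : E), 1, fun t => ?_⟩, rfl⟩, ?_⟩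
    · rw [coc_one]
      exact (y t).2
    · funext t
      rfl

end Coind

end coind

/-- **Embedding problems for subgroups.** `π : G → P` is a homomorphism such that all embedding
problems for `G` with kernel in `C` have solutions which are surjective on the kernel of `π`. Then
all embedding problems with kernel in `C` have proper solutions for all subgroups which contain
the kernel of `π`. -/
theorem emb_sub {C : ∀ (G : Type) [Group G], Prop} (hC : Good C) {G P H : Type} [Group G]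
    [Group P] [Group H] [TopologicalSpace G] [IsTopologicalGroup G] [CompactSpace G]
    (π : G →* P)
    (hemb : ∀ (E D : Type) [Group E] [Group D] (α : E →* D) (β : G →* D), Surjective α →
      Surjective β → C α.ker → IsOpen (β.ker : Set G) →
      ∃ γ : G →* E, Surjective γ ∧ IsOpen (γ.ker : Set G) ∧ (∀ g, α (γ g) = β g) ∧
        α.ker ≤ π.ker.map γ)
    (ι : H →* G) (hι : ∀ g, π g = 1 → ∃ h, ι h = g)
    (E A : Type) [Group E] [Group A] (α : E →* A) (β : H →* A) (hα : Surjective α)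
    (hβ : Surjective β) (hk : C α.ker) (hβo : ∃ W ∈ ON G, ∀ h, ι h ∈ W → β h = 1) :
    ∃ γ : H →* E, Surjective γ ∧ (∃ W ∈ ON G, ∀ h, ι h ∈ W → γ h = 1) ∧ ∀ h, α (γ h) = β h := by
  obtain ⟨W, ⟨hWn, hWo⟩, hW⟩ := hβo
  haveI hfin : Finite (G ⧸ W) := Subgroup.quotient_finite_of_isOpen W hWo
  let mk : G →* G ⧸ W := QuotientGroup.mk' W
  have hmk : Surjective mk := QuotientGroup.mk'_surjective W
  let R : Subgroup (G ⧸ W) := (mk.comp ι).range
  let m : H →* R := (mk.comp ι).rangeRestrict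
  have hm : Surjective m := (mk.comp ι).rangeRestrict_surjective
  obtain ⟨β', hβ'⟩ := exists_fac m hm β (fun x hx => by
    apply hW
    have h1 : mk (ι x) = 1 := congrArg Subtype.val hx
    exact (QuotientGroup.eq_one_iff _).1 h1)
  have hmo : IsOpen (mk.ker : Set G) := by
    have h1 : mk.ker = W := QuotientGroup.ker_mk' W
    rw [h1]
    exact hWo
  haveI : Finite ((G ⧸ W) ⧸ R) := inferInstance
  obtain ⟨γ', hγ's, hγ'o, hγ', hγ'k⟩ := hemb (Coind R β' α) (G ⧸ W) (Coind.pr R β' α) mk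
    (Coind.pr_surjective hα) hmk (Coind.ker_pr hC hk) hmo
  have hmem : ∀ h : H, γ' (ι h) ∈ R.comap (Coind.pr R β' α) := by
    intro h
    rw [Subgroup.mem_comap, hγ']
    exact ⟨h, rfl⟩
  let δ : H →* R.comap (Coind.pr R β' α) := (γ'.comp ι).codRestrict _ hmem
  let γ : H →* E := (Coind.ev R β' α).comp δ
  have hγα : ∀ h, α (γ h) = β h := by
    intro h
    change α (Coind.ev R β' α (δ h)) = β h
    rw [Coind.map_ev, ← hβ']
    congr 1
    apply Subtype.ext
    exact hγ' (ι h)
  have hγk : ∀ k : E, α k = 1 → ∃ h, γ h = k := by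
    intro k hk1
    obtain ⟨x, hx1, hx2⟩ := Coind.exists_ev (R := R) (β := β') (α := α) k hk1
    obtain ⟨g, hg1, hg2⟩ := hγ'k hx1
    obtain ⟨h, rfl⟩ := hι g hg1
    refine ⟨h, ?_⟩
    change (γ' (ι h)).f _ = k
    rw [hg2, hx2]
  refine ⟨γ, ?_, ⟨γ'.ker, ⟨inferInstance, hγ'o⟩, ?_⟩, hγα⟩
  · intro e
    obtain ⟨h, hh⟩ := hβ (α e)
    obtain ⟨h', hh'⟩ := hγk ((γ h)⁻¹ * e) (by
      rw [map_mul, map_inv, hγα, hh, inv_mul_cancel])
    exact ⟨h * h', by rw [map_mul, hh', mul_inv_cancel_left]⟩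
  · intro h hh
    have h1 : δ h = 1 := by
      apply Subtype.ext
      exact hh
    change (Coind.ev R β' α) (δ h) = 1
    rw [h1, map_one]

end Pool.Agent.H87.Fpc
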