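import Pool.Agent.H87.Fpc.Pres2

/-!
# The constant extension of a rational function field over a finite field
-/

set_option autoImplicit false

namespace Pool.Agent.H87.Fpc

open Function IntermediateField

theorem fix_adjoin {K L : Type} [Field K] [Field L] [Algebra K L] (ρ : L ≃ₐ[K] L) (S : Set L)
    (h : ∀ s ∈ S, ρ s = s) : ∀ z ∈ adjoin K S, ρ z = z := by
  intro z hz
  induction hz using adjoin_induction with
  | mem x hx => exact h x hx
  | algebraMap x => exact ρ.commutes x
  | add x y _ _ hx hy => rw [map_add, hx, hy]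
  | inv x _ hx => rw [map_inv₀, hx]
  | mul x y _ _ hx hy => rw [map_mul, hx, hy]

section core

variable {κ A K L : Type} [Field κ] [Finite κ] [Field A] [Field K] [Field L] [Algebra κ A]
  [Algebra κ K] [Algebra κ L] [Algebra K L] [Algebra A L] [IsScalarTower κ K L]
  [IsScalarTower κ A L] [IsAlgClosure κ A]

include κ in
/-- the extension is Galois -/
theorem galois_const (hgen : adjoin K (Set.range (algebraMap A L)) = ⊤) : IsGalois K L := by
  have halg : Algebra.IsAlgebraic κ A := IsAlgClosure.isAlgebraic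
  haveI : IsAlgClosed A := IsAlgClosure.isAlgClosed κ
  have hmp : ∀ a : A, minpoly K (algebraMap A L a) ∣ (minpoly κ a).map (algebraMap κ K) := by
    intro a
    apply minpoly.dvd
    rw [Polynomial.aeval_map_algebraMap, Polynomial.aeval_algebraMap_apply, minpoly.aeval, map_zero]
  have hint : ∀ a : A, IsIntegral K (algebraMap A L a) := by
    intro a
    have h1 : IsIntegral κ (algebraMap A L a) :=
      (halg.isIntegral.isIntegral a).map (IsScalarTower.toAlgHom κ A L)
    exact h1.tower_top
  have hspl : ∀ a : A, ((minpoly K (algebraMap A L a)).map (algebraMap K L)).Splits := by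
    intro a
    have h1 : ((minpoly κ a).map (algebraMap κ L)).Splits := by
      have h2 : ((minpoly κ a).map (algebraMap κ A)).Splits := IsAlgClosed.splits _
      have h3 := h2.map (algebraMap A L)
      rwa [Polynomial.map_map, ← IsScalarTower.algebraMap_eq] at h3
    have h4 : (minpoly κ a).map (algebraMap κ L) ≠ 0 :=
      Polynomial.map_ne_zero (minpoly.ne_zero (halg.isIntegral.isIntegral a))
    refine h1.of_dvd h4 ?_
    have h5 := Polynomial.map_dvd (algebraMap K L) (hmp a)
    rwa [Polynomial.map_map, ← IsScalarTower.algebraMap_eq] at h5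
  have hsep : ∀ a : A, IsSeparable K (algebraMap A L a) := by
    intro a
    have h1 : (minpoly κ a).Separable := by
      have h2 : Irreducible (minpoly κ a) := minpoly.irreducible (halg.isIntegral.isIntegral a)
      exact PerfectField.separable_of_irreducible h2
    exact Polynomial.Separable.of_dvd (h1.map (f := algebraMap κ K)) (hmp a)
  have hS : Algebra.IsSeparable K L := by
    have h1 : Algebra.IsSeparable K (adjoin K (Set.range (algebraMap A L))) := by
      rw [isSeparable_adjoin_iff_isSeparable]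
      rintro _ ⟨a, rfl⟩
      exact hsep a
    rw [hgen] at h1
    exact Algebra.IsSeparable.of_algHom K (⊤ : IntermediateField K L)
      (topEquiv : (⊤ : IntermediateField K L) ≃ₐ[K] L).symm.toAlgHom
  have hN : Normal K L := by
    rw [normal_iff]
    intro z
    refine ⟨(hS.isSeparable' z).isIntegral, ?_⟩
    refine splits_of_mem_adjoin K L (S := Set.range (algebraMap A L)) ?_ (x := z) ?_
    · rintro _ ⟨a, rfl⟩
      exact ⟨hint a, hspl a⟩
    · rw [hgen]
      trivial
  exact { }

/-- automorphisms restrict to the constants -/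
theorem exists_restr (τ : L ≃ₐ[K] L) : ∃ ρ : A ≃ₐ[κ] A,
    ∀ a, algebraMap A L (ρ a) = τ (algebraMap A L a) := by
  haveI : IsGalois κ A := inferInstance
  haveI : Normal κ A := inferInstance
  exact ⟨(τ.restrictScalars κ).restrictNormal A, fun a =>
    AlgEquiv.restrictNormal_commutes (τ.restrictScalars κ) A a⟩

/-- on finitely many constants every automorphism is a power of the Frobenius automorphism -/
theorem exists_pow (τ : L ≃ₐ[K] L) (S : Set A) (hS : S.Finite) :
    ∃ k : ℕ, ∀ a ∈ S, τ (algebraMap A L a) = algebraMap A L (a ^ (Nat.card κ ^ k)) := by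
  classical
  have halg : Algebra.IsAlgebraic κ A := IsAlgClosure.isAlgebraic
  obtain ⟨ρ, hρ⟩ := exists_restr (κ := κ) (A := A) τ
  haveI := hS.to_subtype
  haveI hfd : FiniteDimensional κ (adjoin κ S) :=
    finiteDimensional_adjoin fun a _ => halg.isIntegral.isIntegral a
  haveI : Finite (adjoin κ S) := Module.finite_of_finite κ
  letI := Fintype.ofFinite κ
  haveI : IsGalois κ (adjoin κ S) := inferInstance
  obtain ⟨⟨k, hk'⟩, hk⟩ := (FiniteField.bijective_frobeniusAlgEquivOfAlgebraic_pow κ
    (adjoin κ S)).2 (ρ.restrictNormal (adjoin κ S))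
  refine ⟨k, fun a ha => ?_⟩
  have h1 : a ∈ adjoin κ S := subset_adjoin κ S ha
  have h2 := AlgEquiv.restrictNormal_commutes ρ (adjoin κ S) ⟨a, h1⟩
  rw [← hk] at h2
  have h3 : (FiniteField.frobeniusAlgEquivOfAlgebraic κ (adjoin κ S) ^ k) ⟨a, h1⟩ =
      (⟨a, h1⟩ : adjoin κ S) ^ (Nat.card κ ^ k) := by
    rw [AlgEquiv.coe_pow, FiniteField.coe_frobeniusAlgEquivOfAlgebraic_iterate,
      Nat.card_eq_fintype_card]
  change algebraMap (adjoin κ S) A ((FiniteField.frobeniusAlgEquivOfAlgebraic κ
    (adjoin κ S) ^ k) ⟨a, h1⟩) = ρ a at h2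
  rw [h3] at h2
  rw [← hρ, ← h2]
  rfl

variable {σ : L ≃ₐ[K] L}

omit [IsScalarTower κ A L] [IsAlgClosure κ A] [Algebra κ A] [Finite κ] [Field κ] [Algebra κ K]
  [Algebra κ L] [IsScalarTower κ K L] in
theorem frob_pow {q : ℕ} (hσ : ∀ a : A, σ (algebraMap A L a) = algebraMap A L (a ^ q))
    (k : ℕ) (a : A) : (σ ^ k) (algebraMap A L a) = algebraMap A L (a ^ (q ^ k)) := by
  induction k with
  | zero => rw [pow_zero, pow_zero, pow_one, AlgEquiv.one_apply]
  | succ k ih =>
    rw [pow_succ', AlgEquiv.mul_apply, ih, hσ, ← pow_mul, ← pow_succ]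

/-- the Frobenius automorphism generates the group -/
theorem dense_frob (hgen : adjoin K (Set.range (algebraMap A L)) = ⊤)
    (hσ : ∀ a : A, σ (algebraMap A L a) = algebraMap A L (a ^ Nat.card κ)) :
    Dense ((Subgroup.closure (Set.range (fun _ : Fin 1 => σ)) : Subgroup (L ≃ₐ[K] L)) :
      Set (L ≃ₐ[K] L)) := by
  classical
  haveI : IsGalois K L := galois_const (κ := κ) hgen
  have hfix : ∀ z : L, σ z = z → ∀ τ : L ≃ₐ[K] L, τ z = z := by
    intro z hz τ
    have h1 : z ∈ adjoin K (Set.range (algebraMap A L)) := by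
      rw [hgen]
      trivial
    obtain ⟨T, hT, hzT⟩ := exists_finset_of_mem_adjoin h1
    let S : Set A := algebraMap A L ⁻¹' (T : Set L)
    have hS : S.Finite := T.finite_toSet.preimage (algebraMap A L).injective.injOn
    obtain ⟨k, hk⟩ := exists_pow (κ := κ) τ S hS
    have h2 : ((σ ^ k)⁻¹ * τ) z = z := by
      refine fix_adjoin _ (T : Set L) ?_ z hzT
      intro s hs
      obtain ⟨a, rfl⟩ := hT hs
      rw [AlgEquiv.mul_apply, hk a hs, ← frob_pow hσ k a, ← AlgEquiv.mul_apply, inv_mul_cancel,
        AlgEquiv.one_apply]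
    have h3 : (σ ^ k) z = z := by
      have h4 : ∀ k : ℕ, (σ ^ k) z = z := by
        intro k
        induction k with
        | zero => rfl
        | succ k ih => rw [pow_succ, AlgEquiv.mul_apply, hz, ih]
      exact h4 k
    have h5 : τ z = (σ ^ k) z := by
      have h6 : (σ ^ k) (((σ ^ k)⁻¹ * τ) z) = (σ ^ k) z := congrArg _ h2
      rwa [← AlgEquiv.mul_apply, mul_inv_cancel_left] at h6
    rw [h5, h3]
  let H : ClosedSubgroup (L ≃ₐ[K] L) :=
    ⟨(Subgroup.closure (Set.range (fun _ : Fin 1 => σ))).topologicalClosure,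
      Subgroup.isClosed_topologicalClosure _⟩
  have h1 : fixedField H.1 = ⊥ := by
    rw [eq_bot_iff]
    intro z hz
    rw [mem_fixedField_iff] at hz
    rw [InfiniteGalois.mem_bot_iff_fixed]
    apply hfix z
    apply hz
    exact Subgroup.le_topologicalClosure _ (Subgroup.subset_closure ⟨0, rfl⟩)
  have h2 := InfiniteGalois.fixingSubgroup_fixedField H
  have h3 : (Subgroup.closure (Set.range (fun _ : Fin 1 => σ))).topologicalClosure = ⊤ := by
    have h4 : H.1 = ⊤ := by
      rw [← h2]
      change (fixedField H.1).fixingSubgroup = ⊤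
      rw [h1, fixingSubgroup_bot]
    exact h4
  rw [dense_iff_closure_eq]
  have h4 : ((Subgroup.closure (Set.range (fun _ : Fin 1 => σ))).topologicalClosure :
    Set (L ≃ₐ[K] L)) = Set.univ := by
    rw [h3]
    rfl
  exact h4

/-- homomorphisms to finite groups -/
theorem hom_frob
    (hσ : ∀ a : A, σ (algebraMap A L a) = algebraMap A L (a ^ Nat.card κ))
    (H : Type) [Group H] [Finite H] (h : H) :
    ∃ φ : (L ≃ₐ[K] L) →* H, IsOpen (φ.ker : Set (L ≃ₐ[K] L)) ∧ φ σ = h := by
  classical
  haveI halg : Algebra.IsAlgebraic κ A := IsAlgClosure.isAlgebraic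
  haveI : IsAlgClosed A := IsAlgClosure.isAlgClosed κ
  letI := Fintype.ofFinite κ
  obtain ⟨p, hp⟩ := CharP.exists κ
  haveI : Fact p.Prime := ⟨CharP.char_is_prime κ p⟩
  haveI : NeZero (Nat.card H) := ⟨Nat.card_pos.ne'⟩
  let j : FiniteField.Extension κ p (Nat.card H) →ₐ[κ] A := IsAlgClosed.lift
  let E : IntermediateField κ A := j.fieldRange
  haveI : Finite E := Finite.of_equiv _ j.equivFieldRange.toEquiv
  haveI : FiniteDimensional κ E := Module.Finite.of_finite
  have hrank : Module.finrank κ E = Nat.card H := by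
    rw [← j.equivFieldRange.toLinearEquiv.finrank_eq, FiniteField.finrank_extension]
  haveI : IsGalois κ E := inferInstance
  let F : E ≃ₐ[κ] E := FiniteField.frobeniusAlgEquivOfAlgebraic κ E
  have hF : ∀ x, x ∈ Subgroup.zpowers F := by
    intro x
    obtain ⟨⟨k, hk'⟩, hk⟩ := (FiniteField.bijective_frobeniusAlgEquivOfAlgebraic_pow κ E).2 x
    exact ⟨(k : ℤ), by
      change F ^ (k : ℤ) = x
      rw [zpow_natCast]
      exact hk⟩
  have hord : orderOf h ∣ orderOf F := by
    rw [FiniteField.orderOf_frobeniusAlgEquivOfAlgebraic, hrank]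
    exact orderOf_dvd_natCard h
  let resA : (L ≃ₐ[κ] L) →* (A ≃ₐ[κ] A) := AlgEquiv.restrictNormalHom A
  let resE : (A ≃ₐ[κ] A) →* (E ≃ₐ[κ] E) := AlgEquiv.restrictNormalHom E
  let r : (L ≃ₐ[K] L) →* (L ≃ₐ[κ] L) :=
    { toFun := fun τ => τ.restrictScalars κ, map_one' := rfl, map_mul' := fun _ _ => rfl }
  let ρ : (L ≃ₐ[K] L) →* (E ≃ₐ[κ] E) := (resE.comp resA).comp r
  have hρ : ∀ (τ : L ≃ₐ[K] L) (x : E), algebraMap A L (ρ τ x : A) = τ (algebraMap A L (x : A)) := by
    intro τ x
    have h1 : ((ρ τ x : E) : A) = resA (r τ) (x : A) :=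
      AlgEquiv.restrictNormal_commutes (resA (r τ)) E x
    rw [h1]
    exact AlgEquiv.restrictNormal_commutes (r τ) A (x : A)
  have hρσ : ρ σ = F := by
    apply AlgEquiv.ext
    intro x
    apply Subtype.ext
    apply (algebraMap A L).injective
    rw [hρ, hσ]
    congr 1
    change (x : A) ^ Nat.card κ = ((x ^ Fintype.card κ : E) : A)
    rw [Nat.card_eq_fintype_card]
    rfl
  refine ⟨(monoidHomOfForallMemZpowers hF hord).comp ρ, ?_, ?_⟩
  · let S : Set L := algebraMap A L '' (E : Set A)
    haveI : Finite S := (Set.toFinite (E : Set A)).image _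
    have hfd : FiniteDimensional K (adjoin K S) := by
      refine finiteDimensional_adjoin ?_
      rintro _ ⟨a, -, rfl⟩
      have h1 : IsIntegral κ (algebraMap A L a) :=
        (halg.isIntegral.isIntegral a).map (IsScalarTower.toAlgHom κ A L)
      exact h1.tower_top
    refine Subgroup.isOpen_mono (H₁ := (adjoin K S).fixingSubgroup) ?_
      (fixingSubgroup_isOpen (adjoin K S))
    intro τ hτ
    have h1 : ρ τ = 1 := by
      apply AlgEquiv.ext
      intro x
      apply Subtype.ext
      apply (algebraMap A L).injective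
      rw [hρ, AlgEquiv.one_apply]
      rw [IntermediateField.mem_fixingSubgroup_iff] at hτ
      exact hτ _ (subset_adjoin K S ⟨(x : A), x.2, rfl⟩)
    rw [MonoidHom.mem_ker, MonoidHom.comp_apply, h1, map_one]
  · rw [MonoidHom.comp_apply, hρσ, monoidHomOfForallMemZpowers_apply_gen]

/-- **The Galois group of the constant extension is free on the Frobenius automorphism.** -/
theorem free_frob (hgen : adjoin K (Set.range (algebraMap A L)) = ⊤)
    (hσ : ∀ a : A, σ (algebraMap A L a) = algebraMap A L (a ^ Nat.card κ)) :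
    IsFreeProfinite (fun _ : Fin 1 => σ) := by
  refine ⟨dense_frob (κ := κ) hgen hσ, ?_⟩
  intro H _ _ h
  obtain ⟨φ, h1, h2⟩ := hom_frob (κ := κ) (A := A) hσ H (h 0)
  refine ⟨φ, h1, fun j => ?_⟩
  rw [Subsingleton.elim j 0]
  exact h2

end core

end Pool.Agent.H87.Fpc
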