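import Pool.Agent.H87.Fpc.Const

/-!
# The constant extension of a rational function field over a finite field (2)
-/

set_option autoImplicit false

namespace Pool.Agent.H87.Fpc

open Function IntermediateField

/-- `K = κ(X)`, `L = A(X)`, and `L` is the extension of `K` by constants: the embedding of `K` in `L`
is the natural one. -/
def IsConst (κ A K L : Type) [Field κ] [Field A] [Algebra κ A] [Field K] [Field L]
    [Algebra (Polynomial κ) K] [Algebra (Polynomial A) L] [Algebra K L] : Prop :=
  IsFractionRing (Polynomial κ) K ∧ IsFractionRing (Polynomial A) L ∧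
    ∀ f : Polynomial κ, algebraMap K L (algebraMap (Polynomial κ) K f) =
      algebraMap (Polynomial A) L (f.map (algebraMap κ A))

section rational

variable {κ A K L : Type} [Field κ] [Finite κ] [Field A] [Algebra κ A] [IsAlgClosure κ A]
  [Field K] [Field L] [Algebra (Polynomial κ) K] [Algebra (Polynomial A) L] [Algebra K L]

omit [Finite κ] [IsAlgClosure κ A] in
theorem gen_rational (h : IsConst κ A K L) : adjoin K (Set.range
    ((algebraMap (Polynomial A) L).comp Polynomial.C : A →+* L)) = ⊤ := by
  obtain ⟨h1, h2, h3⟩ := h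
  rw [eq_top_iff]
  intro z _
  have hp : ∀ f : Polynomial A, algebraMap (Polynomial A) L f ∈ adjoin K (Set.range
      ((algebraMap (Polynomial A) L).comp Polynomial.C : A →+* L)) := by
    intro f
    induction f using Polynomial.induction_on' with
    | add f g hf hg =>
      rw [map_add]
      exact add_mem hf hg
    | monomial n a =>
      rw [← Polynomial.C_mul_X_pow_eq_monomial, map_mul, map_pow]
      refine mul_mem (subset_adjoin K _ ⟨a, rfl⟩) (pow_mem ?_ n)
      have h4 := h3 Polynomial.X
      rw [Polynomial.map_X] at h4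
      rw [← h4]
      exact IntermediateField.algebraMap_mem _ _
  obtain ⟨f, g, -, rfl⟩ := IsFractionRing.div_surjective (A := Polynomial A) z
  exact div_mem (hp f) (hp g)

/-- the Frobenius automorphism of the extension by constants -/
theorem exists_frob_rational (h : IsConst κ A K L) : ∃ σ : L ≃ₐ[K] L, ∀ a : A,
    σ (algebraMap (Polynomial A) L (Polynomial.C a)) =
      algebraMap (Polynomial A) L (Polynomial.C (a ^ Nat.card κ)) := by
  obtain ⟨h1, h2, h3⟩ := h
  haveI halg : Algebra.IsAlgebraic κ A := IsAlgClosure.isAlgebraic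
  letI := Fintype.ofFinite κ
  let φ : A ≃ₐ[κ] A := FiniteField.frobeniusAlgEquivOfAlgebraic κ A
  have hφ : ∀ a, φ a = a ^ Nat.card κ := by
    intro a
    rw [Nat.card_eq_fintype_card]
    rfl
  let ψ : Polynomial A ≃+* Polynomial A := Polynomial.mapEquiv φ.toRingEquiv
  have hψ : ∀ f : Polynomial A, ψ f = f.map (φ : A →+* A) := fun f => rfl
  let θ : L ≃+* L := IsFractionRing.ringEquivOfRingEquiv (K := L) (L := L) ψ
  have hθ : ∀ f : Polynomial A, θ (algebraMap (Polynomial A) L f) =
      algebraMap (Polynomial A) L (ψ f) := fun f => IsFractionRing.ringEquivOfRingEquiv_algebraMap ψ f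
  have hK : ∀ r : K, θ (algebraMap K L r) = algebraMap K L r := by
    intro r
    have h4 : ∀ f : Polynomial κ, θ (algebraMap K L (algebraMap (Polynomial κ) K f)) =
        algebraMap K L (algebraMap (Polynomial κ) K f) := by
      intro f
      rw [h3, hθ, hψ, Polynomial.map_map]
      congr 2
      ext x
      exact φ.commutes x
    obtain ⟨f, g, -, rfl⟩ := IsFractionRing.div_surjective (A := Polynomial κ) r
    rw [map_div₀, map_div₀, h4, h4]
  refine ⟨AlgEquiv.ofRingEquiv (f := θ) hK, fun a => ?_⟩
  change θ (algebraMap (Polynomial A) L (Polynomial.C a)) = _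
  rw [hθ, hψ, Polynomial.map_C]
  congr 2
  exact hφ a

/-- **The Galois group of the extension by constants.** -/
theorem free_rational (h : IsConst κ A K L) : IsGalois K L ∧
    (∃ σ : L ≃ₐ[K] L, ∀ a : A, σ (algebraMap (Polynomial A) L (Polynomial.C a)) =
      algebraMap (Polynomial A) L (Polynomial.C (a ^ Nat.card κ))) ∧
    ∀ σ : L ≃ₐ[K] L, (∀ a : A, σ (algebraMap (Polynomial A) L (Polynomial.C a)) =
      algebraMap (Polynomial A) L (Polynomial.C (a ^ Nat.card κ))) →
      IsFreeProfinite (fun _ : Fin 1 => σ) := by
  have hgen := gen_rational h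
  have hfrob := exists_frob_rational h
  obtain ⟨h1, h2, h3⟩ := h
  letI iκK : Algebra κ K := ((algebraMap (Polynomial κ) K).comp Polynomial.C).toAlgebra
  letI iAL : Algebra A L := ((algebraMap (Polynomial A) L).comp Polynomial.C).toAlgebra
  letI iκL : Algebra κ L := ((algebraMap K L).comp
    ((algebraMap (Polynomial κ) K).comp Polynomial.C)).toAlgebra
  haveI : IsScalarTower κ K L := IsScalarTower.of_algebraMap_eq fun x => rfl
  haveI : IsScalarTower κ A L := IsScalarTower.of_algebraMap_eq fun x => by
    change algebraMap K L (algebraMap (Polynomial κ) K (Polynomial.C x)) =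
      algebraMap (Polynomial A) L (Polynomial.C (algebraMap κ A x))
    rw [h3, Polynomial.map_C]
  exact ⟨galois_const (κ := κ) (A := A) hgen, hfrob, fun σ hσ =>
    free_frob (κ := κ) (A := A) hgen hσ⟩

end rational

end Pool.Agent.H87.Fpc
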