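import Pool.Graph.R_seed8.Y60.DC.Def

/-!
# Definitions: pro-`C` groups, free pro-`C` groups, maximal pro-`C` extensions
-/

set_option autoImplicit false

open Pool.Agent.Y60.DC (CompIn)

namespace Pool.Agent.H87.Fpc

/-- `G` is a finite group all of whose composition factors belong to the class `Φ`. -/
def InC (Φ : ∀ (T : Type) [Group T], Prop) (G : Type) [Group G] : Prop :=
  Finite G ∧ CompIn Φ G

/-- `G` is a pro-`C` group: a profinite group (compact, Hausdorff, totally disconnected), all of
whose finite quotients by open normal subgroups belong to `C`. -/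
def IsProC (C : ∀ (G : Type) [Group G], Prop) (G : Type) [Group G] [TopologicalSpace G] : Prop :=
  IsTopologicalGroup G ∧ CompactSpace G ∧ T2Space G ∧ TotallyDisconnectedSpace G ∧
    ∀ (U : Subgroup G) [U.Normal], IsOpen (U : Set G) → C (G ⧸ U)

/-- The sequence `x 0, x 1, x 2, ...` is a basis of the pro-`C` group `G`: it converges to `1`, and
for every group `H` in `C` and every sequence `y 0, y 1, ...` in `H`, almost all of whose members
are `1` and which generates `H`, there is exactly one homomorphism `φ : G → H` with an open kernel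
and `φ (x i) = y i` for all `i`. -/
def IsBasis (C : ∀ (G : Type) [Group G], Prop) {G : Type} [Group G] [TopologicalSpace G]
    (x : ℕ → G) : Prop :=
  Filter.Tendsto x Filter.atTop (nhds 1) ∧
  ∀ (H : Type) [Group H], C H → ∀ y : ℕ → H, {i | y i ≠ 1}.Finite →
    Subgroup.closure (Set.range y) = ⊤ →
      ∃! φ : G →* H, IsOpen (φ.ker : Set G) ∧ ∀ i, φ (x i) = y i

/-- `G` is a free pro-`C` group of countable (infinite) rank. -/
def IsFreeProC (C : ∀ (G : Type) [Group G], Prop) (G : Type) [Group G] [TopologicalSpace G] :
    Prop :=
  IsProC C G ∧ ∃ x : ℕ → G, IsBasis C x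

/-- `M` is a maximal pro-`C` extension of `K`: a Galois extension whose group is pro-`C`, and which
contains (up to isomorphism over `K`) all finite Galois extensions of `K` with a group in `C`. -/
def IsMaxProC (C : ∀ (G : Type) [Group G], Prop) (K M : Type) [Field K] [Field M] [Algebra K M] :
    Prop :=
  IsGalois K M ∧ IsProC C (M ≃ₐ[K] M) ∧
    ∀ (L : Type) [Field L] [Algebra K L], FiniteDimensional K L → IsGalois K L →
      C (L ≃ₐ[K] L) → Nonempty (L →ₐ[K] M)

end Pool.Agent.H87.Fpc
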