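import Pool.Agent.H87.Fpc.Field

/-!
# Existence of the maximal pro-`C` extension, countability
-/

set_option autoImplicit false

namespace Pool.Agent.H87.Fpc

open Function

theorem Good.iso {C : ∀ (G : Type) [Group G], Prop} (hC : Good C) (G H : Type) [Group G]
    [Group H] (e : G ≃* H) (h : C G) : C H :=
  hC.quo G H e.toMonoidHom h e.surjective

/-- the open subgroups which are kernels of homomorphisms onto groups in `C` -/
def UC (C : ∀ (G : Type) [Group G], Prop) (Γ : Type) [Group Γ] [TopologicalSpace Γ] :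
    Set (Subgroup Γ) :=
  {U | IsOpen (U : Set Γ) ∧ ∃ (A : Type) (_ : Group A) (q : Γ →* A), C A ∧ Surjective q ∧
    q.ker = U}

section grp

variable {C : ∀ (G : Type) [Group G], Prop} {Γ : Type} [Group Γ] [TopologicalSpace Γ]

theorem UC.normal {U : Subgroup Γ} (h : U ∈ UC C Γ) : U.Normal := by
  obtain ⟨-, A, iA, q, -, -, hU⟩ := h
  rw [← hU]
  infer_instance

theorem UC.top (hC : Good C) : (⊤ : Subgroup Γ) ∈ UC C Γ :=
  ⟨isOpen_univ, Unit, inferInstance, 1, hC.one Unit, fun _ => ⟨1, rfl⟩, MonoidHom.ker_one⟩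

theorem UC.inf (hC : Good C) {U V : Subgroup Γ} (hU : U ∈ UC C Γ) (hV : V ∈ UC C Γ) :
    U ⊓ V ∈ UC C Γ := by
  obtain ⟨hUo, A, iA, q, hA, hq, hqU⟩ := hU
  obtain ⟨hVo, B, iB, r, hB, hr, hrV⟩ := hV
  refine ⟨hUo.inter hVo, (q.prod r).range, inferInstance, (q.prod r).rangeRestrict,
    hC.subdirect q r hq hr hA hB, (q.prod r).rangeRestrict_surjective, ?_⟩
  rw [MonoidHom.ker_rangeRestrict, MonoidHom.ker_prod, hqU, hrV]

variable [IsTopologicalGroup Γ] [CompactSpace Γ]

theorem UC.cpt (hC : Good C) {V : Subgroup Γ} (hV : IsOpen (V : Set Γ))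
    (hN : sInf (UC C Γ) ≤ V) : ∃ U ∈ UC C Γ, U ≤ V := by
  haveI : Nonempty (UC C Γ) := ⟨⟨⊤, UC.top hC⟩⟩
  obtain ⟨U, hU⟩ := exists_subset_nhds_of_isCompact' (ι := UC C Γ)
    (V := fun U => ((U : Subgroup Γ) : Set Γ)) (U := (V : Set Γ)) (by
      intro U W
      refine ⟨⟨U.1 ⊓ W.1, UC.inf hC U.2 W.2⟩, ?_, ?_⟩
      · intro x hx
        exact hx.1
      · intro x hx
        exact hx.2) (fun U => (Subgroup.isClosed_of_isOpen _ U.2.1).isCompact)
    (fun U => Subgroup.isClosed_of_isOpen _ U.2.1) (by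
      intro x hx
      refine hV.mem_nhds (hN ?_)
      rw [Subgroup.mem_sInf]
      intro U hU
      exact Set.mem_iInter.1 hx ⟨U, hU⟩)
  exact ⟨U.1, U.2, hU⟩

omit [CompactSpace Γ] in
theorem UC.closed : IsClosed ((sInf (UC C Γ) : Subgroup Γ) : Set Γ) := by
  have h : ((sInf (UC C Γ) : Subgroup Γ) : Set Γ) = ⋂ U ∈ UC C Γ, (U : Set Γ) :=
    Subgroup.coe_sInf _
  rw [h]
  exact isClosed_biInter fun U hU => Subgroup.isClosed_of_isOpen _ hU.1

omit [TopologicalSpace Γ] [IsTopologicalGroup Γ] [CompactSpace Γ] in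
theorem sInf_normal (𝒰 : Set (Subgroup Γ)) (h : ∀ U ∈ 𝒰, U.Normal) : (sInf 𝒰).Normal := by
  constructor
  intro x hx g
  rw [Subgroup.mem_sInf] at hx ⊢
  intro U hU
  exact (h U hU).conj_mem x (hx U hU) g

end grp

/-- **Existence of the maximal pro-`C` extension.** -/
theorem exists_max {C : ∀ (G : Type) [Group G], Prop} (hC : Good C) (K : Type) [Field K] :
    ∃ (M : Type) (_ : Field M) (_ : Algebra K M), IsMaxProC C K M := by
  let S := SeparableClosure K
  let Γ := S ≃ₐ[K] S
  let N : Subgroup Γ := sInf (UC C Γ)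
  have hNn : N.Normal := sInf_normal _ fun U hU => UC.normal hU
  have hNc : IsClosed (N : Set Γ) := UC.closed
  let N' : ClosedSubgroup Γ := ⟨N, hNc⟩
  let M : IntermediateField K S := IntermediateField.fixedField N
  have hM : M.fixingSubgroup = N := InfiniteGalois.fixingSubgroup_fixedField N'
  have hMg : IsGalois K M := by
    rw [← InfiniteGalois.normal_iff_isGalois, hM]
    exact hNn
  let r : Γ →* (M ≃ₐ[K] M) := AlgEquiv.restrictNormalHom M
  have hr : Surjective r := AlgEquiv.restrictNormalHom_surjective S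
  have hrk : r.ker = N := by
    rw [← hM]
    exact IntermediateField.restrictNormalHom_ker M
  have hrc : Continuous r := InfiniteGalois.restrictNormalHom_continuous M
  refine ⟨M, inferInstance, inferInstance, hMg, ⟨inferInstance, inferInstance, krullTopology_t2,
    inferInstance, ?_⟩, ?_⟩
  · intro W hWn hWo
    have h1 : IsOpen ((W.comap r : Subgroup Γ) : Set Γ) := hWo.preimage hrc
    have h2 : N ≤ W.comap r := by
      intro x hx
      have h3 : r x = 1 := by
        rw [← hrk] at hx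
        exact hx
      rw [Subgroup.mem_comap, h3]
      exact one_mem W
    obtain ⟨U, ⟨hUo, A, iA, q, hA, hq, hqU⟩, hUW⟩ := UC.cpt hC h1 h2
    obtain ⟨α, hα⟩ := exists_fac q hq ((QuotientGroup.mk' W).comp r) (fun x hx => by
      rw [MonoidHom.comp_apply, QuotientGroup.mk'_apply, QuotientGroup.eq_one_iff]
      have h3 : x ∈ U := by rw [← hqU]; exact hx
      exact hUW h3)
    refine hC.quo A _ α hA ?_
    intro y
    obtain ⟨z, rfl⟩ := QuotientGroup.mk'_surjective W y
    obtain ⟨x, rfl⟩ := hr z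
    exact ⟨q x, hα x⟩
  · intro L _ _ hL1 hL2 hL
    let j : L →ₐ[K] S := IsSepClosed.lift
    letI : Algebra L S := j.toRingHom.toAlgebra
    haveI : IsScalarTower K L S := IsScalarTower.of_algebraMap_eq fun x => (j.commutes x).symm
    let rL : Γ →* (L ≃ₐ[K] L) := AlgEquiv.restrictNormalHom L
    have h1 : rL.ker ∈ UC C Γ :=
      ⟨isOpen_ker_restrict L, _, inferInstance, rL, hL, AlgEquiv.restrictNormalHom_surjective S,
        rfl⟩
    have h2 : ∀ x, j x ∈ M := by
      intro x
      rw [IntermediateField.mem_fixedField_iff]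
      intro σ hσ
      have h3 : σ ∈ rL.ker := (Subgroup.mem_sInf.1 hσ) _ h1
      have h4 : σ.restrictNormal L = 1 := h3
      have h5 := σ.restrictNormal_commutes L x
      rw [h4] at h5
      exact h5.symm
    exact ⟨j.codRestrict M.toSubalgebra h2⟩

/-- the open normal subgroups of a Galois group over a countable field -/
theorem countable_ON (K M : Type) [Field K] [Field M] [Algebra K M] [IsGalois K M]
    [Countable K] : (ON (M ≃ₐ[K] M)).Countable := by
  haveI : Countable M := by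
    have h1 := Algebraic.countable K M
    have h2 : {x : M | IsAlgebraic K x} = Set.univ := by
      ext x
      exact ⟨fun _ => trivial, fun _ => Algebra.IsAlgebraic.isAlgebraic x⟩
    rw [h2] at h1
    exact Set.countable_univ_iff.1 h1
  refine Set.Countable.mono ?_
    (Set.countable_range fun a : M => (IntermediateField.adjoin K {a}).fixingSubgroup)
  rintro U ⟨hUn, hUo⟩
  have hcl : IsClosed (U : Set (M ≃ₐ[K] M)) := Subgroup.isClosed_of_isOpen _ hUo
  let U' : ClosedSubgroup (M ≃ₐ[K] M) := ⟨U, hcl⟩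
  let L : IntermediateField K M := IntermediateField.fixedField U
  have hL : L.fixingSubgroup = U := InfiniteGalois.fixingSubgroup_fixedField U'
  have hLf : FiniteDimensional K L ∧ IsGalois K L := by
    rw [← InfiniteGalois.isOpen_and_normal_iff_finite_and_isGalois, hL]
    exact ⟨hUo, inferInstance⟩
  obtain ⟨hL1, hL2⟩ := hLf
  obtain ⟨a, ha⟩ := Field.exists_primitive_element K L
  refine ⟨(a : M), ?_⟩
  have h1 := congrArg IntermediateField.lift ha
  rw [IntermediateField.lift_adjoin_simple, IntermediateField.lift_top] at h1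
  change (IntermediateField.adjoin K {(a : M)}).fixingSubgroup = U
  rw [h1, hL]

/-- **The Galois group of the maximal pro-`C` extension.** -/
theorem pc_gal {C : ∀ (G : Type) [Group G], Prop} (hC : Good C) {K M : Type} [Field K]
    [Field M] [Algebra K M] [Countable K] (hM : IsMaxProC C K M)
    (hsol : ∀ (L E : Type) [Field L] [Algebra K L] [FiniteDimensional K L] [IsGalois K L]
      [Group E] (α : E →* (L ≃ₐ[K] L)), C E → Surjective α → Sol K L E α) :
    Pc C (ON (M ≃ₐ[K] M)) := by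
  obtain ⟨hG, ⟨-, -, -, -, hq⟩, hmax⟩ := hM
  have htop : (⊤ : Subgroup (M ≃ₐ[K] M)) ∈ ON (M ≃ₐ[K] M) := ⟨inferInstance, isOpen_univ⟩
  refine ⟨?_, ?_, htop, ?_, ?_⟩
  · rintro U ⟨hUn, hUo⟩
    refine ⟨_ ⧸ U, inferInstance, QuotientGroup.mk' U, hq U hUo,
      QuotientGroup.mk'_surjective U, fun x => ?_⟩
    rw [QuotientGroup.mk'_apply, QuotientGroup.eq_one_iff]
  · rintro U ⟨hUn, hUo⟩ V ⟨hVn, hVo⟩
    exact ⟨inferInstance, hUo.inter hVo⟩
  · intro E A _ _ α β hE hα hβ hβO
    obtain ⟨γ, h1, h2, h3⟩ := emb_gal (fun G H _ _ e h => hC.iso G H e h) hmax hsol E A α β hE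
      hα hβ hβO.2
    exact ⟨γ, h1, ⟨inferInstance, h2⟩, h3⟩
  · obtain ⟨u, hu⟩ := (countable_ON K M).exists_eq_range ⟨⊤, htop⟩
    refine ⟨u, fun n => ?_, ?_⟩
    · rw [hu]
      exact ⟨n, rfl⟩
    · intro U hU
      rw [hu] at hU
      obtain ⟨n, hn⟩ := hU
      exact ⟨n, hn.le⟩

end Pool.Agent.H87.Fpc
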