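import Pool.Agent.H87.Fpc.Cls

/-!
# The class of factors is closed under isomorphism; rational function fields
-/

set_option autoImplicit false

namespace Pool.Agent.H87.Fpc

open Function
open Polynomial
open Pool.Agent.K7.H53.LD (FactorL)
open Pool.Agent.K7.H53.MA (FactorA IsAlt)
open Pool.Agent.Y60.DCF (Factor IsClassical IsPSL2 IsPSL IsPSp)

theorem isClassical_iso {p : ℕ} [Fact p.Prime] {T T' : Type} [Group T] [Group T'] (e : T ≃* T')
    (h : IsClassical p T) : IsClassical p T' := by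
  obtain ⟨R, i1, i2, i3, N, i4, ι, π, C, i5, c, ρ, h1, h2, h3, h4, h5, h6⟩ := h
  refine ⟨R, i1, i2, i3, N, i4, ι, (e : T →* T').comp π, C, i5,
    ((MulAut.congr e : MulAut T ≃* MulAut T') : MulAut T →* MulAut T').comp c, ρ, h1, h2,
    e.surjective.comp h3, Pool.Agent.K7.H53.LD.complInn_iso e h4, h5, ?_⟩
  intro x u v huv
  change e (c x (e.symm (e (π u)))) = e (π v)
  rw [e.symm_apply_apply, h6 x u v huv]

theorem factor_iso {p : ℕ} [Fact p.Prime] {T T' : Type} [Group T] [Group T'] (e : T ≃* T')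
    (h : Factor p T) : Factor p T' := by
  rcases h with h | h | h | h | ⟨h1, ⟨a, b, hab⟩, h3⟩
  · left
    rw [← h]
    exact (Nat.card_congr e.toEquiv).symm
  · obtain ⟨F, iF, k, h1, h2, h3, ⟨f⟩⟩ := h
    exact Or.inr (Or.inl ⟨F, iF, k, h1, h2, h3, ⟨e.symm.trans f⟩⟩)
  · obtain ⟨F, iF, k, n, h1, h2, h3, h4, ⟨f⟩⟩ := h
    exact Or.inr (Or.inr (Or.inl ⟨F, iF, k, n, h1, h2, h3, h4, ⟨e.symm.trans f⟩⟩))
  · obtain ⟨F, iF, k, n, h1, h2, h3, ⟨f⟩⟩ := h
    exact Or.inr (Or.inr (Or.inr (Or.inl ⟨F, iF, k, n, h1, h2, h3, ⟨e.symm.trans f⟩⟩)))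
  · refine Or.inr (Or.inr (Or.inr (Or.inr ⟨e.symm.isSimpleGroup, ⟨e a, e b, ?_⟩,
      isClassical_iso e h3⟩)))
    intro hcon
    apply hab
    apply e.injective
    rw [map_mul, map_mul, hcon]

theorem isAlt_iso {T T' : Type} [Group T] [Group T'] (e : T ≃* T') (h : IsAlt T) : IsAlt T' := by
  obtain ⟨n, h5, h6, ⟨f⟩⟩ := h
  exact ⟨n, h5, h6, ⟨e.symm.trans f⟩⟩

theorem factorL_iso {p : ℕ} [Fact p.Prime] {T T' : Type} [Group T] [Group T'] (e : T ≃* T')
    (h : FactorL p T) : FactorL p T' := by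
  rcases h with (h | h) | ⟨h1, ⟨a, b, hab⟩, h3⟩
  · exact Or.inl (Or.inl (isAlt_iso e h))
  · exact Or.inl (Or.inr (factor_iso e h))
  · refine Or.inr ⟨e.symm.isSimpleGroup, ⟨e a, e b, ?_⟩, h3.iso e⟩
    intro hcon
    apply hab
    apply e.injective
    rw [map_mul, map_mul, hcon]

theorem countable_of_frac (κ K : Type) [Field κ] [Finite κ] [Field K] [Algebra κ[X] K]
    [IsFractionRing κ[X] K] : Countable K := by
  haveI : Countable κ[X] := by
    have h3 : ∀ f : κ[X], ∃ c : Σ n : ℕ, (Fin n → κ), f = ∑ i : Fin c.1, C (c.2 i) * X ^ (i : ℕ) := by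
      intro f
      refine ⟨⟨f.natDegree + 1, fun i => f.coeff i⟩, ?_⟩
      have h4 := f.as_sum_range_C_mul_X_pow
      rw [Finset.sum_range] at h4
      exact h4
    choose c hc using h3
    refine (Function.Injective.countable (f := c) ?_)
    intro f g hfg
    rw [hc f, hc g, hfg]
  have h1 : Function.Surjective (fun x : κ[X] × nonZeroDivisors κ[X] =>
      IsLocalization.mk' K x.1 x.2) := by
    intro z
    obtain ⟨x, s, hz⟩ := IsLocalization.exists_mk'_eq (nonZeroDivisors κ[X]) z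
    exact ⟨(x, s), hz⟩
  exact h1.countable

end Pool.Agent.H87.Fpc
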