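import Pool.Agent.H87.Fpc.Iso

/-!
# Galois groups with solvable embedding problems
-/

set_option autoImplicit false

namespace Pool.Agent.H87.Fpc

open Function

/-- the embedding problem has a proper solution -/
def Sol (K L E : Type) [Field K] [Field L] [Algebra K L] [Normal K L] [Group E]
    (α : E →* (L ≃ₐ[K] L)) : Prop :=
  ∃ (F : Type) (_ : Field F) (_ : Algebra K F) (_ : Algebra L F) (_ : IsScalarTower K L F),
    FiniteDimensional K F ∧ IsGalois K F ∧
    ∃ γ : (F ≃ₐ[K] F) ≃* E, ∀ σ : F ≃ₐ[K] F, α (γ σ) = σ.restrictNormal L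

section emb

variable {C : ∀ (G : Type) [Group G], Prop} {K M : Type} [Field K] [Field M] [Algebra K M]
  [IsGalois K M]

theorem exists_emb (L F : Type) [Field L] [Algebra K L] [Field F] [Algebra K F] [Algebra L F]
    [IsScalarTower K L F] [Algebra L M] [IsScalarTower K L M] [FiniteDimensional K F]
    (j : F →ₐ[K] M) : Nonempty (F →ₐ[L] M) := by
  apply IntermediateField.nonempty_algHom_of_splits
  intro s
  have hK : IsIntegral K s := Algebra.IsIntegral.isIntegral s
  refine ⟨hK.tower_top, ?_⟩
  have h1 := minpoly.dvd_map_of_isScalarTower K L s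
  have h2 : ((minpoly K s).map (algebraMap K M)).Splits := by
    rw [← minpoly.algHom_eq j j.injective s]
    exact Normal.splits inferInstance (j s)
  have h3 : (minpoly L s).map (algebraMap L M) ∣ (minpoly K s).map (algebraMap K M) := by
    have h4 := Polynomial.map_dvd (algebraMap L M) h1
    rwa [Polynomial.map_map, ← IsScalarTower.algebraMap_eq] at h4
  exact h2.of_dvd ((Polynomial.map_ne_zero_iff (algebraMap K M).injective).2
    (minpoly.ne_zero hK)) h3

omit [IsGalois K M] in
theorem restrict_restrict (L F : Type) [Field L] [Algebra K L] [Field F] [Algebra K F]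
    [Algebra L F] [IsScalarTower K L F] [Algebra L M] [IsScalarTower K L M] [Algebra F M]
    [IsScalarTower K F M] [IsScalarTower L F M] [Normal K L] [Normal K F] (σ : M ≃ₐ[K] M) :
    (σ.restrictNormal F).restrictNormal L = σ.restrictNormal L := by
  apply AlgEquiv.ext
  intro x
  apply (algebraMap L M).injective
  rw [AlgEquiv.restrictNormal_commutes, IsScalarTower.algebraMap_apply L F M,
    AlgEquiv.restrictNormal_commutes, AlgEquiv.restrictNormal_commutes,
    ← IsScalarTower.algebraMap_apply L F M]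

omit [IsGalois K M] in
/-- the kernel of the restriction to a finite extension is open -/
theorem isOpen_ker_restrict (F : Type) [Field F] [Algebra K F] [Algebra F M]
    [IsScalarTower K F M] [FiniteDimensional K F] [Normal K F] :
    IsOpen ((AlgEquiv.restrictNormalHom (K₁ := M) F : (M ≃ₐ[K] M) →* (F ≃ₐ[K] F)).ker :
      Set (M ≃ₐ[K] M)) := by
  let j : F →ₐ[K] M := IsScalarTower.toAlgHom K F M
  have hfd : FiniteDimensional K j.fieldRange := by
    have h := LinearMap.finiteDimensional_range j.toLinearMap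
    exact h
  refine Subgroup.isOpen_mono ?_ (IntermediateField.fixingSubgroup_isOpen j.fieldRange)
  intro σ hσ
  rw [MonoidHom.mem_ker]
  apply AlgEquiv.ext
  intro x
  apply (algebraMap F M).injective
  change algebraMap F M (σ.restrictNormal F x) = algebraMap F M x
  rw [AlgEquiv.restrictNormal_commutes]
  exact (IntermediateField.mem_fixingSubgroup_iff _ _).1 hσ (j x) ⟨x, rfl⟩

theorem emb_gal (hiso : ∀ (G H : Type) [Group G] [Group H], (G ≃* H) → C G → C H)
    (hmax : ∀ (L : Type) [Field L] [Algebra K L], FiniteDimensional K L → IsGalois K L →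
      C (L ≃ₐ[K] L) → Nonempty (L →ₐ[K] M))
    (hsol : ∀ (L E : Type) [Field L] [Algebra K L] [FiniteDimensional K L] [IsGalois K L]
      [Group E] (α : E →* (L ≃ₐ[K] L)), C E → Surjective α → Sol K L E α)
    (E A : Type) [Group E] [Group A] (α : E →* A) (β : (M ≃ₐ[K] M) →* A) (hE : C E)
    (hα : Surjective α) (hβ : Surjective β) (hβo : IsOpen (β.ker : Set (M ≃ₐ[K] M))) :
    ∃ γ : (M ≃ₐ[K] M) →* E, Surjective γ ∧ IsOpen (γ.ker : Set (M ≃ₐ[K] M)) ∧
      ∀ g, α (γ g) = β g := by
  have hcl : IsClosed (β.ker : Set (M ≃ₐ[K] M)) := Subgroup.isClosed_of_isOpen _ hβo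
  let U : ClosedSubgroup (M ≃ₐ[K] M) := ⟨β.ker, hcl⟩
  let L : IntermediateField K M := IntermediateField.fixedField β.ker
  have hL : L.fixingSubgroup = β.ker := InfiniteGalois.fixingSubgroup_fixedField U
  have hLf : FiniteDimensional K L ∧ IsGalois K L := by
    rw [← InfiniteGalois.isOpen_and_normal_iff_finite_and_isGalois, hL]
    exact ⟨hβo, inferInstance⟩
  obtain ⟨hL1, hL2⟩ := hLf
  let r : (M ≃ₐ[K] M) →* (L ≃ₐ[K] L) := AlgEquiv.restrictNormalHom L
  have hr : Surjective r := AlgEquiv.restrictNormalHom_surjective M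
  have hrk : r.ker = β.ker := by
    rw [← hL]
    exact IntermediateField.restrictNormalHom_ker L
  obtain ⟨e, he⟩ := exists_fac β hβ r (fun x hx => by
    have h1 : x ∈ r.ker := by rw [hrk]; exact hx
    exact h1)
  have hei : Injective e := by
    rw [injective_iff_map_eq_one]
    intro a ha
    obtain ⟨σ, rfl⟩ := hβ a
    rw [he] at ha
    have h1 : σ ∈ β.ker := by rw [← hrk]; exact ha
    exact h1
  have hes : Surjective e := by
    intro τ
    obtain ⟨σ, rfl⟩ := hr τ
    exact ⟨β σ, he σ⟩
  obtain ⟨F, i1, i2, i3, i4, h1, h2, γ, hγ⟩ := hsol L E (e.comp α) hE (hes.comp hα)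
  obtain ⟨j⟩ := hmax F h1 h2 (hiso _ _ γ.symm hE)
  obtain ⟨j'⟩ := exists_emb L F j
  letI : Algebra F M := j'.toRingHom.toAlgebra
  haveI t1 : IsScalarTower L F M := IsScalarTower.of_algebraMap_eq fun x => (j'.commutes x).symm
  haveI t2 : IsScalarTower K F M := by
    refine IsScalarTower.of_algebraMap_eq fun x => ?_
    rw [IsScalarTower.algebraMap_apply K L M, IsScalarTower.algebraMap_apply K L F,
      ← IsScalarTower.algebraMap_apply L F M]
  refine ⟨γ.toMonoidHom.comp (AlgEquiv.restrictNormalHom F), ?_, ?_, ?_⟩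
  · exact γ.surjective.comp (AlgEquiv.restrictNormalHom_surjective M)
  · have h3 : (γ.toMonoidHom.comp (AlgEquiv.restrictNormalHom (K₁ := M) F)).ker =
        (AlgEquiv.restrictNormalHom (K₁ := M) F : (M ≃ₐ[K] M) →* (F ≃ₐ[K] F)).ker := by
      ext σ
      rw [MonoidHom.mem_ker, MonoidHom.mem_ker]
      exact map_eq_one_iff γ γ.injective
    rw [h3]
    exact isOpen_ker_restrict F
  · intro σ
    apply hei
    rw [he]
    have h3 := hγ (σ.restrictNormal F)
    rw [restrict_restrict] at h3
    exact h3

end emb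

end Pool.Agent.H87.Fpc
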