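import Pool.Agent.H87.Fpc.Bf

/-!
# The free group of countable rank as a group with solvable embedding problems
-/

set_option autoImplicit false

namespace Pool.Agent.H87.Fpc

open Function

/-- closure properties of a class of finite groups -/
structure Good (C : ∀ (G : Type) [Group G], Prop) : Prop where
  fin : ∀ (G : Type) [Group G], C G → Finite G
  one : ∀ (G : Type) [Group G] [Subsingleton G], C G
  quo : ∀ (G H : Type) [Group G] [Group H] (f : G →* H), C G → Surjective f → C H
  sub : ∀ (G H : Type) [Group G] [Group H] (f : G →* H), Injective f → f.range.Normal → C H → C G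
  ext : ∀ (G H : Type) [Group G] [Group H] (f : G →* H), Surjective f → C f.ker → C H → C G

variable {C : ∀ (G : Type) [Group G], Prop}

/-- subdirect products -/
theorem Good.subdirect (hC : Good C) {F A B : Type} [Group F] [Group A] [Group B] (f : F →* A)
    (g : F →* B) (hf : Surjective f) (hg : Surjective g) (hA : C A) (hB : C B) :
    C (f.prod g).range := by
  let π : (f.prod g).range →* B := (MonoidHom.snd A B).comp (f.prod g).range.subtype
  have hπ : Surjective π := by
    intro b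
    obtain ⟨x, rfl⟩ := hg b
    exact ⟨⟨(f x, g x), ⟨x, rfl⟩⟩, rfl⟩
  refine hC.ext _ _ π hπ ?_ hB
  let τ : π.ker →* A := ((MonoidHom.fst A B).comp (f.prod g).range.subtype).comp π.ker.subtype
  refine hC.sub _ _ τ ?_ ?_ hA
  · intro x y hxy
    apply Subtype.ext
    apply Subtype.ext
    apply Prod.ext
    · exact hxy
    · have hx : (x.1.1 : A × B).2 = 1 := x.2
      have hy : (y.1.1 : A × B).2 = 1 := y.2
      rw [hx, hy]
  · constructor
    rintro a ⟨x, hx⟩ a'
    obtain ⟨u, rfl⟩ := hf a'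
    obtain ⟨⟨⟨c, d⟩, v, hv⟩, hk⟩ := x
    have hv1 : f v = c := congrArg Prod.fst hv
    have hv2 : g v = d := congrArg Prod.snd hv
    have hd : d = 1 := hk
    have hc : c = a := hx
    refine ⟨⟨⟨(f (u * v * u⁻¹), g (u * v * u⁻¹)), ⟨u * v * u⁻¹, rfl⟩⟩, ?_⟩, ?_⟩
    · rw [MonoidHom.mem_ker]
      change g (u * v * u⁻¹) = 1
      rw [map_mul, map_mul, hv2, hd, mul_one, map_inv, mul_inv_cancel]
    · change f (u * v * u⁻¹) = f u * a * (f u)⁻¹
      rw [map_mul, map_mul, hv1, hc, map_inv]

/-- The normal subgroups `N` of the free group for which the quotient belongs to `C` and almost all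
generators belong to `N`. -/
def OF (C : ∀ (G : Type) [Group G], Prop) : Set (Subgroup (FreeGroup ℕ)) :=
  {N | ∃ (A : Type) (_ : Group A) (q : FreeGroup ℕ →* A), C A ∧ Surjective q ∧
    (∀ x, q x = 1 ↔ x ∈ N) ∧ {i | q (FreeGroup.of i) ≠ 1}.Finite}

theorem lift_surj {E A : Type} [Group E] [Group A] [Finite E] (α : E →* A)
    (β : FreeGroup ℕ →* A) (hα : Surjective α) (hβ : Surjective β)
    (hfin : {i | β (FreeGroup.of i) ≠ 1}.Finite) :
    ∃ γ : FreeGroup ℕ →* E, Surjective γ ∧ {i | γ (FreeGroup.of i) ≠ 1}.Finite ∧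
      ∀ g, α (γ g) = β g := by
  classical
  obtain ⟨n, hn⟩ := hfin.bddAbove
  have hn' : ∀ i, n < i → β (FreeGroup.of i) = 1 := by
    intro i hi
    by_contra hcon
    exact absurd (hn hcon) (by omega)
  obtain ⟨m, ⟨e⟩⟩ := Finite.exists_equiv_fin α.ker
  choose s hs using hα
  let y : ℕ → E := fun i => if i ≤ n then s (β (FreeGroup.of i)) else
    if h : i - (n + 1) < m then (e.symm ⟨i - (n + 1), h⟩ : α.ker) else 1
  have hy1 : ∀ i, i ≤ n → y i = s (β (FreeGroup.of i)) := fun i hi => if_pos hi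
  have hy2 : ∀ (i : ℕ) (hi : i < m), y (i + (n + 1)) = (e.symm ⟨i, hi⟩ : α.ker) := by
    intro i hi
    have h1 : ¬ i + (n + 1) ≤ n := by omega
    have h2 : i + (n + 1) - (n + 1) = i := by omega
    have h3 : y (i + (n + 1)) = if h : i + (n + 1) - (n + 1) < m then
      ((e.symm ⟨i + (n + 1) - (n + 1), h⟩ : α.ker) : E) else 1 := if_neg h1
    rw [h3, dif_pos (by omega)]
    have h4 : (⟨i + (n + 1) - (n + 1), by omega⟩ : Fin m) = ⟨i, hi⟩ := Fin.ext h2
    rw [h4]
  have hαy : ∀ i, α (y i) = β (FreeGroup.of i) := by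
    intro i
    by_cases h : i ≤ n
    · rw [hy1 i h, hs]
    · have h3 : y i = if h : i - (n + 1) < m then
        ((e.symm ⟨i - (n + 1), h⟩ : α.ker) : E) else 1 := if_neg h
      rw [h3, hn' i (by omega)]
      split_ifs with h4
      · exact (e.symm ⟨i - (n + 1), h4⟩).2
      · exact map_one α
  have hcomp : ∀ g, α (FreeGroup.lift y g) = β g := by
    intro g
    have h1 : α.comp (FreeGroup.lift y) = β := by
      apply FreeGroup.ext_hom
      intro i
      rw [MonoidHom.comp_apply, FreeGroup.lift_apply_of]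
      exact hαy i
    rw [← h1]
    rfl
  refine ⟨FreeGroup.lift y, ?_, ?_, hcomp⟩
  · have hker : ∀ k : E, α k = 1 → k ∈ (FreeGroup.lift y).range := by
      intro k hk
      refine ⟨FreeGroup.of ((e ⟨k, hk⟩ : Fin m) + (n + 1)), ?_⟩
      rw [FreeGroup.lift_apply_of, hy2 _ (e ⟨k, hk⟩).2]
      change ((e.symm (e ⟨k, hk⟩) : α.ker) : E) = k
      rw [e.symm_apply_apply]
    intro x
    obtain ⟨g, hg⟩ := hβ (α x)
    have h1 : α ((FreeGroup.lift y g)⁻¹ * x) = 1 := by
      rw [map_mul, map_inv, hcomp, hg, inv_mul_cancel]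
    obtain ⟨k, hk⟩ := hker _ h1
    exact ⟨g * k, by rw [map_mul, hk, mul_inv_cancel_left]⟩
  · refine (Set.finite_lt_nat (n + 1 + m)).subset ?_
    intro i hi
    by_contra hcon
    apply hi
    have h0 : ¬ i < n + 1 + m := hcon
    rw [FreeGroup.lift_apply_of]
    have h3 : y i = if h : i - (n + 1) < m then
      ((e.symm ⟨i - (n + 1), h⟩ : α.ker) : E) else 1 := if_neg (by omega)
    rw [h3, dif_neg (by omega)]

/-- the coding of the subgroups in `OF C` -/
def code (c : Σ (n : ℕ) (m : ℕ), (Fin n → Equiv.Perm (Fin m))) : Subgroup (FreeGroup ℕ) :=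
  (FreeGroup.lift (fun i => if h : i < c.1 then c.2.2 ⟨i, h⟩ else 1)).ker

theorem countable_OF (hC : Good C) : (OF C).Countable := by
  classical
  refine Set.Countable.mono ?_ (Set.countable_range code)
  rintro N ⟨A, iA, q, hA, hq, hqN, hfin⟩
  haveI := hC.fin A hA
  obtain ⟨n, hn⟩ := hfin.bddAbove
  have hn' : ∀ i, n < i → q (FreeGroup.of i) = 1 := by
    intro i hi
    by_contra hcon
    exact absurd (hn hcon) (by omega)
  obtain ⟨m, ⟨e⟩⟩ := Finite.exists_equiv_fin A
  let ρ : A →* Equiv.Perm (Fin m) := e.permCongrHom.toMonoidHom.comp (MulAction.toPermHom A A)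
  have hρ : Injective ρ := by
    have h1 : Injective (MulAction.toPermHom A A) := MulAction.toPerm_injective
    exact e.permCongrHom.injective.comp h1
  refine ⟨⟨n + 1, m, fun i => ρ (q (FreeGroup.of (i : ℕ)))⟩, ?_⟩
  have h1 : FreeGroup.lift (fun i => if h : i < n + 1 then
      (fun j : Fin (n + 1) => ρ (q (FreeGroup.of (j : ℕ)))) ⟨i, h⟩ else 1) = ρ.comp q := by
    apply FreeGroup.ext_hom
    intro i
    rw [FreeGroup.lift_apply_of, MonoidHom.comp_apply]
    split_ifs with h
    · rfl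
    · rw [hn' i (by omega), map_one]
  ext x
  change x ∈ (FreeGroup.lift (fun i => if h : i < n + 1 then
      (fun j : Fin (n + 1) => ρ (q (FreeGroup.of (j : ℕ)))) ⟨i, h⟩ else 1)).ker ↔ x ∈ N
  rw [h1, MonoidHom.mem_ker, MonoidHom.comp_apply, ← hqN, map_eq_one_iff ρ hρ]

theorem top_mem_OF (hC : Good C) : (⊤ : Subgroup (FreeGroup ℕ)) ∈ OF C := by
  refine ⟨Unit, inferInstance, 1, hC.one Unit, fun a => ⟨1, rfl⟩,
    fun x => ⟨fun _ => trivial, fun _ => rfl⟩, ?_⟩
  have h1 : {i : ℕ | (1 : FreeGroup ℕ →* Unit) (FreeGroup.of i) ≠ 1} = ∅ := by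
    ext i
    constructor
    · intro h
      exact h rfl
    · intro h
      exact absurd h (Set.notMem_empty i)
  rw [h1]
  exact Set.finite_empty

/-- **The free group.** -/
theorem pc_free (hC : Good C) : Pc C (OF C) where
  quo := by
    rintro U ⟨A, iA, q, hA, hq, hqN, hfin⟩
    exact ⟨A, iA, q, hA, hq, hqN⟩
  top := top_mem_OF hC
  inf := by
    rintro U ⟨A, iA, f, hA, hf, hfN, hfin⟩ V ⟨B, iB, g, hB, hg, hgN, hgin⟩
    refine ⟨(f.prod g).range, inferInstance, (f.prod g).rangeRestrict,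
      hC.subdirect f g hf hg hA hB, (f.prod g).rangeRestrict_surjective, ?_, ?_⟩
    · intro x
      constructor
      · intro h
        have h1 : (f x, g x) = (1 : A × B) := congrArg Subtype.val h
        exact ⟨(hfN x).1 (congrArg Prod.fst h1), (hgN x).1 (congrArg Prod.snd h1)⟩
      · rintro ⟨h1, h2⟩
        apply Subtype.ext
        change (f x, g x) = (1 : A × B)
        rw [(hfN x).2 h1, (hgN x).2 h2]
        rfl
    · refine (hfin.union hgin).subset ?_
      intro i hi
      by_contra hcon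
      apply hi
      apply Subtype.ext
      change (f (FreeGroup.of i), g (FreeGroup.of i)) = (1 : A × B)
      have h1 : f (FreeGroup.of i) = 1 := by
        by_contra h
        exact hcon (Or.inl h)
      have h2 : g (FreeGroup.of i) = 1 := by
        by_contra h
        exact hcon (Or.inr h)
      rw [h1, h2]
      rfl
  emb := by
    intro E A _ _ α β hE hα hβ hβO
    haveI := hC.fin E hE
    obtain ⟨B, iB, q, hB, hq, hqN, hfin⟩ := hβO
    have hfin' : {i | β (FreeGroup.of i) ≠ 1}.Finite := by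
      refine hfin.subset ?_
      intro i hi hcon
      apply hi
      exact (hqN _).1 hcon
    obtain ⟨γ, h1, h2, h3⟩ := lift_surj α β hα hβ hfin'
    exact ⟨γ, h1, ⟨E, inferInstance, γ, hE, h1, fun x => Iff.rfl, h2⟩, h3⟩
  cnt := by
    obtain ⟨u, hu⟩ := (countable_OF hC).exists_eq_range ⟨⊤, top_mem_OF hC⟩
    refine ⟨u, fun n => ?_, ?_⟩
    · rw [hu]
      exact ⟨n, rfl⟩
    · intro U hU
      rw [hu] at hU
      obtain ⟨n, hn⟩ := hU
      exact ⟨n, hn.le⟩

end Pool.Agent.H87.Fpc
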