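import Pool.Agent.H87.Fpc.Free
import Pool.Agent.H87.Fpc.Defs

/-!
# Profinite groups with solvable embedding problems are free
-/

set_option autoImplicit false

namespace Pool.Agent.H87.Fpc

open Function

theorem sep_of_profinite (G : Type) [Group G] [TopologicalSpace G] [IsTopologicalGroup G]
    [CompactSpace G] [T2Space G] [TotallyDisconnectedSpace G] (b : G)
    (h : ∀ U ∈ ON G, b ∈ U) : b = 1 := by
  by_contra hb
  obtain ⟨H, hH⟩ := ProfiniteGrp.exist_openNormalSubgroup_sub_open_nhds_of_one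
    (G := G) (U := {b}ᶜ) isOpen_compl_singleton (fun h1 => hb h1.symm)
  have h1 : b ∈ H.toSubgroup := h H.toSubgroup ⟨H.isNormal', H.isOpen'⟩
  exact hH h1 rfl

section iso

variable {C : ∀ (G : Type) [Group G], Prop} {F G : Type} [Group F] [Group G]
  [TopologicalSpace G] [IsTopologicalGroup G] [CompactSpace G] [T2Space G]
  [TotallyDisconnectedSpace G]

omit [T2Space G] in
theorem nhds_ON {W : Set G} (hW : W ∈ nhds (1 : G)) : ∃ U ∈ ON G, (U : Set G) ⊆ W := by
  obtain ⟨V, hV, hVo, hV1⟩ := mem_nhds_iff.1 hW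
  obtain ⟨H, hH⟩ := ProfiniteGrp.exist_openNormalSubgroup_sub_open_nhds_of_one hVo hV1
  exact ⟨H.toSubgroup, ⟨H.isNormal', H.isOpen'⟩, fun x hx => hV (hH hx)⟩

/-- two profinite groups with solvable embedding problems are isomorphic -/
theorem exists_iso [TopologicalSpace F] [IsTopologicalGroup F] [CompactSpace F] [T2Space F]
    [TotallyDisconnectedSpace F] (hF : Pc C (ON F)) (hG : Pc C (ON G)) :
    Nonempty (F ≃ₜ* G) := by
  obtain ⟨R, hanti, hR, hU, hV⟩ := exists_seq hF hG
  obtain ⟨θ, hθ⟩ := exists_hom (sep_of_profinite G) R hanti hR hV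
  let R' : ℕ → Subgroup (G × F) :=
    fun n => (R n).comap (MulEquiv.prodComm : G × F ≃* F × G).toMonoidHom
  have hR' : ∀ n a b, (a, b) ∈ R' n ↔ (b, a) ∈ R n := fun n a b => Iff.rfl
  have hanti' : Antitone R' := fun m n hmn x hx => hanti hmn hx
  obtain ⟨η, hη⟩ := exists_hom (sep_of_profinite F) R' hanti' (fun n => (hR n).swap)
    (fun U hU' => hU U hU')
  have hdiv : ∀ (n : ℕ) (a a' : F) (b b' : G), (a, b) ∈ R n → (a', b') ∈ R n →
      (a⁻¹ * a', b⁻¹ * b') ∈ R n := by
    intro n a a' b b' h h'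
    exact (R n).mul_mem ((R n).inv_mem h) h'
  have huniq : ∀ (a : F) (b b' : G), (∀ n, (a, b) ∈ R n) → (∀ n, (a, b') ∈ R n) → b = b' := by
    intro a b b' h h'
    have h2 : b⁻¹ * b' = 1 := by
      apply sep_of_profinite G
      intro U hU'
      obtain ⟨n, hn⟩ := hV U hU'
      apply hn
      have h3 := hdiv n a a b b' (h n) (h' n)
      rwa [inv_mul_cancel] at h3
    exact inv_mul_eq_one.1 h2
  have huniq' : ∀ (a a' : F) (b : G), (∀ n, (a, b) ∈ R n) → (∀ n, (a', b) ∈ R n) → a = a' := by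
    intro a a' b h h'
    have h2 : a⁻¹ * a' = 1 := by
      apply sep_of_profinite F
      intro U hU'
      obtain ⟨n, hn⟩ := hU U hU'
      apply hn
      have h3 := hdiv n a a' b b (h n) (h' n)
      rwa [inv_mul_cancel] at h3
    exact inv_mul_eq_one.1 h2
  have hc : Continuous θ := by
    apply continuous_of_continuousAt_one θ
    intro W hW
    rw [map_one] at hW
    obtain ⟨V, hVO, hVW⟩ := nhds_ON hW
    obtain ⟨n, hn⟩ := hV V hVO
    obtain ⟨A, iA, f, g, hf, hg, hfO, hgO, hm⟩ := hR n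
    have h1 : (f.ker : Set F) ∈ nhds (1 : F) := hfO.2.mem_nhds (one_mem f.ker)
    rw [Filter.mem_map]
    refine Filter.mem_of_superset h1 ?_
    intro a ha
    apply hVW
    apply hn
    have h3 : f a = 1 := ha
    rw [hm, map_one, ← (hm a (θ a)).1 (hθ a n), h3]
  have hc' : Continuous η := by
    apply continuous_of_continuousAt_one η
    intro W hW
    rw [map_one] at hW
    obtain ⟨V, hVO, hVW⟩ := nhds_ON hW
    obtain ⟨n, hn⟩ := hU V hVO
    obtain ⟨A, iA, f, g, hf, hg, hfO, hgO, hm⟩ := hR n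
    have h1 : (g.ker : Set G) ∈ nhds (1 : G) := hgO.2.mem_nhds (one_mem g.ker)
    rw [Filter.mem_map]
    refine Filter.mem_of_superset h1 ?_
    intro b hb
    apply hVW
    apply hn
    have h3 : g b = 1 := hb
    have h4 : (η b, b) ∈ R n := hη b n
    rw [hm, map_one, (hm _ _).1 h4, h3]
  exact ⟨{ toFun := θ
           invFun := η
           left_inv := fun a => huniq' _ _ (θ a) (fun n => hη (θ a) n) (fun n => hθ a n)
           right_inv := fun b => huniq (η b) _ _ (fun n => hθ (η b) n) (fun n => hη b n)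
           map_mul' := θ.map_mul
           continuous_toFun := hc
           continuous_invFun := hc' }⟩

/-- **Iwasawa's criterion.** -/
theorem free_of_pc (hC : Good C) (hG : Pc C (ON G)) : IsFreeProC C G := by
  refine ⟨⟨inferInstance, inferInstance, inferInstance, inferInstance, ?_⟩, ?_⟩
  · intro U hU hUo
    obtain ⟨A, iA, q, hA, hq, hqU⟩ := hG.quo U ⟨hU, hUo⟩
    obtain ⟨α, hα⟩ := exists_fac q hq (QuotientGroup.mk' U) (fun x hx => by
      rw [QuotientGroup.mk'_apply, QuotientGroup.eq_one_iff]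
      exact (hqU x).1 hx)
    refine hC.quo A (G ⧸ U) α hA ?_
    intro y
    obtain ⟨x, rfl⟩ := QuotientGroup.mk'_surjective U y
    exact ⟨q x, hα x⟩
  · obtain ⟨R, hanti, hR, hU, hV⟩ := exists_seq (pc_free hC) hG
    obtain ⟨θ, hθ⟩ := exists_hom (sep_of_profinite G) R hanti hR hV
    refine ⟨fun i => θ (FreeGroup.of i), ?_, ?_⟩
    · -- convergence
      intro W hW
      obtain ⟨V, hVO, hVW⟩ := nhds_ON hW
      obtain ⟨n, hn⟩ := hV V hVO
      obtain ⟨A, iA, f, g, hf, hg, hfO, hgO, hm⟩ := hR n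
      obtain ⟨B, iB, q, hB, hq, hqN, hfin⟩ := hfO
      obtain ⟨m, hm'⟩ := hfin.bddAbove
      rw [Filter.mem_map, Filter.mem_atTop_sets]
      refine ⟨m + 1, fun i hi => ?_⟩
      apply hVW
      apply hn
      have h1 : q (FreeGroup.of i) = 1 := by
        by_contra hcon
        have h2 : i ≤ m := hm' hcon
        omega
      have h2 : f (FreeGroup.of i) = 1 := (hqN _).1 h1
      rw [hm, map_one, ← (hm _ _).1 (hθ (FreeGroup.of i) n), h2]
    · intro H _ hH y hy hgen
      have hlift : Surjective (FreeGroup.lift y) := by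
        rw [← MonoidHom.range_eq_top, FreeGroup.range_lift_eq_closure]
        exact hgen
      have hker : (FreeGroup.lift y).ker ∈ OF C := by
        refine ⟨H, inferInstance, FreeGroup.lift y, hH, hlift, fun x => Iff.rfl, ?_⟩
        refine hy.subset ?_
        intro i hi
        rw [Set.mem_ofPred_eq, FreeGroup.lift_apply_of] at hi
        exact hi
      obtain ⟨n, hn⟩ := hU _ hker
      obtain ⟨A, iA, f, g, hf, hg, hfO, hgO, hm⟩ := hR n
      obtain ⟨ψ, hψ⟩ := exists_fac f hf (FreeGroup.lift y) (fun x hx => by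
        have h1 : (x, (1 : G)) ∈ R n := by rw [hm, hx, map_one]
        exact hn x h1)
      refine ⟨ψ.comp g, ⟨?_, ?_⟩, ?_⟩
      · have h1 : g.ker ≤ (ψ.comp g).ker := by
          intro x hx
          rw [MonoidHom.mem_ker] at hx
          rw [MonoidHom.mem_ker, MonoidHom.comp_apply, hx, map_one]
        exact Subgroup.isOpen_mono h1 hgO.2
      · intro i
        rw [MonoidHom.comp_apply, ← (hm _ _).1 (hθ (FreeGroup.of i) n), hψ,
          FreeGroup.lift_apply_of]
      · rintro φ ⟨hφo, hφ⟩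
        obtain ⟨V, hVO, hVW⟩ := nhds_ON (hφo.mem_nhds (one_mem φ.ker))
        obtain ⟨k, hk⟩ := hV V hVO
        obtain ⟨A', iA', f', g', hf', hg', hfO', hgO', hm2⟩ := hR k
        have hcomp : ∀ w : FreeGroup ℕ, φ (θ w) = FreeGroup.lift y w := by
          intro w
          have h1 : φ.comp θ = FreeGroup.lift y := by
            apply FreeGroup.ext_hom
            intro i
            rw [MonoidHom.comp_apply, FreeGroup.lift_apply_of]
            exact hφ i
          rw [← h1]
          rfl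
        have hcomp2 : ∀ w : FreeGroup ℕ, ψ (g (θ w)) = FreeGroup.lift y w := by
          intro w
          rw [← (hm _ _).1 (hθ w n), hψ]
        -- both agree on an element of every coset
        ext b
        obtain ⟨l, hl1, hl2⟩ : ∃ l, n ≤ l ∧ k ≤ l := ⟨max n k, le_max_left _ _, le_max_right _ _⟩
        obtain ⟨A2, iA2, f2, g2, hf2, hg2, hfO2, hgO2, hm3⟩ := hR l
        obtain ⟨w, hw⟩ := hf2 (g2 b)
        have h1 : ((1 : FreeGroup ℕ), (θ w)⁻¹ * b) ∈ R l := by
          rw [hm3, map_one, map_mul, map_inv, ← (hm3 _ _).1 (hθ w l), hw, inv_mul_cancel]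
        have h2 : φ ((θ w)⁻¹ * b) = 1 := hVW (hk _ (hanti hl2 h1))
        have h3 : g ((θ w)⁻¹ * b) = 1 := by
          have h4 := (hm _ _).1 (hanti hl1 h1)
          rw [← h4, map_one]
        have h5 : b = θ w * ((θ w)⁻¹ * b) := (mul_inv_cancel_left _ _).symm
        rw [h5, map_mul, h2, mul_one, MonoidHom.comp_apply, map_mul, h3, mul_one, hcomp,
          hcomp2]

end iso

end Pool.Agent.H87.Fpc
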