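import Pool.Agent.H87.Fpc.RelMain

/-!
# Generators and relations of Galois groups over free profinite groups
-/

set_option autoImplicit false

namespace Pool.Agent.H87.Fpc

open Function

/-- The profinite group `P` is free with the basis `τ 0, ..., τ (e - 1)`. -/
def IsFreeProfinite {P : Type} [Group P] [TopologicalSpace P] {e : ℕ} (τ : Fin e → P) : Prop :=
  Dense ((Subgroup.closure (Set.range τ) : Subgroup P) : Set P) ∧
  ∀ (H : Type) [Group H] [Finite H] (h : Fin e → H),
    ∃ φ : P →* H, IsOpen (φ.ker : Set P) ∧ ∀ j, φ (τ j) = h j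

/-- The topological group `G` has the generators `t 0, ..., t (e - 1)` and `x 0, x 1, x 2, ...`
(a sequence which converges to `1`), with the only relation that the closed normal subgroup generated
by the `x i` is a pro-`C` group: the `t j` and the `x i` generate a dense subgroup, the finite
quotients of `G` satisfy the relation, and for every finite group `H` and all `h j`, `y i` in `H`
which generate `H`, almost all `y i` equal to `1` and such that the normal subgroup generated by the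
`y i` belongs to `C`, there is exactly one homomorphism `φ : G → H` with an open kernel,
`φ (t j) = h j` and `φ (x i) = y i`. -/
def IsPresented (C : ∀ (G : Type) [Group G], Prop) {G : Type} [Group G] [TopologicalSpace G]
    {e : ℕ} (t : Fin e → G) (x : ℕ → G) : Prop :=
  Filter.Tendsto x Filter.atTop (nhds 1) ∧
  Dense ((Subgroup.closure (Set.range t ∪ Set.range x) : Subgroup G) : Set G) ∧
  (∀ (U : Subgroup G) [U.Normal], IsOpen (U : Set G) →
    C ((Subgroup.normalClosure (Set.range x)).map (QuotientGroup.mk' U))) ∧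
  ∀ (H : Type) [Group H] [Finite H] (h : Fin e → H) (y : ℕ → H), {i | y i ≠ 1}.Finite →
    Subgroup.closure (Set.range h ∪ Set.range y) = ⊤ →
    C (Subgroup.normalClosure (Set.range y)) →
      ∃! φ : G →* H, IsOpen (φ.ker : Set G) ∧ (∀ j, φ (t j) = h j) ∧ ∀ i, φ (x i) = y i

/-- the free group -/
abbrev FE (e : ℕ) : Type := FreeGroup (Fin e ⊕ ℕ)

/-- its generators of the first kind -/
def Tg {e : ℕ} (j : Fin e) : FE e := FreeGroup.of (Sum.inl j)

/-- its generators of the second kind -/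
def Xg (e : ℕ) (i : ℕ) : FE e := FreeGroup.of (Sum.inr i)

/-- the normal subgroup generated by the generators of the second kind -/
def NF (e : ℕ) : Subgroup (FE e) := Subgroup.normalClosure (Set.range (Xg e))

instance (e : ℕ) : (NF e).Normal := Subgroup.normalClosure_normal

theorem Xg_mem (e i : ℕ) : Xg e i ∈ NF e := Subgroup.subset_normalClosure ⟨i, rfl⟩

section dense

variable {G P : Type} [Group G] [Group P] [TopologicalSpace G] [TopologicalSpace P]
  [IsTopologicalGroup G] [CompactSpace G] [IsTopologicalGroup P] [T2Space P] {e : ℕ}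

/-- open subgroups which contain the kernel and lifts of the generators -/
theorem top_of_dense {π : G →* P} (hs : Surjective π) (hc : Continuous π) {τ : Fin e → P}
    (hd : Dense ((Subgroup.closure (Set.range τ) : Subgroup P) : Set P)) {U : Subgroup G}
    (hU : IsOpen (U : Set G)) (hk : π.ker ≤ U) (hτ : ∀ j, ∃ b ∈ U, π b = τ j) : U = ⊤ := by
  have h1 : IsOpen ((U.map π : Subgroup P) : Set P) := isOpen_map_of hs hc hU
  have h2 : Subgroup.closure (Set.range τ) ≤ U.map π := by
    rw [Subgroup.closure_le]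
    rintro _ ⟨j, rfl⟩
    obtain ⟨b, hb, hbj⟩ := hτ j
    exact ⟨b, hb, hbj⟩
  have h3 : IsClosed ((U.map π : Subgroup P) : Set P) := Subgroup.isClosed_of_isOpen _ h1
  have h4 : ((U.map π : Subgroup P) : Set P) = Set.univ := by
    have h5 := (hd.mono h2).closure_eq
    rwa [h3.closure_eq] at h5
  rw [eq_top_iff]
  intro b _
  have h5 : π b ∈ U.map π := by
    have h6 : π b ∈ ((U.map π : Subgroup P) : Set P) := by
      rw [h4]
      trivial
    exact h6
  obtain ⟨u, hu, hub⟩ := h5
  have h6 : b * u⁻¹ ∈ U := by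
    apply hk
    rw [MonoidHom.mem_ker, map_mul, map_inv, hub, mul_inv_cancel]
  have h7 := U.mul_mem h6 hu
  rwa [inv_mul_cancel_right] at h7

end dense

/-- the states of the construction -/
structure StP {G P : Type} [Group G] [Group P] [TopologicalSpace G] {e : ℕ} (π : G →* P)
    (τ : Fin e → P) {A : Type} [Group A] (f : FE e →* A) (g : G →* A) : Prop where
  fs : Surjective f
  gs : Surjective g
  go : IsOpen (g.ker : Set G)
  fin : {i | f (Xg e i) ≠ 1}.Finite
  eq : (NF e).map f = π.ker.map g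
  cmp : ∀ (j : Fin e) (b : G), π b = τ j → (f (Tg j))⁻¹ * g b ∈ π.ker.map g

/-- fibre products -/
def FibP {G P : Type} [Group G] [Group P] [TopologicalSpace G] {e : ℕ} (π : G →* P)
    (τ : Fin e → P) (R : Subgroup (FE e × G)) : Prop :=
  ∃ (A : Type) (_ : Group A) (f : FE e →* A) (g : G →* A), StP π τ f g ∧
    ∀ a b, (a, b) ∈ R ↔ f a = g b

/-- the normal subgroups of the free group -/
def OP (C : ∀ (G : Type) [Group G], Prop) (e : ℕ) : Set (Subgroup (FE e)) :=
  {N | ∃ (A : Type) (_ : Group A) (_ : Finite A) (q : FE e →* A), Surjective q ∧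
    (∀ x, q x = 1 ↔ x ∈ N) ∧ {i | q (Xg e i) ≠ 1}.Finite ∧ C ((NF e).map q)}

section steps

variable {C : ∀ (G : Type) [Group G], Prop} {G P : Type} [Group G] [Group P]
  [TopologicalSpace G] [TopologicalSpace P] [IsTopologicalGroup G] [CompactSpace G]
  [IsTopologicalGroup P] [T2Space P] {e : ℕ} {π : G →* P} {τ : Fin e → P}

theorem forthP (hG : PcR C π)
    (hd : Dense ((Subgroup.closure (Set.range τ) : Subgroup P) : Set P))
    {R : Subgroup (FE e × G)} (hR : FibP π τ R) {U : Subgroup G} (hU : U ∈ ON G) :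
    ∃ R' ≤ R, FibP π τ R' ∧ ∀ b, ((1 : FE e), b) ∈ R' → b ∈ U := by
  classical
  obtain ⟨A, iA, f, g, hS, hm⟩ := hR
  obtain ⟨hUn, hUo⟩ := hU
  let V : Subgroup G := U ⊓ g.ker
  have hVo : IsOpen (V : Set G) := hUo.inter hS.go
  haveI : Finite (G ⧸ V) := Subgroup.quotient_finite_of_isOpen V hVo
  let q : G →* G ⧸ V := QuotientGroup.mk' V
  have hq : Surjective q := QuotientGroup.mk'_surjective V
  have hqk : ∀ x, q x = 1 ↔ x ∈ V := fun x => by
    rw [QuotientGroup.mk'_apply, QuotientGroup.eq_one_iff]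
  have hqo : IsOpen (q.ker : Set G) := by
    have h1 : q.ker = V := by
      ext x
      rw [MonoidHom.mem_ker]
      exact hqk x
    rw [h1]
    exact hVo
  obtain ⟨α, hα⟩ := exists_fac q hq g (fun x hx => ((hqk x).1 hx).2)
  -- lifts of the generators
  have hb : ∀ j : Fin e, ∃ b : G, π b = τ j ∧ g b = f (Tg j) := by
    intro j
    obtain ⟨b, hb⟩ := hG.sur (τ j)
    obtain ⟨n, hn, hgn⟩ := hS.cmp j b hb
    refine ⟨b * n⁻¹, ?_, ?_⟩
    · have h1 : π n = 1 := hn
      rw [map_mul, map_inv, h1, inv_one, mul_one, hb]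
    · rw [map_mul, map_inv, hgn, mul_inv_rev, inv_inv, mul_inv_cancel_left]
  choose b hbπ hbg using hb
  have hn : ∀ i : ℕ, ∃ n : G, π n = 1 ∧ g n = f (Xg e i) := by
    intro i
    have h1 : f (Xg e i) ∈ π.ker.map g := by
      rw [← hS.eq]
      exact Subgroup.mem_map_of_mem f (Xg_mem e i)
    obtain ⟨n, hn, hgn⟩ := h1
    exact ⟨n, hn, hgn⟩
  choose n hnπ hng using hn
  obtain ⟨m, hm'⟩ := hS.fin.bddAbove
  have hfm : ∀ i, m < i → f (Xg e i) = 1 := by
    intro i hi
    by_contra hcon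
    exact absurd (hm' hcon) (by omega)
  let B' : Subgroup (G ⧸ V) := π.ker.map q
  have hB'n : B'.Normal := Subgroup.Normal.map inferInstance q hq
  obtain ⟨r, ⟨ε⟩⟩ := Finite.exists_equiv_fin (α.ker ⊓ B' : Subgroup (G ⧸ V))
  let y : ℕ → G ⧸ V := fun i => if i ≤ m then q (n i) else
    if h : i - (m + 1) < r then ((ε.symm ⟨i - (m + 1), h⟩ : (α.ker ⊓ B' : Subgroup (G ⧸ V))) :
      G ⧸ V) else 1
  have hy1 : ∀ i, i ≤ m → y i = q (n i) := fun i hi => if_pos hi
  have hy2 : ∀ (i : ℕ) (hi : i < r), y (i + (m + 1)) =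
      ((ε.symm ⟨i, hi⟩ : (α.ker ⊓ B' : Subgroup (G ⧸ V))) : G ⧸ V) := by
    intro i hi
    have h1 : ¬ i + (m + 1) ≤ m := by omega
    have h2 : i + (m + 1) - (m + 1) = i := by omega
    have h3 : y (i + (m + 1)) = if h : i + (m + 1) - (m + 1) < r then
      ((ε.symm ⟨i + (m + 1) - (m + 1), h⟩ : (α.ker ⊓ B' : Subgroup (G ⧸ V))) : G ⧸ V) else 1 :=
      if_neg h1
    rw [h3, dif_pos (by omega)]
    have h4 : (⟨i + (m + 1) - (m + 1), by omega⟩ : Fin r) = ⟨i, hi⟩ := Fin.ext h2
    rw [h4]
  have hy3 : ∀ i, m < i → y i ∈ α.ker ⊓ B' := by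
    intro i hi
    have h3 : y i = if h : i - (m + 1) < r then
      ((ε.symm ⟨i - (m + 1), h⟩ : (α.ker ⊓ B' : Subgroup (G ⧸ V))) : G ⧸ V) else 1 :=
      if_neg (by omega)
    rw [h3]
    split_ifs with h4
    · exact (ε.symm ⟨i - (m + 1), h4⟩).2
    · exact one_mem _
  have hyB : ∀ i, y i ∈ B' := by
    intro i
    by_cases h : i ≤ m
    · rw [hy1 i h]
      exact ⟨n i, hnπ i, rfl⟩
    · exact (hy3 i (by omega)).2
  let f' : FE e →* G ⧸ V := FreeGroup.lift (Sum.elim (fun j => q (b j)) y)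
  have hf'T : ∀ j, f' (Tg j) = q (b j) := fun j => FreeGroup.lift_apply_of
  have hf'X : ∀ i, f' (Xg e i) = y i := fun i => FreeGroup.lift_apply_of
  have hαf : ∀ w, α (f' w) = f w := by
    intro w
    have h1 : α.comp f' = f := by
      apply FreeGroup.ext_hom
      rintro (j | i)
      · change α (f' (Tg j)) = f (Tg j)
        rw [hf'T, hα, hbg]
      · change α (f' (Xg e i)) = f (Xg e i)
        rw [hf'X]
        by_cases h : i ≤ m
        · rw [hy1 i h, hα, hng]
        · rw [hfm i (by omega)]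
          exact (hy3 i (by omega)).1
    rw [← h1]
    rfl
  have hle1 : (NF e).map f' ≤ B' := by
    rw [Subgroup.map_le_iff_le_comap]
    apply Subgroup.normalClosure_le_normal
    rintro _ ⟨i, rfl⟩
    change f' (Xg e i) ∈ B'
    rw [hf'X]
    exact hyB i
  have hker : α.ker ⊓ B' ≤ (NF e).map f' := by
    intro z hz
    refine ⟨Xg e ((ε ⟨z, hz⟩ : Fin r) + (m + 1)), Xg_mem e _, ?_⟩
    rw [hf'X, hy2 _ (ε ⟨z, hz⟩).2]
    change ((ε.symm (ε ⟨z, hz⟩) : (α.ker ⊓ B' : Subgroup (G ⧸ V))) : G ⧸ V) = z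
    rw [ε.symm_apply_apply]
  have hle2 : B' ≤ (NF e).map f' := by
    rintro _ ⟨c, hc, rfl⟩
    have h1 : g c ∈ (NF e).map f := by
      rw [hS.eq]
      exact Subgroup.mem_map_of_mem g hc
    obtain ⟨w, hw, hwc⟩ := h1
    have h2 : (f' w)⁻¹ * q c ∈ α.ker ⊓ B' := by
      constructor
      · change α ((f' w)⁻¹ * q c) = 1
        rw [map_mul, map_inv, hαf, hα, hwc, inv_mul_cancel]
      · exact B'.mul_mem (B'.inv_mem (hle1 (Subgroup.mem_map_of_mem f' hw))) ⟨c, hc, rfl⟩
    have h3 := ((NF e).map f').mul_mem (Subgroup.mem_map_of_mem f' hw) (hker h2)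
    rwa [mul_inv_cancel_left] at h3
  have hBeq : (NF e).map f' = B' := le_antisymm hle1 hle2
  have hf's : Surjective f' := by
    have h1 : (f'.range).comap q = ⊤ := by
      refine top_of_dense hG.sur hG.con hd ?_ ?_ ?_
      · have h2 : q.ker ≤ f'.range.comap q := by
          intro z hz
          rw [Subgroup.mem_comap]
          have h3 : q z = 1 := hz
          rw [h3]
          exact one_mem _
        exact Subgroup.isOpen_mono h2 hqo
      · intro z hz
        rw [Subgroup.mem_comap]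
        have h2 : q z ∈ (NF e).map f' := by
          rw [hBeq]
          exact Subgroup.mem_map_of_mem q hz
        obtain ⟨w, -, hw⟩ := h2
        exact ⟨w, hw⟩
      · intro j
        exact ⟨b j, ⟨Tg j, hf'T j⟩, hbπ j⟩
    intro z
    obtain ⟨c, rfl⟩ := hq z
    have h2 : c ∈ f'.range.comap q := by
      rw [h1]
      trivial
    exact h2
  refine ⟨MonoidHom.eqLocus (f'.comp (MonoidHom.fst (FE e) G)) (q.comp (MonoidHom.snd (FE e) G)),
    ?_, ⟨G ⧸ V, inferInstance, f', q, ⟨hf's, hq, hqo, ?_, hBeq, ?_⟩, fun a b => Iff.rfl⟩, ?_⟩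
  · rintro ⟨a, c⟩ hac
    have h1 : f' a = q c := hac
    rw [hm, ← hαf, h1, hα]
  · refine (Set.finite_lt_nat (m + 1 + r)).subset ?_
    intro i hi
    by_contra hcon
    apply hi
    have h0 : ¬ i < m + 1 + r := hcon
    rw [hf'X]
    have h3 : y i = if h : i - (m + 1) < r then
      ((ε.symm ⟨i - (m + 1), h⟩ : (α.ker ⊓ B' : Subgroup (G ⧸ V))) : G ⧸ V) else 1 :=
      if_neg (by omega)
    rw [h3, dif_neg (by omega)]
  · intro j c hc
    refine ⟨(b j)⁻¹ * c, ?_, ?_⟩
    · rw [SetLike.mem_coe, MonoidHom.mem_ker, map_mul, map_inv, hbπ, hc, inv_mul_cancel]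
    · rw [map_mul, map_inv, hf'T]
  · intro c hc
    have h1 : f' 1 = q c := hc
    rw [map_one] at h1
    exact ((hqk c).1 h1.symm).1

theorem backP (hC : Good C) (hG : PcR C π) (hτ : IsFreeProfinite τ)
    {R : Subgroup (FE e × G)} (hR : FibP π τ R) {N : Subgroup (FE e)} (hN : N ∈ OP C e) :
    ∃ R' ≤ R, FibP π τ R' ∧ ∀ a, (a, (1 : G)) ∈ R' → a ∈ N := by
  obtain ⟨A, iA, f, g, hS, hm⟩ := hR
  obtain ⟨A1, iA1, hA1, f1, hf1, hf1N, hfin1, hC1⟩ := hN
  haveI hAf : Finite A := by
    haveI : Finite (G ⧸ g.ker) := Subgroup.quotient_finite_of_isOpen _ hS.go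
    exact Finite.of_equiv _ (QuotientGroup.quotientKerEquivOfSurjective g hS.gs).toEquiv
  let A' : Subgroup (A × A1) := (f.prod f1).range
  let f' : FE e →* A' := (f.prod f1).rangeRestrict
  have hf's : Surjective f' := (f.prod f1).rangeRestrict_surjective
  let α : A' →* A := (MonoidHom.fst A A1).comp A'.subtype
  have hαf : ∀ w, α (f' w) = f w := fun w => rfl
  let B' : Subgroup A' := (NF e).map f'
  have hB'n : B'.Normal := Subgroup.Normal.map inferInstance f' hf's
  have hCA : C (π.ker.map g) := hG.cls A g hS.gs hS.go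
  have hCf : C ((NF e).map f) := by
    rw [hS.eq]
    exact hCA
  have hCB' : C B' := by
    have h1 := hC.subdirect (f.subgroupMap (NF e)) (f1.subgroupMap (NF e))
      (f.subgroupMap_surjective _) (f1.subgroupMap_surjective _) hCf hC1
    let θ : (NF e) →* ((f.subgroupMap (NF e)).prod (f1.subgroupMap (NF e))).range :=
      ((f.subgroupMap (NF e)).prod (f1.subgroupMap (NF e))).rangeRestrict
    obtain ⟨ψ, hψ⟩ := exists_fac θ (MonoidHom.rangeRestrict_surjective _)
      (f'.subgroupMap (NF e)) (fun x hx => by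
        have h2 : (f.subgroupMap (NF e) x, f1.subgroupMap (NF e) x) =
          (1 : (NF e).map f × (NF e).map f1) := congrArg Subtype.val hx
        have h3 : f x.1 = 1 := congrArg (fun z : (NF e).map f => (z : A)) (congrArg Prod.fst h2)
        have h4 : f1 x.1 = 1 :=
          congrArg (fun z : (NF e).map f1 => (z : A1)) (congrArg Prod.snd h2)
        apply Subtype.ext
        apply Subtype.ext
        exact Prod.ext h3 h4)
    refine hC.quo _ _ ψ h1 ?_
    intro z
    obtain ⟨x, rfl⟩ := f'.subgroupMap_surjective (NF e) z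
    exact ⟨θ x, hψ x⟩
  -- the homomorphism of `P`
  obtain ⟨h', hh'o, hh'⟩ := hτ.2 (A' ⧸ B') (fun j => QuotientGroup.mk' B' (f' (Tg j)))
  let δ : A' →* A × (A' ⧸ B') := α.prod (QuotientGroup.mk' B')
  let D : Subgroup (A × (A' ⧸ B')) := δ.range
  let β' : G →* A × (A' ⧸ B') := g.prod (h'.comp π)
  have hmkX : ∀ w ∈ NF e, QuotientGroup.mk' B' (f' w) = 1 := by
    intro w hw
    rw [QuotientGroup.mk'_apply, QuotientGroup.eq_one_iff]
    exact Subgroup.mem_map_of_mem f' hw
  have hβ'o : IsOpen (β'.ker : Set G) := by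
    have h1 : g.ker ⊓ h'.ker.comap π ≤ β'.ker := by
      rintro x ⟨hx1, hx2⟩
      have h2 : g x = 1 := hx1
      have h3 : h' (π x) = 1 := hx2
      change (g x, h' (π x)) = 1
      rw [h2, h3]
      rfl
    exact Subgroup.isOpen_mono h1 (hS.go.inter (hh'o.preimage hG.con))
  -- elements of the kernel
  have hkerD : ∀ c, π c = 1 → ∃ w ∈ NF e, β' c = δ (f' w) := by
    intro c hc
    have h1 : g c ∈ (NF e).map f := by
      rw [hS.eq]
      exact Subgroup.mem_map_of_mem g hc
    obtain ⟨w, hw, hwc⟩ := h1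
    refine ⟨w, hw, ?_⟩
    change (g c, h' (π c)) = (α (f' w), QuotientGroup.mk' B' (f' w))
    rw [hc, map_one, hmkX w hw, hαf, hwc]
  have hkerD' : ∀ w ∈ NF e, ∃ c, π c = 1 ∧ β' c = δ (f' w) := by
    intro w hw
    have h1 : f w ∈ π.ker.map g := by
      rw [← hS.eq]
      exact Subgroup.mem_map_of_mem f hw
    obtain ⟨c, hc, hcw⟩ := h1
    refine ⟨c, hc, ?_⟩
    have hc' : π c = 1 := hc
    change (g c, h' (π c)) = (α (f' w), QuotientGroup.mk' B' (f' w))
    rw [hc', map_one, hmkX w hw, hαf, hcw]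
  have hgenD : ∀ (j : Fin e) (c : G), π c = τ j → ∃ w ∈ NF e, β' c = δ (f' (Tg j * w)) := by
    intro j c hc
    have h1 := hS.cmp j c hc
    rw [← hS.eq] at h1
    obtain ⟨w, hw, hwc⟩ := h1
    refine ⟨w, hw, ?_⟩
    change (g c, h' (π c)) = (α (f' (Tg j * w)), QuotientGroup.mk' B' (f' (Tg j * w)))
    rw [hc, hh', hαf, map_mul, map_mul, map_mul, hwc, hmkX w hw, mul_one,
      mul_inv_cancel_left]
  have hβD : ∀ c, β' c ∈ D := by
    have h1 : D.comap β' = ⊤ := by
      refine top_of_dense hG.sur hG.con hτ.1 ?_ ?_ ?_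
      · have h2 : β'.ker ≤ D.comap β' := by
          intro z hz
          rw [Subgroup.mem_comap]
          have h3 : β' z = 1 := hz
          rw [h3]
          exact one_mem _
        exact Subgroup.isOpen_mono h2 hβ'o
      · intro c hc
        obtain ⟨w, -, hw⟩ := hkerD c hc
        rw [Subgroup.mem_comap, hw]
        exact ⟨f' w, rfl⟩
      · intro j
        obtain ⟨c, hc⟩ := hG.sur (τ j)
        obtain ⟨w, -, hw⟩ := hgenD j c hc
        refine ⟨c, ?_, hc⟩
        rw [Subgroup.mem_comap, hw]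
        exact ⟨f' (Tg j * w), rfl⟩
    intro c
    have h2 : c ∈ D.comap β' := by
      rw [h1]
      trivial
    exact h2
  let β : G →* D := β'.codRestrict D hβD
  have hβs : Surjective β := by
    have h1 : ∀ w : FE e, δ (f' w) ∈ β'.range := by
      intro w
      have h2 : (⊤ : Subgroup (FE e)) ≤ β'.range.comap (δ.comp f') := by
        rw [← FreeGroup.closure_range_of, Subgroup.closure_le]
        rintro _ ⟨(j | i), rfl⟩
        · change δ (f' (Tg j)) ∈ β'.range
          obtain ⟨c, hc⟩ := hG.sur (τ j)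
          obtain ⟨w, hw, hwc⟩ := hgenD j c hc
          obtain ⟨d, -, hd⟩ := hkerD' w hw
          refine ⟨c * d⁻¹, ?_⟩
          rw [map_mul, map_inv, hwc, hd, map_mul f', map_mul δ, mul_inv_cancel_right]
        · change δ (f' (Xg e i)) ∈ β'.range
          obtain ⟨c, -, hc⟩ := hkerD' (Xg e i) (Xg_mem e i)
          exact ⟨c, hc⟩
      exact h2 trivial
    rintro ⟨_, z, rfl⟩
    obtain ⟨w, rfl⟩ := hf's z
    obtain ⟨c, hc⟩ := h1 w
    exact ⟨c, Subtype.ext hc⟩
  let αD : A' →* D := δ.rangeRestrict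
  have hαDs : Surjective αD := δ.rangeRestrict_surjective
  have hαDk : αD.ker ≤ B' := by
    intro z hz
    have h1 : (α z, QuotientGroup.mk' B' z) = (1 : A × (A' ⧸ B')) := congrArg Subtype.val hz
    have h2 : QuotientGroup.mk' B' z = 1 := congrArg Prod.snd h1
    rwa [QuotientGroup.mk'_apply, QuotientGroup.eq_one_iff] at h2
  have hCk : C αD.ker := by
    refine hC.sub _ _ (Subgroup.inclusion hαDk) (Subgroup.inclusion_injective hαDk) ?_ hCB'
    constructor
    rintro x ⟨z, rfl⟩ y
    refine ⟨⟨y.1 * z.1 * y.1⁻¹, ?_⟩, rfl⟩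
    exact (inferInstance : αD.ker.Normal).conj_mem z.1 z.2 y.1
  have hβo : IsOpen (β.ker : Set G) := by
    have h1 : β.ker = β'.ker := by
      ext x
      rw [MonoidHom.mem_ker, MonoidHom.mem_ker]
      constructor
      · intro h
        exact congrArg Subtype.val h
      · intro h
        exact Subtype.ext h
    rw [h1]
    exact hβ'o
  obtain ⟨γ, hγs, hγo, hγ, hγk⟩ := hG.emb A' D αD β hαDs hβs hCk hβo
  have hγ1 : ∀ c, α (γ c) = g c := fun c =>
    congrArg Prod.fst (congrArg Subtype.val (hγ c))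
  have hγ2 : ∀ c, QuotientGroup.mk' B' (γ c) = h' (π c) := fun c =>
    congrArg Prod.snd (congrArg Subtype.val (hγ c))
  have hBeq : (NF e).map f' = π.ker.map γ := by
    apply le_antisymm
    · intro z hz
      -- `α z` is the value of an element of the kernel
      obtain ⟨w, hw, rfl⟩ := hz
      have h1 : f w ∈ π.ker.map g := by
        rw [← hS.eq]
        exact Subgroup.mem_map_of_mem f hw
      obtain ⟨c, hc, hcw⟩ := h1
      have hc' : π c = 1 := hc
      have h2 : (γ c)⁻¹ * f' w ∈ αD.ker := by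
        rw [MonoidHom.mem_ker]
        apply Subtype.ext
        change (α ((γ c)⁻¹ * f' w), QuotientGroup.mk' B' ((γ c)⁻¹ * f' w)) = 1
        rw [map_mul, map_mul, map_inv, map_inv, hγ1, hγ2, hc', map_one, hmkX w hw, hαf, hcw,
          inv_mul_cancel, inv_one, mul_one]
        rfl
      have h3 := (π.ker.map γ).mul_mem (Subgroup.mem_map_of_mem γ hc) (hγk h2)
      rwa [mul_inv_cancel_left] at h3
    · rintro _ ⟨c, hc, rfl⟩
      have hc' : π c = 1 := hc
      have h1 := hγ2 c
      rw [hc', map_one, QuotientGroup.mk'_apply, QuotientGroup.eq_one_iff] at h1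
      exact h1
  refine ⟨MonoidHom.eqLocus (f'.comp (MonoidHom.fst (FE e) G)) (γ.comp (MonoidHom.snd (FE e) G)),
    ?_, ⟨A', inferInstance, f', γ, ⟨hf's, hγs, hγo, ?_, hBeq, ?_⟩, fun a b => Iff.rfl⟩, ?_⟩
  · rintro ⟨a, c⟩ hac
    have h1 : f' a = γ c := hac
    rw [hm, ← hαf, h1, hγ1]
  · refine (hS.fin.union hfin1).subset ?_
    intro i hi
    by_contra hcon
    apply hi
    apply Subtype.ext
    change (f (Xg e i), f1 (Xg e i)) = (1 : A × A1)
    have h1 : f (Xg e i) = 1 := by
      by_contra h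
      exact hcon (Or.inl h)
    have h2 : f1 (Xg e i) = 1 := by
      by_contra h
      exact hcon (Or.inr h)
    rw [h1, h2]
    rfl
  · intro j c hc
    rw [← hBeq]
    have h1 : QuotientGroup.mk' B' ((f' (Tg j))⁻¹ * γ c) = 1 := by
      rw [map_mul, map_inv, hγ2, hc, hh', inv_mul_cancel]
    rwa [QuotientGroup.mk'_apply, QuotientGroup.eq_one_iff] at h1
  · intro a ha
    have h1 : f' a = γ 1 := ha
    rw [map_one] at h1
    rw [← hf1N]
    exact congrArg Prod.snd (congrArg Subtype.val h1)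

end steps

end Pool.Agent.H87.Fpc
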