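import Pool.Agent.H87.Fpc.Pres

/-!
# Generators and relations of Galois groups over free profinite groups (2)
-/

set_option autoImplicit false

namespace Pool.Agent.H87.Fpc

open Function

section count

variable {C : ∀ (G : Type) [Group G], Prop}

/-- the coding of the subgroups in `OP C e` -/
def codeP (e : ℕ) (c : Σ (n : ℕ) (m : ℕ),
    ((Fin e → Equiv.Perm (Fin m)) × (Fin n → Equiv.Perm (Fin m)))) : Subgroup (FE e) :=
  (FreeGroup.lift (Sum.elim c.2.2.1 (fun i => if h : i < c.1 then c.2.2.2 ⟨i, h⟩ else 1))).ker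

theorem countable_OP (e : ℕ) : (OP C e).Countable := by
  classical
  refine Set.Countable.mono ?_ (Set.countable_range (codeP e))
  rintro N ⟨A, iA, hA, q, hq, hqN, hfin, -⟩
  obtain ⟨n, hn⟩ := hfin.bddAbove
  have hn' : ∀ i, n < i → q (Xg e i) = 1 := by
    intro i hi
    by_contra hcon
    exact absurd (hn hcon) (by omega)
  obtain ⟨m, ⟨ε⟩⟩ := Finite.exists_equiv_fin A
  let ρ : A →* Equiv.Perm (Fin m) := ε.permCongrHom.toMonoidHom.comp (MulAction.toPermHom A A)
  have hρ : Injective ρ := by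
    have h1 : Injective (MulAction.toPermHom A A) := MulAction.toPerm_injective
    exact ε.permCongrHom.injective.comp h1
  refine ⟨⟨n + 1, m, fun j => ρ (q (Tg j)), fun i => ρ (q (Xg e (i : ℕ)))⟩, ?_⟩
  have h1 : FreeGroup.lift (Sum.elim (fun j : Fin e => ρ (q (Tg j)))
      (fun i => if h : i < n + 1 then
        (fun j : Fin (n + 1) => ρ (q (Xg e (j : ℕ)))) ⟨i, h⟩ else 1)) = ρ.comp q := by
    apply FreeGroup.ext_hom
    rintro (j | i)
    · rw [FreeGroup.lift_apply_of]
      rfl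
    · rw [FreeGroup.lift_apply_of, Sum.elim_inr, MonoidHom.comp_apply]
      split_ifs with h
      · rfl
      · have h2 : q (FreeGroup.of (Sum.inr i)) = 1 := hn' i (by omega)
        rw [h2, map_one]
  ext x
  change x ∈ (FreeGroup.lift (Sum.elim (fun j : Fin e => ρ (q (Tg j)))
      (fun i => if h : i < n + 1 then
        (fun j : Fin (n + 1) => ρ (q (Xg e (j : ℕ)))) ⟨i, h⟩ else 1))).ker ↔ x ∈ N
  rw [h1, MonoidHom.mem_ker, MonoidHom.comp_apply, ← hqN, map_eq_one_iff ρ hρ]

theorem top_mem_OP (hC : Good C) (e : ℕ) : (⊤ : Subgroup (FE e)) ∈ OP C e := by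
  refine ⟨Unit, inferInstance, inferInstance, 1, fun a => ⟨1, rfl⟩,
    fun x => ⟨fun _ => trivial, fun _ => rfl⟩, ?_, hC.one _⟩
  have h1 : {i : ℕ | (1 : FE e →* Unit) (Xg e i) ≠ 1} = ∅ := by
    ext i
    constructor
    · intro h
      exact h rfl
    · intro h
      exact absurd h (Set.notMem_empty i)
  rw [h1]
  exact Set.finite_empty

end count

section seq

variable {C : ∀ (G : Type) [Group G], Prop} {G P : Type} [Group G] [Group P]
  [TopologicalSpace G] [TopologicalSpace P] [IsTopologicalGroup G] [CompactSpace G]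
  [IsTopologicalGroup P] [T2Space P] {e : ℕ} {π : G →* P} {τ : Fin e → P}

theorem exists_stepP (hC : Good C) (hG : PcR C π) (hτ : IsFreeProfinite τ)
    {R : Subgroup (FE e × G)} (hR : FibP π τ R) {N : Subgroup (FE e)} (hN : N ∈ OP C e)
    {U : Subgroup G} (hU : U ∈ ON G) :
    ∃ R' ≤ R, FibP π τ R' ∧ (∀ a, (a, (1 : G)) ∈ R' → a ∈ N) ∧
      ∀ b, ((1 : FE e), b) ∈ R' → b ∈ U := by
  obtain ⟨R1, h1, h2, h3⟩ := backP hC hG hτ hR hN
  obtain ⟨R2, h4, h5, h6⟩ := forthP hG hτ.1 h2 hU
  exact ⟨R2, h4.trans h1, h5, fun a ha => h3 a (h4 ha), h6⟩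

theorem exists_seqP (hC : Good C) (hG : PcR C π) (hτ : IsFreeProfinite τ) :
    ∃ R : ℕ → Subgroup (FE e × G), Antitone R ∧ (∀ n, FibP π τ (R n)) ∧
      (∀ U ∈ OP C e, ∃ n, ∀ a, (a, (1 : G)) ∈ R n → a ∈ U) ∧
      ∀ V ∈ ON G, ∃ n, ∀ b, ((1 : FE e), b) ∈ R n → b ∈ V := by
  obtain ⟨v, hv, hv'⟩ := hG.cnt
  obtain ⟨u, hu⟩ := (countable_OP (C := C) e).exists_eq_range ⟨⊤, top_mem_OP hC e⟩
  have hu1 : ∀ n, u n ∈ OP C e := fun n => by
    rw [hu]
    exact ⟨n, rfl⟩
  have h0 : FibP π τ (⊤ : Subgroup (FE e × G)) := by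
    refine ⟨Unit, inferInstance, 1, 1, ⟨fun a => ⟨1, rfl⟩, fun a => ⟨1, rfl⟩, ?_, ?_,
      Subsingleton.elim _ _, ?_⟩, fun a b => ⟨fun _ => rfl, fun _ => trivial⟩⟩
    · rw [MonoidHom.ker_one]
      exact isOpen_univ
    · have h1 : {i : ℕ | (1 : FE e →* Unit) (Xg e i) ≠ 1} = ∅ := by
        ext i
        constructor
        · intro h
          exact h rfl
        · intro h
          exact absurd h (Set.notMem_empty i)
      rw [h1]
      exact Set.finite_empty
    · intro j b _
      exact one_mem _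
  choose! s hs1 hs2 hs3 hs4 using fun (n : ℕ) (R : Subgroup (FE e × G)) (hR : FibP π τ R) =>
    exists_stepP hC hG hτ hR (hu1 n) (hv n)
  let R : ℕ → Subgroup (FE e × G) := fun n => Nat.rec ⊤ (fun n R => s n R) n
  have hR : ∀ n, FibP π τ (R n) := by
    intro n
    induction n with
    | zero => exact h0
    | succ n ih => exact hs2 n (R n) ih
  have hanti : Antitone R := antitone_nat_of_succ_le fun n => hs1 n (R n) (hR n)
  refine ⟨R, hanti, hR, ?_, ?_⟩
  · intro U hU
    rw [hu] at hU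
    obtain ⟨n, rfl⟩ := hU
    exact ⟨n + 1, fun a ha => hs3 n (R n) (hR n) a ha⟩
  · intro V hV
    obtain ⟨n, hn⟩ := hv' V hV
    exact ⟨n + 1, fun a ha => hn (hs4 n (R n) (hR n) a ha)⟩

end seq

section pres

variable {C : ∀ (G : Type) [Group G], Prop} {G P : Type} [Group G] [Group P]
  [TopologicalSpace G] [TopologicalSpace P] [IsTopologicalGroup G] [CompactSpace G] [T2Space G]
  [TotallyDisconnectedSpace G] [IsTopologicalGroup P] [CompactSpace P] [T2Space P]
  [TotallyDisconnectedSpace P] {e : ℕ} {π : G →* P} {τ : Fin e → P}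

/-- **The presentation.** -/
theorem pres_of_pc (hC : Good C) (hG : PcR C π) (hτ : IsFreeProfinite τ) :
    ∃ (t : Fin e → G) (x : ℕ → G), IsPresented C t x ∧ (∀ j, π (t j) = τ j) ∧
      (Subgroup.normalClosure (Set.range x)).topologicalClosure = π.ker := by
  obtain ⟨R, hanti, hR, hU, hV⟩ := exists_seqP hC hG hτ
  have hRF : ∀ n, Fib Set.univ (ON G) (R n) := by
    intro n
    obtain ⟨A, iA, f, g, hS, hm⟩ := hR n
    exact ⟨A, iA, f, g, hS.fs, hS.gs, trivial, ⟨inferInstance, hS.go⟩, hm⟩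
  obtain ⟨θ, hθ⟩ := exists_hom (sep_of_profinite G) R hanti hRF hV
  -- elements of `P`
  have hsepP : ∀ c : P, (∀ n, ∃ b, ((1 : FE e), b) ∈ R n ∧ π b = c) → c = 1 := by
    intro c hc
    apply sep_of_profinite P
    rintro W ⟨hWn, hWo⟩
    obtain ⟨n, hn⟩ := hV (W.comap π) ⟨hWn.comap π, hWo.preimage hG.con⟩
    obtain ⟨b, hb, rfl⟩ := hc n
    exact hn b hb
  have hπt : ∀ j, π (θ (Tg j)) = τ j := by
    intro j
    obtain ⟨b, hb⟩ := hG.sur (τ j)
    have h1 : (π (θ (Tg j)))⁻¹ * τ j = 1 := by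
      apply hsepP
      intro n
      obtain ⟨A, iA, f, g, hS, hm⟩ := hR n
      obtain ⟨c, hc, hgc⟩ := hS.cmp j b hb
      have hc' : π c = 1 := hc
      refine ⟨(θ (Tg j))⁻¹ * b * c⁻¹, ?_, ?_⟩
      · rw [hm, map_one, map_mul, map_mul, map_inv, map_inv, ← (hm _ _).1 (hθ (Tg j) n), hgc,
          mul_inv_cancel]
      · rw [map_mul, map_mul, map_inv, map_inv, hb, hc', inv_one, mul_one]
    exact inv_mul_eq_one.1 h1
  have hπx : ∀ i, π (θ (Xg e i)) = 1 := by
    intro i
    apply hsepP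
    intro n
    obtain ⟨A, iA, f, g, hS, hm⟩ := hR n
    have h1 : f (Xg e i) ∈ π.ker.map g := by
      rw [← hS.eq]
      exact Subgroup.mem_map_of_mem f (Xg_mem e i)
    obtain ⟨c, hc, hgc⟩ := h1
    have hc' : π c = 1 := hc
    refine ⟨θ (Xg e i) * c⁻¹, ?_, ?_⟩
    · rw [hm, map_one, map_mul, map_inv, ← (hm _ _).1 (hθ (Xg e i) n), hgc, mul_inv_cancel]
    · rw [map_mul, map_inv, hc', inv_one, mul_one]
  have hcl : Subgroup.normalClosure (Set.range fun i => θ (Xg e i)) ≤ π.ker := by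
    apply Subgroup.normalClosure_le_normal
    rintro _ ⟨i, rfl⟩
    exact hπx i
  have hNF : ∀ w ∈ NF e, θ w ∈ Subgroup.normalClosure (Set.range fun i => θ (Xg e i)) := by
    intro w hw
    have h1 : NF e ≤ (Subgroup.normalClosure (Set.range fun i => θ (Xg e i))).comap θ := by
      apply Subgroup.normalClosure_le_normal
      rintro _ ⟨i, rfl⟩
      exact Subgroup.subset_normalClosure ⟨i, rfl⟩
    exact h1 hw
  have happrox : ∀ (b : G) (n : ℕ), ∃ w : FE e, ((1 : FE e), (θ w)⁻¹ * b) ∈ R n := by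
    intro b n
    obtain ⟨A, iA, f, g, hS, hm⟩ := hR n
    obtain ⟨w, hw⟩ := hS.fs (g b)
    refine ⟨w, ?_⟩
    rw [hm, map_one, map_mul, map_inv, ← (hm _ _).1 (hθ w n), hw, inv_mul_cancel]
  refine ⟨fun j => θ (Tg j), fun i => θ (Xg e i), ⟨?_, ?_, ?_, ?_⟩, hπt, ?_⟩
  · -- convergence
    intro W hW
    obtain ⟨V, hVO, hVW⟩ := nhds_ON hW
    obtain ⟨n, hn⟩ := hV V hVO
    obtain ⟨A, iA, f, g, hS, hm⟩ := hR n
    obtain ⟨m, hm'⟩ := hS.fin.bddAbove
    rw [Filter.mem_map, Filter.mem_atTop_sets]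
    refine ⟨m + 1, fun i hi => ?_⟩
    apply hVW
    apply hn
    have h1 : f (Xg e i) = 1 := by
      by_contra hcon
      have h2 : i ≤ m := hm' hcon
      omega
    rw [hm, map_one, ← (hm _ _).1 (hθ (Xg e i) n), h1]
  · -- density
    have h1 : θ.range ≤ Subgroup.closure (Set.range (fun j : Fin e => θ (Tg j)) ∪
        Set.range fun i => θ (Xg e i)) := by
      rw [MonoidHom.range_eq_map, ← FreeGroup.closure_range_of, MonoidHom.map_closure]
      apply Subgroup.closure_mono
      rintro _ ⟨_, ⟨(j | i), rfl⟩, rfl⟩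
      · exact Or.inl ⟨j, rfl⟩
      · exact Or.inr ⟨i, rfl⟩
    have h2 : Dense ((θ.range : Subgroup G) : Set G) := by
      intro b
      rw [mem_closure_iff_nhds]
      intro W hW
      have h3 : (fun z => b * z) ⁻¹' W ∈ nhds (1 : G) := by
        have h4 : ContinuousAt (fun z : G => b * z) 1 :=
          (continuous_const.mul continuous_id).continuousAt
        apply h4
        change W ∈ nhds (b * 1)
        rwa [mul_one]
      obtain ⟨V, hVO, hVW⟩ := nhds_ON h3
      obtain ⟨n, hn⟩ := hV V hVO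
      obtain ⟨w, hw⟩ := happrox b n
      have h4 := V.inv_mem (hn _ hw)
      have h5 : b * ((θ w)⁻¹ * b)⁻¹ ∈ W := hVW h4
      rw [mul_inv_rev, inv_inv, mul_inv_cancel_left] at h5
      exact ⟨θ w, h5, w, rfl⟩
    exact h2.mono h1
  · -- the relation
    intro U hUn hUo
    have h1 := hG.cls (G ⧸ U) (QuotientGroup.mk' U) (QuotientGroup.mk'_surjective U) (by
      rw [QuotientGroup.ker_mk']
      exact hUo)
    have h2 : (Subgroup.normalClosure (Set.range fun i => θ (Xg e i))).map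
      (QuotientGroup.mk' U) ≤ π.ker.map (QuotientGroup.mk' U) := Subgroup.map_mono hcl
    refine hC.sub _ _ (Subgroup.inclusion h2) (Subgroup.inclusion_injective h2) ?_ h1
    have h3 : ((Subgroup.normalClosure (Set.range fun i => θ (Xg e i))).map
      (QuotientGroup.mk' U)).Normal :=
      Subgroup.Normal.map inferInstance _ (QuotientGroup.mk'_surjective U)
    constructor
    rintro z ⟨a, rfl⟩ y
    exact ⟨⟨y.1 * a.1 * y.1⁻¹, h3.conj_mem a.1 a.2 y.1⟩, rfl⟩
  · intro H _ _ h y hy hgen hCy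
    let q : FE e →* H := FreeGroup.lift (Sum.elim h y)
    have hqT : ∀ j, q (Tg j) = h j := fun j => FreeGroup.lift_apply_of
    have hqX : ∀ i, q (Xg e i) = y i := fun i => FreeGroup.lift_apply_of
    have hlift : Surjective q := by
      rw [← MonoidHom.range_eq_top, FreeGroup.range_lift_eq_closure, Set.Sum.elim_range]
      exact hgen
    have hNq : (NF e).map q = Subgroup.normalClosure (Set.range y) := by
      have h1 : (NF e).map q = Subgroup.normalClosure (q '' Set.range (Xg e)) :=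
        Subgroup.map_normalClosure _ q hlift
      rw [h1, ← Set.range_comp]
      congr 1
      exact congrArg Set.range (funext hqX)
    have hker : q.ker ∈ OP C e := by
      refine ⟨H, inferInstance, inferInstance, q, hlift, fun x => Iff.rfl, ?_, ?_⟩
      · refine hy.subset ?_
        intro i hi
        rw [Set.mem_ofPred_eq, hqX] at hi
        exact hi
      · rw [hNq]
        exact hCy
    obtain ⟨n, hn⟩ := hU _ hker
    obtain ⟨A, iA, f, g, hS, hm⟩ := hR n
    obtain ⟨ψ, hψ⟩ := exists_fac f hS.fs q (fun x hx => by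
      have h1 : (x, (1 : G)) ∈ R n := by rw [hm, hx, map_one]
      exact hn x h1)
    have hval : ∀ w, ψ (g (θ w)) = q w := by
      intro w
      rw [← (hm _ _).1 (hθ w n), hψ]
    refine ⟨ψ.comp g, ⟨?_, ?_, ?_⟩, ?_⟩
    · have h1 : g.ker ≤ (ψ.comp g).ker := by
        intro x hx
        rw [MonoidHom.mem_ker] at hx
        rw [MonoidHom.mem_ker, MonoidHom.comp_apply, hx, map_one]
      exact Subgroup.isOpen_mono h1 hS.go
    · intro j
      rw [MonoidHom.comp_apply, hval, hqT]
    · intro i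
      rw [MonoidHom.comp_apply, hval, hqX]
    · rintro φ ⟨hφo, hφt, hφx⟩
      obtain ⟨V, hVO, hVW⟩ := nhds_ON (hφo.mem_nhds (one_mem φ.ker))
      obtain ⟨k, hk⟩ := hV V hVO
      have hcomp : ∀ w : FE e, φ (θ w) = q w := by
        intro w
        have h1 : φ.comp θ = q := by
          apply FreeGroup.ext_hom
          rintro (j | i)
          · change φ (θ (Tg j)) = q (Tg j)
            rw [hφt, hqT]
          · change φ (θ (Xg e i)) = q (Xg e i)
            rw [hφx, hqX]
        rw [← h1]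
        rfl
      ext b
      obtain ⟨w, hw⟩ := happrox b (max n k)
      have h2 : φ ((θ w)⁻¹ * b) = 1 := hVW (hk _ (hanti (le_max_right n k) hw))
      have h3 : g ((θ w)⁻¹ * b) = 1 := by
        have h4 := (hm _ _).1 (hanti (le_max_left n k) hw)
        rw [← h4, map_one]
      have h5 : b = θ w * ((θ w)⁻¹ * b) := (mul_inv_cancel_left _ _).symm
      rw [h5, map_mul, h2, mul_one, MonoidHom.comp_apply, map_mul, h3, mul_one, hcomp, hval]
  · -- the kernel
    apply le_antisymm
    · apply Subgroup.topologicalClosure_minimal _ hcl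
      have h1 : (π.ker : Set G) = π ⁻¹' {1} := rfl
      rw [h1]
      exact isClosed_singleton.preimage hG.con
    · intro b hb
      change b ∈ closure _
      rw [mem_closure_iff_nhds]
      intro W hW
      have h3 : (fun z => b * z) ⁻¹' W ∈ nhds (1 : G) := by
        have h4 : ContinuousAt (fun z : G => b * z) 1 :=
          (continuous_const.mul continuous_id).continuousAt
        apply h4
        change W ∈ nhds (b * 1)
        rwa [mul_one]
      obtain ⟨V, hVO, hVW⟩ := nhds_ON h3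
      obtain ⟨n, hn⟩ := hV V hVO
      obtain ⟨A, iA, f, g, hS, hm⟩ := hR n
      have h4 : g b ∈ (NF e).map f := by
        rw [hS.eq]
        exact Subgroup.mem_map_of_mem g hb
      obtain ⟨w, hw, hwb⟩ := h4
      have h5 : ((1 : FE e), (θ w)⁻¹ * b) ∈ R n := by
        rw [hm, map_one, map_mul, map_inv, ← (hm _ _).1 (hθ w n), hwb, inv_mul_cancel]
      have h6 : b * ((θ w)⁻¹ * b)⁻¹ ∈ W := hVW (V.inv_mem (hn _ h5))
      rw [mul_inv_rev, inv_inv, mul_inv_cancel_left] at h6
      exact ⟨θ w, h6, hNF w hw⟩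

end pres

end Pool.Agent.H87.Fpc
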