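import Pool.Agent.H87.Fpc.ConstX

/-!
# Generators and relations of Galois groups over free profinite groups (3)
-/

set_option autoImplicit false

namespace Pool.Agent.H87.Fpc

open Function

section uniq

variable {C : ∀ (G : Type) [Group G], Prop} {G G' : Type} [Group G] [Group G']
  [TopologicalSpace G] [TopologicalSpace G'] [IsTopologicalGroup G] [IsTopologicalGroup G']
  [CompactSpace G] [CompactSpace G'] [T2Space G] [T2Space G'] [TotallyDisconnectedSpace G]
  [TotallyDisconnectedSpace G'] {e : ℕ} {t : Fin e → G} {x : ℕ → G} {t' : Fin e → G'}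
  {x' : ℕ → G'}

omit [TotallyDisconnectedSpace G] [T2Space G] [CompactSpace G] in
/-- presented groups have homomorphisms to each other -/
theorem exists_hom_pres (hG : IsPresented C t x) (hG' : IsPresented C t' x') :
    ∃ Ψ : G →* G', Continuous Ψ ∧ (∀ j, Ψ (t j) = t' j) ∧ ∀ i, Ψ (x i) = x' i := by
  classical
  obtain ⟨h1, h2, h3, h4⟩ := hG
  obtain ⟨k1, k2, k3, k4⟩ := hG'
  haveI hN : ∀ U : {U : Subgroup G' // U ∈ ON G'}, U.1.Normal := fun U => U.2.1
  have hex : ∀ U : {U : Subgroup G' // U ∈ ON G'}, ∃ φ : G →* G' ⧸ U.1,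
      (IsOpen (φ.ker : Set G) ∧ (∀ j, φ (t j) = QuotientGroup.mk (t' j)) ∧
        ∀ i, φ (x i) = QuotientGroup.mk (x' i)) := by
    rintro ⟨U, hUn, hUo⟩
    haveI : Finite (G' ⧸ U) := Subgroup.quotient_finite_of_isOpen U hUo
    have hfin : {i | QuotientGroup.mk' U (x' i) ≠ 1}.Finite := by
      have h5 : ∀ᶠ i in Filter.atTop, x' i ∈ (U : Set G') := k1 (hUo.mem_nhds (one_mem U))
      rw [Filter.eventually_atTop] at h5
      obtain ⟨m, hm⟩ := h5
      refine (Set.finite_lt_nat m).subset ?_
      intro i hi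
      by_contra hcon
      apply hi
      have h6 : ¬ i < m := hcon
      have h7 : x' i ∈ (U : Set G') := hm i (by omega)
      rw [QuotientGroup.mk'_apply, QuotientGroup.eq_one_iff]
      exact h7
    have hgen : Subgroup.closure ((Set.range fun j => QuotientGroup.mk' U (t' j)) ∪
        Set.range fun i => QuotientGroup.mk' U (x' i)) = ⊤ := by
      rw [eq_top_iff]
      intro z _
      obtain ⟨b, rfl⟩ := QuotientGroup.mk'_surjective U z
      have h5 : ∃ u ∈ (Subgroup.closure (Set.range t' ∪ Set.range x') : Subgroup G'),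
          b⁻¹ * u ∈ U := by
        have h6 : IsOpen ((fun u => b⁻¹ * u) ⁻¹' (U : Set G')) :=
          hUo.preimage (continuous_const.mul continuous_id)
        obtain ⟨u, hu1, hu2⟩ := k2.inter_open_nonempty _ h6 ⟨b, by
          change b⁻¹ * b ∈ U
          rw [inv_mul_cancel]
          exact one_mem U⟩
        exact ⟨u, hu2, hu1⟩
      obtain ⟨u, hu1, hu2⟩ := h5
      have h6 : QuotientGroup.mk' U b = QuotientGroup.mk' U u := QuotientGroup.eq.2 hu2
      rw [h6]
      have h7 : (Subgroup.closure (Set.range t' ∪ Set.range x')).map (QuotientGroup.mk' U) ≤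
          Subgroup.closure ((Set.range fun j => QuotientGroup.mk' U (t' j)) ∪
            Set.range fun i => QuotientGroup.mk' U (x' i)) := by
        rw [MonoidHom.map_closure]
        apply Subgroup.closure_mono
        rintro _ ⟨_, (⟨j, rfl⟩ | ⟨i, rfl⟩), rfl⟩
        · exact Or.inl ⟨j, rfl⟩
        · exact Or.inr ⟨i, rfl⟩
      exact h7 (Subgroup.mem_map_of_mem _ hu1)
    have hcls : C (Subgroup.normalClosure (Set.range fun i => QuotientGroup.mk' U (x' i))) := by
      have h5 := k3 U hUo
      have h6 : (Subgroup.normalClosure (Set.range x')).map (QuotientGroup.mk' U) =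
          Subgroup.normalClosure (Set.range fun i => QuotientGroup.mk' U (x' i)) := by
        rw [Subgroup.map_normalClosure _ _ (QuotientGroup.mk'_surjective U), ← Set.range_comp]
        rfl
      rw [← h6]
      exact h5
    obtain ⟨φ, hφ, -⟩ := h4 (G' ⧸ U) (fun j => QuotientGroup.mk' U (t' j))
      (fun i => QuotientGroup.mk' U (x' i)) hfin hgen hcls
    exact ⟨φ, hφ⟩
  choose φ hφ using hex
  -- compatibility
  have hcomp : ∀ (U V : {U : Subgroup G' // U ∈ ON G'}) (h : U.1 ≤ V.1) (g : G) (b : G'),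
      QuotientGroup.mk b = φ U g → (QuotientGroup.mk b : G' ⧸ V.1) = φ V g := by
    intro U V h g b hb
    haveI := U.2.1
    haveI := V.2.1
    haveI : Finite (G' ⧸ V.1) := Subgroup.quotient_finite_of_isOpen V.1 V.2.2
    let μ : G' ⧸ U.1 →* G' ⧸ V.1 := QuotientGroup.map U.1 V.1 (MonoidHom.id G') h
    have h5 : μ.comp (φ U) = φ V := by
      have h6 : Dense ((Subgroup.closure (Set.range t ∪ Set.range x) : Subgroup G) : Set G) := h2
      have h7 : Subgroup.closure (Set.range t ∪ Set.range x) ≤
          MonoidHom.eqLocus (μ.comp (φ U)) (φ V) := by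
        rw [Subgroup.closure_le]
        rintro _ (⟨j, rfl⟩ | ⟨i, rfl⟩)
        · change μ (φ U (t j)) = φ V (t j)
          rw [(hφ U).2.1, (hφ V).2.1]
          rfl
        · change μ (φ U (x i)) = φ V (x i)
          rw [(hφ U).2.2, (hφ V).2.2]
          rfl
      have h8 : IsOpen ((MonoidHom.eqLocus (μ.comp (φ U)) (φ V) : Subgroup G) : Set G) := by
        have h9 : (φ U).ker ⊓ (φ V).ker ≤ MonoidHom.eqLocus (μ.comp (φ U)) (φ V) := by
          rintro z ⟨hz1, hz2⟩
          have hz1' : φ U z = 1 := hz1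
          have hz2' : φ V z = 1 := hz2
          change μ (φ U z) = φ V z
          rw [hz1', hz2', map_one]
        exact Subgroup.isOpen_mono h9 ((hφ U).1.inter (hφ V).1)
      have h9 : IsClosed ((MonoidHom.eqLocus (μ.comp (φ U)) (φ V) : Subgroup G) : Set G) :=
        Subgroup.isClosed_of_isOpen _ h8
      have h10 := (h6.mono h7).closure_eq
      rw [h9.closure_eq] at h10
      ext z
      have h11 : z ∈ ((MonoidHom.eqLocus (μ.comp (φ U)) (φ V) : Subgroup G) : Set G) := by
        rw [h10]
        trivial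
      exact h11
    rw [← h5, MonoidHom.comp_apply, ← hb]
    rfl
  have hlim : ∀ g : G, ∃ b : G', ∀ U : {U : Subgroup G' // U ∈ ON G'},
      QuotientGroup.mk b = φ U g := by
    intro g
    have hne : (⋂ U : {U : Subgroup G' // U ∈ ON G'},
        {b : G' | QuotientGroup.mk b = φ U g}).Nonempty := by
      haveI : Nonempty {U : Subgroup G' // U ∈ ON G'} := ⟨⟨⊤, inferInstance, isOpen_univ⟩⟩
      have hcl : ∀ U : {U : Subgroup G' // U ∈ ON G'},
          IsClosed {b : G' | QuotientGroup.mk b = φ U g} := by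
        intro U
        obtain ⟨b0, hb0⟩ := QuotientGroup.mk_surjective (φ U g)
        have h5 : {b : G' | QuotientGroup.mk b = φ U g} =
            (fun b => b0⁻¹ * b) ⁻¹' (U.1 : Set G') := by
          ext b
          rw [Set.mem_ofPred_eq, ← hb0, Set.mem_preimage, eq_comm, QuotientGroup.eq]
          rfl
        rw [h5]
        exact (Subgroup.isClosed_of_isOpen _ U.2.2).preimage (continuous_const.mul continuous_id)
      apply IsCompact.nonempty_iInter_of_directed_nonempty_isCompact_isClosed
      · intro U V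
        haveI := U.2.1
        haveI := V.2.1
        refine ⟨⟨U.1 ⊓ V.1, inferInstance, U.2.2.inter V.2.2⟩, ?_, ?_⟩
        · intro b hb
          exact hcomp _ U inf_le_left g b hb
        · intro b hb
          exact hcomp _ V inf_le_right g b hb
      · intro U
        obtain ⟨b0, hb0⟩ := QuotientGroup.mk_surjective (φ U g)
        exact ⟨b0, hb0⟩
      · intro U
        exact (hcl U).isCompact
      · exact hcl
    obtain ⟨b, hb⟩ := hne
    exact ⟨b, fun U => Set.mem_iInter.1 hb U⟩
  have huniq : ∀ (g : G) (b b' : G'), (∀ U : {U : Subgroup G' // U ∈ ON G'},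
      QuotientGroup.mk b = φ U g) → (∀ U : {U : Subgroup G' // U ∈ ON G'},
      QuotientGroup.mk b' = φ U g) → b = b' := by
    intro g b b' hb hb'
    have h5 : b⁻¹ * b' = 1 := by
      apply sep_of_profinite G'
      intro U hU
      have h6 : (QuotientGroup.mk b : G' ⧸ U) = QuotientGroup.mk b' :=
        (hb ⟨U, hU⟩).trans (hb' ⟨U, hU⟩).symm
      exact QuotientGroup.eq.1 h6
    exact inv_mul_eq_one.1 h5
  choose Ψ hΨ using hlim
  let Ψ' : G →* G' := MonoidHom.mk' Ψ (by
    intro g g'
    apply huniq (g * g') _ _ (hΨ (g * g'))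
    intro U
    haveI := U.2.1
    rw [map_mul, ← hΨ g U, ← hΨ g' U]
    rfl)
  refine ⟨Ψ', ?_, ?_, ?_⟩
  · apply continuous_of_continuousAt_one Ψ'
    intro W hW
    rw [map_one] at hW
    obtain ⟨V, hVO, hVW⟩ := nhds_ON hW
    rw [Filter.mem_map]
    refine Filter.mem_of_superset ((hφ ⟨V, hVO⟩).1.mem_nhds (one_mem _)) ?_
    intro g hg
    apply hVW
    have h5 : φ ⟨V, hVO⟩ g = 1 := hg
    have h6 := hΨ g ⟨V, hVO⟩
    rw [h5] at h6
    haveI := hVO.1
    exact (QuotientGroup.eq_one_iff (N := V) (Ψ g)).1 h6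
  · intro j
    apply huniq (t j) _ _ (hΨ (t j))
    intro U
    exact ((hφ U).2.1 j).symm
  · intro i
    apply huniq (x i) _ _ (hΨ (x i))
    intro U
    exact ((hφ U).2.2 i).symm

/-- **Groups with the same presentation are isomorphic.** -/
theorem exists_iso_pres (hG : IsPresented C t x) (hG' : IsPresented C t' x') :
    ∃ Ψ : G ≃ₜ* G', (∀ j, Ψ (t j) = t' j) ∧ ∀ i, Ψ (x i) = x' i := by
  obtain ⟨Ψ, hΨ, hΨt, hΨx⟩ := exists_hom_pres hG hG'
  obtain ⟨Θ, hΘ, hΘt, hΘx⟩ := exists_hom_pres hG' hG
  have h1 : ∀ g, Θ (Ψ g) = g := by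
    have h2 : Set.EqOn (fun g => Θ (Ψ g)) (fun g => g)
        ((Subgroup.closure (Set.range t ∪ Set.range x) : Subgroup G) : Set G) := by
      have h3 : Subgroup.closure (Set.range t ∪ Set.range x) ≤
          MonoidHom.eqLocus (Θ.comp Ψ) (MonoidHom.id G) := by
        rw [Subgroup.closure_le]
        rintro _ (⟨j, rfl⟩ | ⟨i, rfl⟩)
        · change Θ (Ψ (t j)) = t j
          rw [hΨt, hΘt]
        · change Θ (Ψ (x i)) = x i
          rw [hΨx, hΘx]
      intro g hg
      exact h3 hg
    have h3 := Continuous.ext_on hG.2.1 (hΘ.comp hΨ) continuous_id h2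
    intro g
    exact congrFun h3 g
  have h2 : ∀ g, Ψ (Θ g) = g := by
    have h2 : Set.EqOn (fun g => Ψ (Θ g)) (fun g => g)
        ((Subgroup.closure (Set.range t' ∪ Set.range x') : Subgroup G') : Set G') := by
      have h3 : Subgroup.closure (Set.range t' ∪ Set.range x') ≤
          MonoidHom.eqLocus (Ψ.comp Θ) (MonoidHom.id G') := by
        rw [Subgroup.closure_le]
        rintro _ (⟨j, rfl⟩ | ⟨i, rfl⟩)
        · change Ψ (Θ (t' j)) = t' j
          rw [hΘt, hΨt]
        · change Ψ (Θ (x' i)) = x' i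
          rw [hΘx, hΨx]
      intro g hg
      exact h3 hg
    have h3 := Continuous.ext_on hG'.2.1 (hΨ.comp hΘ) continuous_id h2
    intro g
    exact congrFun h3 g
  exact ⟨{ toFun := Ψ, invFun := Θ, left_inv := h1, right_inv := h2, map_mul' := Ψ.map_mul
           continuous_toFun := hΨ, continuous_invFun := hΘ }, hΨt, hΨx⟩

end uniq

end Pool.Agent.H87.Fpc
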