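import Pool.Agent.H87.Fpc.RelMain

/-!
# Infinite embedding problems
-/

set_option autoImplicit false

namespace Pool.Agent.H87.Fpc

open Function

/-- A topological group `G` over `P`, with a countable base at `1`, all finite quotients of the kernel
by open subgroups which are normal in `G` belong to `C`. -/
structure QR (C : ∀ (G : Type) [Group G], Prop) {G P : Type} [Group G] [Group P]
    [TopologicalSpace G] [TopologicalSpace P] (π : G →* P) : Prop where
  sur : Surjective π
  con : Continuous π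
  cls : ∀ (A : Type) [Group A] (q : G →* A), Surjective q → IsOpen (q.ker : Set G) →
    C (π.ker.map q)
  cnt : ∃ u : ℕ → Subgroup G, (∀ n, u n ∈ ON G) ∧ ∀ U ∈ ON G, ∃ n, u n ≤ U

section bf

variable {C : ∀ (G : Type) [Group G], Prop} {F G P : Type} [Group F] [Group G] [Group P]
  [TopologicalSpace F] [TopologicalSpace G] [TopologicalSpace P]
  [IsTopologicalGroup F] [IsTopologicalGroup G] [IsTopologicalGroup P]
  [CompactSpace F] [CompactSpace G] [CompactSpace P] [T2Space P]

omit [CompactSpace F] [IsTopologicalGroup P] [CompactSpace P] in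
theorem forthQ (hC : ∀ (A B : Type) [Group A] [Group B] (f : A →* B), Injective f →
      f.range.Normal → C B → C A) {π : F →* P} {π' : G →* P} (hF : PcR C π) (hG : QR C π')
    {R : Subgroup (F × G)} (hR : FibR π π' R) {U : Subgroup G} (hU : U ∈ ON G) :
    ∃ R' ≤ R, FibR π π' R' ∧ ∀ b, ((1 : F), b) ∈ R' → b ∈ U := by
  obtain ⟨A, iA, f, g, hf, hg, hfO, hgO, hm, hl, hr⟩ := hR
  obtain ⟨hUn, hUo⟩ := hU
  let V : Subgroup G := U ⊓ g.ker
  have hVo : IsOpen (V : Set G) := hUo.inter hgO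
  have hQo : IsOpen ((V.map π' : Subgroup P) : Set P) := isOpen_map_of hG.sur hG.con hVo
  have hQn : (V.map π').Normal := Subgroup.Normal.map inferInstance π' hG.sur
  let δ : G →* A × (P ⧸ V.map π') := g.prod ((QuotientGroup.mk' (V.map π')).comp π')
  let D : Subgroup (A × (P ⧸ V.map π')) := δ.range
  let q : G →* G ⧸ V := QuotientGroup.mk' V
  have hq : Surjective q := QuotientGroup.mk'_surjective V
  have hqk : ∀ x, q x = 1 ↔ x ∈ V := fun x => by
    rw [QuotientGroup.mk'_apply, QuotientGroup.eq_one_iff]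
  obtain ⟨α, hα⟩ := exists_fac q hq δ.rangeRestrict (fun x hx => by
    have h1 : x ∈ V := (hqk x).1 hx
    apply Subtype.ext
    change (g x, (QuotientGroup.mk' (V.map π')) (π' x)) = 1
    have h2 : g x = 1 := h1.2
    have h3 : (QuotientGroup.mk' (V.map π')) (π' x) = 1 := by
      rw [QuotientGroup.mk'_apply, QuotientGroup.eq_one_iff]
      exact Subgroup.mem_map_of_mem π' h1
    rw [h2, h3]
    rfl)
  have hαs : Surjective α := by
    intro d
    obtain ⟨x, rfl⟩ := δ.rangeRestrict_surjective d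
    exact ⟨q x, hα x⟩
  let β' : F →* A × (P ⧸ V.map π') := f.prod ((QuotientGroup.mk' (V.map π')).comp π)
  have hβδ : ∀ a b, (a, b) ∈ R → β' a = δ b := by
    intro a b hab
    obtain ⟨h1, h2⟩ := (hm a b).1 hab
    change (f a, (QuotientGroup.mk' (V.map π')) (π a)) =
      (g b, (QuotientGroup.mk' (V.map π')) (π' b))
    rw [h1, h2]
  have hβD : ∀ a, β' a ∈ D := by
    intro a
    obtain ⟨b, hb⟩ := hl a
    exact ⟨b, (hβδ a b hb).symm⟩
  let β : F →* D := β'.codRestrict D hβD
  have hβR : ∀ a b, (a, b) ∈ R → β a = α (q b) := by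
    intro a b hab
    rw [hα]
    exact Subtype.ext (hβδ a b hab)
  have hβs : Surjective β := by
    rintro ⟨_, b, rfl⟩
    obtain ⟨a, ha⟩ := hr b
    exact ⟨a, Subtype.ext (hβδ a b ha)⟩
  have hβo : IsOpen (β.ker : Set F) := by
    have h1 : (f.ker ⊓ (V.map π').comap π) ≤ β.ker := by
      rintro x ⟨hx1, hx2⟩
      apply Subtype.ext
      change (f x, (QuotientGroup.mk' (V.map π')) (π x)) = 1
      have h2 : f x = 1 := hx1
      have h3 : (QuotientGroup.mk' (V.map π')) (π x) = 1 := by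
        rw [QuotientGroup.mk'_apply, QuotientGroup.eq_one_iff]
        exact hx2
      rw [h2, h3]
      rfl
    refine Subgroup.isOpen_mono h1 ?_
    exact hfO.inter (hQo.preimage hF.con)
  have hαk : α.ker ≤ π'.ker.map q := by
    intro e he
    obtain ⟨y, rfl⟩ := hq e
    have h1 : δ.rangeRestrict y = 1 := by
      rw [← hα]
      exact he
    have h2 : (g y, (QuotientGroup.mk' (V.map π')) (π' y)) = 1 := congrArg Subtype.val h1
    have h3 : (QuotientGroup.mk' (V.map π')) (π' y) = 1 := congrArg Prod.snd h2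
    rw [QuotientGroup.mk'_apply, QuotientGroup.eq_one_iff] at h3
    obtain ⟨v, hv, hvy⟩ := h3
    refine ⟨y * v⁻¹, ?_, ?_⟩
    · rw [SetLike.mem_coe, MonoidHom.mem_ker, map_mul, map_inv, hvy, mul_inv_cancel]
    · rw [map_mul, map_inv, (hqk v).2 hv, inv_one, mul_one]
  have hqo : IsOpen (q.ker : Set G) := by
    have h1 : q.ker = V := by
      ext x
      rw [MonoidHom.mem_ker]
      exact hqk x
    rw [h1]
    exact hVo
  have hCk : C α.ker := by
    refine hC _ _ (Subgroup.inclusion hαk) (Subgroup.inclusion_injective hαk) ?_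
      (hG.cls _ q hq hqo)
    constructor
    rintro x ⟨e, rfl⟩ y
    refine ⟨⟨y.1 * e.1 * y.1⁻¹, ?_⟩, rfl⟩
    exact (inferInstance : α.ker.Normal).conj_mem e.1 e.2 y.1
  obtain ⟨γ, hγs, hγo, hγ, hγk⟩ := hF.emb (G ⧸ V) D α β hαs hβs hCk hβo
  refine ⟨(MonoidHom.eqLocus (γ.comp (MonoidHom.fst F G)) (q.comp (MonoidHom.snd F G))) ⊓
    (MonoidHom.eqLocus (π.comp (MonoidHom.fst F G)) (π'.comp (MonoidHom.snd F G))), ?_,
    ⟨G ⧸ V, inferInstance, γ, q, hγs, hq, hγo, hqo, fun a b => Iff.rfl, ?_, ?_⟩, ?_⟩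
  · rintro ⟨a, b⟩ ⟨h1, h2⟩
    have h1' : γ a = q b := h1
    have h2' : π a = π' b := h2
    rw [hm]
    refine ⟨?_, h2'⟩
    have h3 : β a = α (q b) := by rw [← hγ, h1']
    rw [hα] at h3
    exact congrArg Prod.fst (congrArg Subtype.val h3)
  · intro a
    obtain ⟨b0, hb0⟩ := hl a
    have h1 : (q b0)⁻¹ * γ a ∈ α.ker := by
      rw [MonoidHom.mem_ker, map_mul, map_inv, hγ, hβR a b0 hb0, inv_mul_cancel]
    obtain ⟨n, hn1, hn2⟩ := hαk h1
    refine ⟨b0 * n, ?_, ?_⟩
    · change γ a = q (b0 * n)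
      rw [map_mul, hn2, mul_inv_cancel_left]
    · change π a = π' (b0 * n)
      have h2 : π' n = 1 := hn1
      rw [map_mul, h2, mul_one]
      exact ((hm a b0).1 hb0).2
  · intro b
    obtain ⟨a0, ha0⟩ := hr b
    have h1 : (γ a0)⁻¹ * q b ∈ α.ker := by
      rw [MonoidHom.mem_ker, map_mul, map_inv, hγ, hβR a0 b ha0, inv_mul_cancel]
    obtain ⟨n, hn1, hn2⟩ := hγk h1
    refine ⟨a0 * n, ?_, ?_⟩
    · change γ (a0 * n) = q b
      rw [map_mul, hn2, mul_inv_cancel_left]
    · change π (a0 * n) = π' b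
      have h2 : π n = 1 := hn1
      rw [map_mul, h2, mul_one]
      exact ((hm a0 b).1 ha0).2
  · rintro b ⟨hb, -⟩
    have h1 : γ 1 = q b := hb
    rw [map_one] at h1
    exact ((hqk b).1 h1.symm).1


omit [CompactSpace F] [IsTopologicalGroup P] [CompactSpace P] in
theorem exists_seqQ (hC : ∀ (A B : Type) [Group A] [Group B] (f : A →* B), Injective f →
      f.range.Normal → C B → C A) {π : F →* P} {π' : G →* P} (hF : PcR C π) (hG : QR C π') :
    ∃ R : ℕ → Subgroup (F × G), Antitone R ∧ (∀ n, FibR π π' (R n)) ∧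
      ∀ V ∈ ON G, ∃ n, ∀ b, ((1 : F), b) ∈ R n → b ∈ V := by
  obtain ⟨v, hv, hv'⟩ := hG.cnt
  have h0 : FibR π π' (MonoidHom.eqLocus (π.comp (MonoidHom.fst F G))
      (π'.comp (MonoidHom.snd F G))) := by
    refine ⟨Unit, inferInstance, 1, 1, fun a => ⟨1, rfl⟩, fun a => ⟨1, rfl⟩, ?_, ?_,
      fun a b => ⟨fun h => ⟨rfl, h⟩, fun h => h.2⟩, fun a => ?_, fun b => ?_⟩
    · rw [MonoidHom.ker_one]
      exact isOpen_univ
    · rw [MonoidHom.ker_one]
      exact isOpen_univ
    · obtain ⟨b, hb⟩ := hG.sur (π a)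
      exact ⟨b, hb.symm⟩
    · obtain ⟨a, ha⟩ := hF.sur (π' b)
      exact ⟨a, ha⟩
  choose! s hs1 hs2 hs3 using fun (n : ℕ) (R : Subgroup (F × G)) (hR : FibR π π' R) =>
    forthQ hC hF hG hR (hv n)
  let R : ℕ → Subgroup (F × G) := fun n => Nat.rec (MonoidHom.eqLocus
    (π.comp (MonoidHom.fst F G)) (π'.comp (MonoidHom.snd F G))) (fun n R => s n R) n
  have hR : ∀ n, FibR π π' (R n) := by
    intro n
    induction n with
    | zero => exact h0
    | succ n ih => exact hs2 n (R n) ih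
  have hanti : Antitone R := antitone_nat_of_succ_le fun n => hs1 n (R n) (hR n)
  refine ⟨R, hanti, hR, ?_⟩
  intro V hV
  obtain ⟨n, hn⟩ := hv' V hV
  exact ⟨n + 1, fun a ha => hn (hs3 n (R n) (hR n) a ha)⟩

end bf

/-- **Infinite embedding problems.** -/
theorem exists_surj {C : ∀ (G : Type) [Group G], Prop}
    (hC : ∀ (A B : Type) [Group A] [Group B] (f : A →* B), Injective f →
      f.range.Normal → C B → C A) {F G P : Type} [Group F] [Group G] [Group P]
    [TopologicalSpace F] [TopologicalSpace G] [TopologicalSpace P]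
    [IsTopologicalGroup F] [IsTopologicalGroup G] [IsTopologicalGroup P]
    [CompactSpace F] [CompactSpace G] [CompactSpace P] [T2Space P] [T2Space G]
    [TotallyDisconnectedSpace G]
    {π : F →* P} {π' : G →* P} (hF : PcR C π) (hG : QR C π') :
    ∃ θ : F →* G, Surjective θ ∧ Continuous θ ∧ ∀ x, π' (θ x) = π x := by
  obtain ⟨R, hanti, hR, hV⟩ := exists_seqQ hC hF hG
  obtain ⟨θ, hθ⟩ := exists_homR hG.con (sep_of_profinite G) R hanti hR hV
  have hdiv : ∀ (n : ℕ) (a a' : F) (b b' : G), (a, b) ∈ R n → (a', b') ∈ R n →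
      (a⁻¹ * a', b⁻¹ * b') ∈ R n := by
    intro n a a' b b' h h'
    exact (R n).mul_mem ((R n).inv_mem h) h'
  have huniq : ∀ (a : F) (b b' : G), (∀ n, (a, b) ∈ R n) → (∀ n, (a, b') ∈ R n) → b = b' := by
    intro a b b' h h'
    have h2 : b⁻¹ * b' = 1 := by
      apply sep_of_profinite G
      intro U hU'
      obtain ⟨n, hn⟩ := hV U hU'
      apply hn
      have h3 := hdiv n a a b b' (h n) (h' n)
      rwa [inv_mul_cancel] at h3
    exact inv_mul_eq_one.1 h2
  have hc : Continuous θ := by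
    apply continuous_of_continuousAt_one θ
    intro W hW
    rw [map_one] at hW
    obtain ⟨V, hVO, hVW⟩ := nhds_ON hW
    obtain ⟨n, hn⟩ := hV V hVO
    obtain ⟨A, iA, f, g, hf, hg, hfO, hgO, hm, hl, hr⟩ := hR n
    let Q : Subgroup G := g.ker ⊓ V
    have hQ : IsOpen ((Q.map π' : Subgroup P) : Set P) :=
      isOpen_map_of hG.sur hG.con (hgO.inter hVO.2)
    have h1 : ((f.ker ⊓ (Q.map π').comap π : Subgroup F) : Set F) ∈ nhds (1 : F) :=
      (hfO.inter (hQ.preimage hF.con)).mem_nhds (one_mem (f.ker ⊓ (Q.map π').comap π))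
    rw [Filter.mem_map]
    refine Filter.mem_of_superset h1 ?_
    rintro a ⟨ha1, ha2⟩
    apply hVW
    obtain ⟨v, ⟨hv1, hv2⟩, hv3⟩ := ha2
    have h4 := (hm a (θ a)).1 (hθ a n)
    have h5 : θ a * v⁻¹ ∈ V := by
      apply hn
      rw [hm, map_one, map_one, map_mul, map_mul, ← h4.1, ← h4.2, map_inv, map_inv, hv3,
        mul_inv_cancel]
      have h6 : f a = 1 := ha1
      have h7 : g v = 1 := hv1
      rw [h6, h7]
      exact ⟨by rw [inv_one, mul_one], rfl⟩
    have h8 := V.mul_mem h5 hv2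
    rwa [inv_mul_cancel_right] at h8
  refine ⟨θ, ?_, hc, ?_⟩
  · intro b
    have hcl : ∀ n, IsClosed {a : F | (a, b) ∈ R n} := by
      intro n
      obtain ⟨A, iA, f, g, hf, hg, hfO, hgO, hm, hl, hr⟩ := hR n
      have h1 : {a : F | (a, b) ∈ R n} = {a : F | f a = g b} ∩ {a : F | π a = π' b} := by
        ext a
        exact hm a b
      rw [h1]
      obtain ⟨a0, ha0⟩ := hf (g b)
      have h2 : {a : F | f a = g b} = (fun a => a0⁻¹ * a) ⁻¹' (f.ker : Set F) := by
        ext a
        rw [Set.mem_ofPred_eq, Set.mem_preimage, SetLike.mem_coe, MonoidHom.mem_ker, map_mul,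
          map_inv, ha0, inv_mul_eq_one]
        exact eq_comm
      rw [h2]
      have h3 : IsClosed (f.ker : Set F) := Subgroup.isClosed_of_isOpen _ hfO
      exact (h3.preimage (continuous_const.mul continuous_id)).inter
        (isClosed_eq hF.con continuous_const)
    have hne : (⋂ n, {a : F | (a, b) ∈ R n}).Nonempty := by
      apply IsCompact.nonempty_iInter_of_sequence_nonempty_isCompact_isClosed
      · intro n a ha
        exact hanti (Nat.le_succ n) ha
      · intro n
        obtain ⟨A, iA, f, g, hf, hg, hfO, hgO, hm, hl, hr⟩ := hR n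
        exact hr b
      · exact (hcl 0).isCompact
      · exact hcl
    obtain ⟨a, ha⟩ := hne
    exact ⟨a, huniq a _ _ (fun n => hθ a n) (fun n => Set.mem_iInter.1 ha n)⟩
  · intro x
    obtain ⟨A, iA, f, g, hf, hg, hfO, hgO, hm, hl, hr⟩ := hR 0
    exact ((hm x (θ x)).1 (hθ x 0)).2.symm

/-- **The field of a continuous epimorphism.** -/
theorem exists_field_inf {L N M E : Type} [Field L] [Field N] [Field M] [Algebra L N]
    [Algebra L M] [Algebra N M] [IsScalarTower L N M] [Normal L N] [IsGalois L M] [Group E]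
    [TopologicalSpace E] [T2Space E] (ε : E →* (N ≃ₐ[L] N)) (θ : (M ≃ₐ[L] M) →* E)
    (hθ : Surjective θ) (hc : Continuous θ)
    (h : ∀ σ : M ≃ₐ[L] M, ε (θ σ) = σ.restrictNormal N) :
    ∃ (F : Type) (_ : Field F) (_ : Algebra L F) (_ : Algebra N F) (_ : IsScalarTower L N F),
      IsGalois L F ∧ ∃ γ : (F ≃ₐ[L] F) ≃ₜ* E, ∀ (σ : F ≃ₐ[L] F) (x : N),
        σ (algebraMap N F x) = algebraMap N F (ε (γ σ) x) := by
  have hcl : IsClosed (θ.ker : Set (M ≃ₐ[L] M)) := by
    have h1 : (θ.ker : Set (M ≃ₐ[L] M)) = θ ⁻¹' {1} := by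
      ext σ
      exact MonoidHom.mem_ker
    rw [h1]
    exact isClosed_singleton.preimage hc
  let U : ClosedSubgroup (M ≃ₐ[L] M) := ⟨θ.ker, hcl⟩
  let F : IntermediateField L M := IntermediateField.fixedField θ.ker
  have hF : F.fixingSubgroup = θ.ker := InfiniteGalois.fixingSubgroup_fixedField U
  haveI hFG : IsGalois L F := by
    rw [← InfiniteGalois.normal_iff_isGalois, hF]
    infer_instance
  let r : (M ≃ₐ[L] M) →* (F ≃ₐ[L] F) := AlgEquiv.restrictNormalHom F
  have hr : Surjective r := AlgEquiv.restrictNormalHom_surjective M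
  have hrk : r.ker = θ.ker := by
    rw [← hF]
    exact IntermediateField.restrictNormalHom_ker F
  obtain ⟨e, he⟩ := exists_fac r hr θ (fun x hx => by
    have h1 : x ∈ θ.ker := by rw [← hrk]; exact hx
    exact h1)
  have hei : Injective e := by
    rw [injective_iff_map_eq_one]
    intro a ha
    obtain ⟨σ, rfl⟩ := hr a
    rw [he] at ha
    have h1 : σ ∈ r.ker := by rw [hrk]; exact ha
    exact h1
  have hes : Surjective e := by
    intro τ
    obtain ⟨σ, rfl⟩ := hθ τ
    exact ⟨r σ, he σ⟩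
  haveI : T2Space (F ≃ₐ[L] F) := krullTopology_t2
  have hrc : Continuous r := continuous_restrict
  have hec : Continuous e := by
    have h1 : Topology.IsQuotientMap r := hrc.isClosedMap.isQuotientMap hrc hr
    rw [h1.continuous_iff]
    have h2 : (e : (F ≃ₐ[L] F) → E) ∘ r = θ := funext he
    rw [h2]
    exact hc
  let e' : (F ≃ₐ[L] F) ≃* E := MulEquiv.ofBijective e ⟨hei, hes⟩
  let e'' : (F ≃ₐ[L] F) ≃ₜ E := Continuous.homeoOfEquivCompactToT2 (f := e'.toEquiv) hec
  let γ : (F ≃ₐ[L] F) ≃ₜ* E :=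
    { e' with continuous_toFun := hec, continuous_invFun := e''.symm.continuous }
  let j : N →ₐ[L] M := IsScalarTower.toAlgHom L N M
  have hjF : ∀ x : N, j x ∈ F := by
    intro x
    rw [IntermediateField.mem_fixedField_iff]
    intro σ hσ
    have h1 : θ σ = 1 := hσ
    have h2 : σ.restrictNormal N = 1 := by
      rw [← h, h1, map_one]
    have h4 := σ.restrictNormal_commutes N x
    rw [h2] at h4
    exact h4.symm
  let j' : N →ₐ[L] F := j.codRestrict F.toSubalgebra hjF
  letI : Algebra N F := j'.toRingHom.toAlgebra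
  haveI t3 : IsScalarTower L N F := IsScalarTower.of_algebraMap_eq fun x => (j'.commutes x).symm
  haveI t4 : IsScalarTower N F M := IsScalarTower.of_algebraMap_eq fun x => rfl
  refine ⟨F, inferInstance, inferInstance, inferInstance, t3, hFG, γ, fun σ' x => ?_⟩
  obtain ⟨σ, rfl⟩ := hr σ'
  have h1 : γ (r σ) = θ σ := he σ
  rw [h1, h]
  apply (algebraMap F M).injective
  have h2 : algebraMap F M (r σ (algebraMap N F x)) = σ (algebraMap F M (algebraMap N F x)) :=
    σ.restrictNormal_commutes F (algebraMap N F x)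
  rw [h2, ← IsScalarTower.algebraMap_apply N F M, ← IsScalarTower.algebraMap_apply N F M]
  exact (σ.restrictNormal_commutes N x).symm

end Pool.Agent.H87.Fpc
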