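import Pool.Agent.H87.Fpc.RelEx
import Pool.Agent.H87.Fpc.Fac

/-!
# Isomorphisms of Galois groups lift to the Galois groups of the maximal pro-`C` extensions
-/

set_option autoImplicit false

namespace Pool.Agent.H87.Fpc

open Function
open Pool.Agent.Y60.DC (CompIn)
open Pool.Agent.K7.H53.LD (FactorL StepL)

section sol

variable {Φ : ∀ (T : Type) [Group T], Prop}

theorem solR {p : ℕ} [Fact p.Prime]
    (hΦ : ∀ (T : Type) [Group T], Φ T → FactorL p T) (K : Type) [Field K] [CharP K p]
    (hK : Pool.Agent.TH377.IG.SpecProp K) (N E : Type) [Field N] [Algebra K N]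
    [FiniteDimensional K N] [IsGalois K N] [Group E] (α : E →* (N ≃ₐ[K] N)) (_ : Finite E)
    (hα : Surjective α) (hk : InC Φ α.ker) : Sol K N E α := by
  have h2 : CompIn (FactorL p) α.ker := Pool.Agent.Y60.DCF.compIn_mono
    (fun T _ h => hΦ T h) hk.2
  exact Pool.Agent.K7.H53.LD.stepL_proper p hK N E α (StepL.kernel α hα hk.1 h2)

end sol

/-- a group with nonabelian composition factors which is solvable -/
theorem subsingleton_of_solvable {Φ : ∀ (T : Type) [Group T], Prop}
    (hΦ : ∀ (T : Type) [Group T], Φ T → IsSimpleGroup T ∧ ∃ a b : T, a * b ≠ b * a)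
    {A : Type} [iA : Group A] (h : CompIn Φ A) (hs : Group.IsSolvable A) : Subsingleton A := by
  cases h with
  | one _ h => exact h
  | ext _ M hM hS =>
    exfalso
    obtain ⟨h1, a, b, hab⟩ := hΦ _ hS
    have h2 : Group.IsSolvable (A ⧸ M) := inferInstance
    exact hab ((IsSimpleGroup.comm_iff_isSolvable (G := A ⧸ M)).2 h2 a b)

section pc

variable {C : ∀ (G : Type) [Group G], Prop} {K L M : Type} [Field K] [Field L] [Field M]
  [Algebra K L] [Algebra K M] [Algebra L M] [IsScalarTower K L M] [IsGalois K L]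
  [IsGalois K M] [Countable K]

theorem pcR_gal (hC : Good C) (hM : IsMaxProC C L M) (hP : IsSmallFor C (L ≃ₐ[K] L))
    (hsol : ∀ (N E : Type) [Field N] [Algebra K N] [FiniteDimensional K N] [IsGalois K N]
      [Group E] (α : E →* (N ≃ₐ[K] N)), Finite E → Surjective α → C α.ker → Sol K N E α)
    {P : Type} [Group P] [TopologicalSpace P] (φ : (L ≃ₐ[K] L) ≃ₜ* P) :
    PcR C ((φ : (L ≃ₐ[K] L) →* P).comp
      (AlgEquiv.restrictNormalHom (K₁ := M) L : (M ≃ₐ[K] M) →* (L ≃ₐ[K] L))) := by
  have hker : ((φ : (L ≃ₐ[K] L) →* P).comp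
      (AlgEquiv.restrictNormalHom (K₁ := M) L : (M ≃ₐ[K] M) →* (L ≃ₐ[K] L))).ker =
      (AlgEquiv.restrictNormalHom (K₁ := M) L : (M ≃ₐ[K] M) →* (L ≃ₐ[K] L)).ker := by
    ext σ
    rw [MonoidHom.mem_ker, MonoidHom.mem_ker]
    exact map_eq_one_iff φ φ.injective
  refine ⟨φ.surjective.comp (AlgEquiv.restrictNormalHom_surjective M),
    φ.continuous.comp continuous_restrict, ?_, ?_, ?_⟩
  · intro A _ q hq hqo
    rw [hker]
    exact cls_gal (L := L) hC hM.2.1 A q hqo
  · intro E D _ _ α β hα hβ hk hβo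
    rw [hker]
    haveI hG : IsGalois L M := hM.1
    let S := SeparableClosure M
    haveI hsep : Algebra.IsSeparable K S := Algebra.IsSeparable.trans K M S
    haveI hsepL : Algebra.IsSeparable L S := Algebra.IsSeparable.trans L M S
    haveI : IsSepClosure K S := ⟨inferInstance, hsep⟩
    haveI : IsSepClosure L S := ⟨inferInstance, hsepL⟩
    haveI hKS : IsGalois K S := IsSepClosure.isGalois
    haveI hLS : IsGalois L S := IsSepClosure.isGalois
    haveI : IsScalarTower K L S := by
      refine IsScalarTower.of_algebraMap_eq fun x => ?_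
      rw [IsScalarTower.algebraMap_apply K M S, IsScalarTower.algebraMap_apply L M S,
        ← IsScalarTower.algebraMap_apply K L M]
    exact emb_galR S hC hM hP hsol E D α β hα hβ hk hβo
  · obtain ⟨u, hu⟩ := (countable_ON K M).exists_eq_range ⟨⊤, inferInstance, isOpen_univ⟩
    refine ⟨u, fun n => ?_, ?_⟩
    · rw [hu]
      exact ⟨n, rfl⟩
    · intro U hU
      rw [hu] at hU
      obtain ⟨n, hn⟩ := hU
      exact ⟨n, hn.le⟩

end pc

end Pool.Agent.H87.Fpc
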