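import Pool.Agent.H87.Fpc.RelS
import Pool.Agent.H87.Fpc.RelMain

/-!
# Embedding problems over extensions with small Galois groups
-/

set_option autoImplicit false

namespace Pool.Agent.H87.Fpc

open Function
open Pool.Agent.Y60.DC (CompIn)

/-- **Embedding problems over `L`.** -/
theorem sol_sub {C : ∀ (G : Type) [Group G], Prop} (hC : Good C) {K L H : Type} [Field K]
    [Field L] [Field H] [Algebra K L] [Algebra K H] [Algebra L H] [IsScalarTower K L H]
    [IsGalois K H] (hP : IsSmallFor C (H ≃ₐ[K] H))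
    (hsol : ∀ (N E : Type) [Field N] [Algebra K N] [FiniteDimensional K N] [IsGalois K N]
      [Group E] (α : E →* (N ≃ₐ[K] N)), Finite E → Surjective α → C α.ker → Sol K N E α)
    (N E : Type) [Field N] [Algebra L N] [FiniteDimensional L N] [IsGalois L N] [Group E]
    (α : E →* (N ≃ₐ[L] N)) (hα : Surjective α) (hk : C α.ker) : Sol L N E α := by
  let S := SeparableClosure H
  haveI hsep : Algebra.IsSeparable K S := Algebra.IsSeparable.trans K H S
  haveI : IsSepClosure K S := ⟨inferInstance, hsep⟩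
  haveI hKS : IsGalois K S := IsSepClosure.isGalois
  haveI t1 : IsScalarTower K L S := by
    refine IsScalarTower.of_algebraMap_eq fun x => ?_
    rw [IsScalarTower.algebraMap_apply K H S, IsScalarTower.algebraMap_apply L H S,
      ← IsScalarTower.algebraMap_apply K L H]
  haveI hLS : IsGalois L S := IsGalois.tower_top_of_isGalois K L S
  let j : N →ₐ[L] S := IsSepClosed.lift
  letI : Algebra N S := j.toRingHom.toAlgebra
  haveI t2 : IsScalarTower L N S := IsScalarTower.of_algebraMap_eq fun x => (j.commutes x).symm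
  let β : (S ≃ₐ[L] S) →* (N ≃ₐ[L] N) := AlgEquiv.restrictNormalHom N
  have hβ : Surjective β := AlgEquiv.restrictNormalHom_surjective S
  have hβo : IsOpen (β.ker : Set (S ≃ₐ[L] S)) := isOpen_ker_restrict N
  let ι : (S ≃ₐ[L] S) →* (S ≃ₐ[K] S) := AlgEquiv.restrictScalarsHom K
  let π : (S ≃ₐ[K] S) →* (H ≃ₐ[K] H) := AlgEquiv.restrictNormalHom H
  have hι : ∀ g, π g = 1 → ∃ h, ι h = g := by
    intro g hg
    refine ⟨AlgEquiv.ofRingEquiv (f := g.toRingEquiv) (fun x => ?_), ?_⟩
    · have h1 := g.restrictNormal_commutes H (algebraMap L H x)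
      have h2 : g.restrictNormal H = 1 := hg
      rw [h2] at h1
      change g (algebraMap L S x) = algebraMap L S x
      rw [IsScalarTower.algebraMap_apply L H S]
      exact h1.symm
    · apply AlgEquiv.ext
      intro x
      rfl
  obtain ⟨W, hW, hW'⟩ := exists_open_scalars (K := K) hβo
  obtain ⟨γ, hγs, ⟨W', hWn, hW''⟩, hγ⟩ := emb_sub hC π
    (fun E' D' _ _ α' β' h1 h2 h3 h4 => emb_galS (L := H) hC hP hsol E' D' α' β' h1 h2 h3 h4)
    ι hι E (N ≃ₐ[L] N) α β hα hβ hk ⟨W, hW, fun h hh => hW' h hh⟩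
  have hγo : IsOpen (γ.ker : Set (S ≃ₐ[L] S)) := by
    have h1 : W'.comap ι ≤ γ.ker := fun x hx => hW'' x hx
    exact Subgroup.isOpen_mono h1 (isOpen_comap_scalars hWn.2)
  obtain ⟨T, hT1, hT2, e, hTk, he⟩ := exists_field γ hγs hγo
  have hjT : ∀ x : N, j x ∈ T := by
    intro x
    rw [← InfiniteGalois.fixedField_fixingSubgroup T, IntermediateField.mem_fixedField_iff]
    intro σ hσ
    rw [hTk] at hσ
    have h1 : γ σ = 1 := hσ
    have h2 : σ.restrictNormal N = 1 := by
      have h3 := hγ σ
      rw [h1, map_one] at h3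
      exact h3.symm
    have h4 := σ.restrictNormal_commutes N x
    rw [h2] at h4
    exact h4.symm
  let j' : N →ₐ[L] T := j.codRestrict T.toSubalgebra hjT
  letI : Algebra N T := j'.toRingHom.toAlgebra
  haveI t3 : IsScalarTower L N T := IsScalarTower.of_algebraMap_eq fun x => (j'.commutes x).symm
  haveI t4 : IsScalarTower N T S := IsScalarTower.of_algebraMap_eq fun x => rfl
  refine ⟨T, inferInstance, inferInstance, inferInstance, t3, hT1, hT2, e.symm, fun σ' => ?_⟩
  obtain ⟨σ, rfl⟩ := AlgEquiv.restrictNormalHom_surjective (F := L) (K₁ := T) S σ'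
  have h1 : e.symm (AlgEquiv.restrictNormalHom T σ) = γ σ := by
    rw [MulEquiv.symm_apply_eq]
    exact (he σ).symm
  rw [h1, hγ]
  exact (restrict_restrict (M := S) N T σ).symm

/-- finite groups -/
theorem smallFor_of_finite (C : ∀ (G : Type) [Group G], Prop) (P : Type) [Group P]
    [TopologicalSpace P] [Finite P] : IsSmallFor C P :=
  fun _ _ _ _ => Set.toFinite _

/-- a simple group all of whose composition factors belong to `Ψ` -/
theorem compIn_simple {Ψ : ∀ (T : Type) [Group T], Prop} (hiso : IsoInv Ψ) {A : Type}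
    [iA : Group A] [IsSimpleGroup A] (hΨ : ∀ (T : Type) [Group T], Ψ T → IsSimpleGroup T)
    (h : CompIn Ψ A) : Ψ A := by
  cases h with
  | one _ h =>
    exact absurd h (not_subsingleton A)
  | ext _ M hM hS =>
    haveI := hΨ _ hS
    have h1 : M = ⊥ := by
      rcases IsSimpleGroup.eq_bot_or_eq_top_of_normal M inferInstance with h | h
      · exact h
      · exfalso
        subst h
        exact not_subsingleton (A ⧸ (⊤ : Subgroup A)) QuotientGroup.subsingleton_quotient_top
    subst h1
    exact hiso _ _ ⟨QuotientGroup.quotientBot⟩ hS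

/-- groups with composition factors in two disjoint classes -/
theorem subsingleton_of_disjoint {Φ Ψ : ∀ (T : Type) [Group T], Prop} (hΨi : IsoInv Ψ)
    (hΦ : ∀ (T : Type) [Group T], Φ T → IsSimpleGroup T)
    (hΨ : ∀ (T : Type) [Group T], Ψ T → IsSimpleGroup T)
    (hdis : ∀ (T : Type) [Group T], Φ T → ¬ Ψ T) {A : Type} [iA : Group A] [Finite A]
    (h : CompIn Φ A) (h' : CompIn Ψ A) : Subsingleton A := by
  cases h with
  | one _ h => exact h
  | ext _ M hM hS =>
    exfalso
    haveI := hΦ _ hS
    have h1 : CompIn Ψ (A ⧸ M) := Pool.Agent.Y419.DC.quot hΨi hΨ h' (A ⧸ M)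
      (QuotientGroup.mk' M) (QuotientGroup.mk'_surjective M)
    exact hdis _ hS (compIn_simple hΨi hΨ h1)

/-- groups with other composition factors -/
theorem smallFor_of_disjoint {Φ Ψ : ∀ (T : Type) [Group T], Prop} (hΨi : IsoInv Ψ)
    (hΦ : ∀ (T : Type) [Group T], Φ T → IsSimpleGroup T)
    (hΨ : ∀ (T : Type) [Group T], Ψ T → IsSimpleGroup T)
    (hdis : ∀ (T : Type) [Group T], Φ T → ¬ Ψ T) {P : Type} [Group P] [TopologicalSpace P]
    (hP : ∀ (U : Subgroup P) [U.Normal], IsOpen (U : Set P) → InC Ψ (P ⧸ U)) :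
    IsSmallFor (InC Φ) P := by
  intro V hV hVo n
  refine (Set.finite_singleton V).subset ?_
  rintro U ⟨hUo, hUV, -, hUn, hUC⟩
  haveI h1 : InC Ψ (P ⧸ U) := hP U hUo
  let f : V →* P ⧸ U := (QuotientGroup.mk' U).comp V.subtype
  obtain ⟨g, hg⟩ := exists_fac (QuotientGroup.mk' (U.subgroupOf V))
    (QuotientGroup.mk'_surjective _) f (fun x hx => by
      rw [QuotientGroup.mk'_apply, QuotientGroup.eq_one_iff, Subgroup.mem_subgroupOf] at hx
      change (QuotientGroup.mk' U) x.1 = 1
      rw [QuotientGroup.mk'_apply, QuotientGroup.eq_one_iff]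
      exact hx)
  have hgi : Injective g := by
    rw [injective_iff_map_eq_one]
    intro y hy
    obtain ⟨x, rfl⟩ := QuotientGroup.mk'_surjective _ y
    rw [hg] at hy
    have h2 : (QuotientGroup.mk' U) x.1 = 1 := hy
    rw [QuotientGroup.mk'_apply, QuotientGroup.eq_one_iff] at h2
    rw [QuotientGroup.mk'_apply, QuotientGroup.eq_one_iff, Subgroup.mem_subgroupOf]
    exact h2
  have hgr : g.range.Normal := by
    have h2 : g.range = V.map (QuotientGroup.mk' U) := by
      ext y
      constructor
      · rintro ⟨z, rfl⟩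
        obtain ⟨x, rfl⟩ := QuotientGroup.mk'_surjective _ z
        rw [hg]
        exact ⟨x.1, x.2, rfl⟩
      · rintro ⟨x, hx, rfl⟩
        exact ⟨QuotientGroup.mk' _ ⟨x, hx⟩, hg _⟩
    rw [h2]
    exact Subgroup.Normal.map hV _ (QuotientGroup.mk'_surjective U)
  haveI := hUC.1
  haveI := h1.1
  have h3 : CompIn Ψ (V ⧸ U.subgroupOf V) :=
    Pool.Agent.Y419.DC.sub hΨi hΨ h1.2 (V ⧸ U.subgroupOf V) g hgi hgr
  have h4 := subsingleton_of_disjoint hΨi hΦ hΨ hdis hUC.2 h3
  apply Set.mem_singleton_iff.2
  apply le_antisymm hUV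
  intro x hx
  have h5 : (QuotientGroup.mk' (U.subgroupOf V)) ⟨x, hx⟩ = 1 := Subsingleton.elim _ _
  rw [QuotientGroup.mk'_apply, QuotientGroup.eq_one_iff, Subgroup.mem_subgroupOf] at h5
  exact h5

/-- algebraic extensions of countable fields are countable -/
theorem countable_of_tower (K L H : Type) [Field K] [Field L] [Field H] [Algebra K L]
    [Algebra K H] [Algebra L H] [IsScalarTower K L H] [IsGalois K H] [Countable K] :
    Countable L := by
  haveI : Algebra.IsAlgebraic K L := Algebra.IsAlgebraic.tower_bot K L H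
  rw [← Cardinal.mk_le_aleph0_iff]
  refine (Algebra.IsAlgebraic.cardinalMk_le_max K L).trans ?_
  exact max_le (Cardinal.mk_le_aleph0_iff.2 inferInstance) le_rfl

/-- **The Galois group of the maximal pro-`C` extension of `L`.** -/
theorem pc_sub {C : ∀ (G : Type) [Group G], Prop} (hC : Good C) {K L H M : Type} [Field K]
    [Field L] [Field H] [Field M] [Algebra K L] [Algebra K H] [Algebra L H]
    [IsScalarTower K L H] [Algebra L M] [IsGalois K H] [Countable K]
    (hP : IsSmallFor C (H ≃ₐ[K] H))
    (hsol : ∀ (N E : Type) [Field N] [Algebra K N] [FiniteDimensional K N] [IsGalois K N]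
      [Group E] (α : E →* (N ≃ₐ[K] N)), Finite E → Surjective α → C α.ker → Sol K N E α)
    (hM : IsMaxProC C L M) : Pc C (ON (M ≃ₐ[L] M)) := by
  haveI hcL : Countable L := countable_of_tower K L H
  exact pc_gal hC hM (fun N E _ _ _ _ _ α hE hα => sol_sub (H := H) hC hP hsol N E α hα
    (hC.sub α.ker E α.ker.subtype (Subgroup.subtype_injective _) (by
      rw [Subgroup.range_subtype]
      infer_instance) hE))

theorem free_sub {C : ∀ (G : Type) [Group G], Prop} (hC : Good C) {K L H M : Type} [Field K]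
    [Field L] [Field H] [Field M] [Algebra K L] [Algebra K H] [Algebra L H]
    [IsScalarTower K L H] [Algebra L M] [IsGalois K H] [Countable K]
    (hP : IsSmallFor C (H ≃ₐ[K] H))
    (hsol : ∀ (N E : Type) [Field N] [Algebra K N] [FiniteDimensional K N] [IsGalois K N]
      [Group E] (α : E →* (N ≃ₐ[K] N)), Finite E → Surjective α → C α.ker → Sol K N E α)
    (hM : IsMaxProC C L M) : IsFreeProC C (M ≃ₐ[L] M) := by
  have hpc := pc_sub (H := H) hC hP hsol hM
  obtain ⟨hG, ⟨h1, h2, h3, h4, -⟩, -⟩ := hM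
  exact free_of_pc hC hpc

/-- finite separable extensions -/
theorem exists_finite_galois (K L : Type) [Field K] [Field L] [Algebra K L]
    [FiniteDimensional K L] [Algebra.IsSeparable K L] :
    ∃ (H : Type) (_ : Field H) (_ : Algebra K H) (_ : Algebra L H) (_ : IsScalarTower K L H),
      IsGalois K H ∧ Finite (H ≃ₐ[K] H) := by
  let S := SeparableClosure L
  haveI hsep : Algebra.IsSeparable K S := Algebra.IsSeparable.trans K L S
  haveI : IsSepClosure K S := ⟨inferInstance, hsep⟩
  haveI hKS : IsGalois K S := IsSepClosure.isGalois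
  let H : IntermediateField K S := IntermediateField.normalClosure K L S
  haveI hH1 : FiniteDimensional K H := normalClosure.is_finiteDimensional K L S
  haveI hH2 : IsGalois K H := IsGalois.normalClosure K L S
  exact ⟨H, inferInstance, inferInstance, normalClosure.algebra K L S, inferInstance, hH2,
    inferInstance⟩

end Pool.Agent.H87.Fpc
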