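import Pool.Agent.H87.Fpc.Pro
import Pool.Agent.H87.Fpc.SubMain

/-!
# Infinite embedding problems over small extensions
-/

set_option autoImplicit false

namespace Pool.Agent.H87.Fpc

open Function

/-- profinite groups over `P` with pro-`C` kernel -/
theorem qr_of_proC {C : ∀ (G : Type) [Group G], Prop} (hC : Good C) {E P : Type} [Group E]
    [Group P] [TopologicalSpace E] [TopologicalSpace P] [IsTopologicalGroup E]
    [CompactSpace E] [TotallyDisconnectedSpace E] [FirstCountableTopology E]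
    (ε : E →* P) (hs : Surjective ε) (hc : Continuous ε) (hk : IsProC C ε.ker) : QR C ε := by
  refine ⟨hs, hc, ?_, ?_⟩
  · intro A _ q _ hqo
    obtain ⟨-, -, -, -, hq⟩ := hk
    have h0 : ε.ker.map q = (q.comp ε.ker.subtype).range := by
      rw [MonoidHom.range_comp, Subgroup.range_subtype]
    rw [h0]
    have h1 : IsOpen ((q.comp ε.ker.subtype).ker : Set ε.ker) := by
      have h2 : ((q.comp ε.ker.subtype).ker : Set ε.ker) =
          (Subtype.val : ε.ker → E) ⁻¹' (q.ker : Set E) := rfl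
      rw [h2]
      exact hqo.preimage continuous_subtype_val
    exact hC.iso _ _ (QuotientGroup.quotientKerEquivRange (q.comp ε.ker.subtype))
      (hq (q.comp ε.ker.subtype).ker h1)
  · obtain ⟨B, hB⟩ := (nhds (1 : E)).exists_antitone_basis
    have h1 : ∀ n, ∃ U ∈ ON E, (U : Set E) ⊆ B n := fun n => nhds_ON (hB.mem n)
    choose u hu hu' using h1
    refine ⟨u, hu, fun U hU => ?_⟩
    obtain ⟨n, hn⟩ := hB.mem_iff.1 (hU.2.mem_nhds (one_mem U))
    exact ⟨n, fun x hx => hn (hu' n hx)⟩

/-- **Infinite embedding problems with pro-`C` kernel.** -/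
theorem pro_main {C : ∀ (G : Type) [Group G], Prop} (hC : Good C) {K L H N : Type} [Field K]
    [Field L] [Field H] [Field N] [Algebra K L] [Algebra K H] [Algebra L H]
    [IsScalarTower K L H] [IsGalois K H] [Algebra L N] [IsGalois L N] [Countable K]
    (hP : IsSmallFor C (H ≃ₐ[K] H)) (hQ : IsSmallFor C (N ≃ₐ[L] N))
    (hsol : ∀ (N E : Type) [Field N] [Algebra K N] [FiniteDimensional K N] [IsGalois K N]
      [Group E] (α : E →* (N ≃ₐ[K] N)), Finite E → Surjective α → C α.ker → Sol K N E α)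
    {E : Type} [Group E] [TopologicalSpace E] [IsTopologicalGroup E] [CompactSpace E]
    [T2Space E] [TotallyDisconnectedSpace E] [FirstCountableTopology E]
    (ε : E →* (N ≃ₐ[L] N)) (hs : Surjective ε) (hc : Continuous ε) (hk : IsProC C ε.ker) :
    ∃ (F : Type) (_ : Field F) (_ : Algebra L F) (_ : Algebra N F) (_ : IsScalarTower L N F),
      IsGalois L F ∧ ∃ γ : (F ≃ₐ[L] F) ≃ₜ* E, ∀ (σ : F ≃ₐ[L] F) (x : N),
        σ (algebraMap N F x) = algebraMap N F (ε (γ σ) x) := by
  obtain ⟨M, i1, i2, i3, i4, hM⟩ := exists_maxR hC L N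
  haveI hG : IsGalois L M := galois_of_max hC hM
  haveI hcL : Countable L := countable_of_tower K L H
  haveI : T2Space (N ≃ₐ[L] N) := krullTopology_t2
  have hpc := pcR_gal (K := L) (L := N) (M := M) hC hM hQ (fun N' E' _ _ _ _ _ α _ hα hk' =>
    sol_sub (H := H) hC hP hsol N' E' α hα hk') (ContinuousMulEquiv.refl (N ≃ₐ[L] N))
  obtain ⟨θ, h1, h2, h3⟩ := exists_surj (fun A B _ _ f h3 h4 h5 => hC.sub A B f h3 h4 h5) hpc
    (qr_of_proC hC ε hs hc hk)
  exact exists_field_inf ε θ h1 h2 (fun σ => h3 σ)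

end Pool.Agent.H87.Fpc
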