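import Pool.Agent.H87.Fpc.Iso

/-!
# Back and forth over a profinite group
-/

set_option autoImplicit false

namespace Pool.Agent.H87.Fpc

open Function

/-- A topological group `G` over `P`, all embedding problems with kernel in `C` have solutions which
are proper over `P`. -/
structure PcR (C : ∀ (G : Type) [Group G], Prop) {G P : Type} [Group G] [Group P]
    [TopologicalSpace G] [TopologicalSpace P] (π : G →* P) : Prop where
  sur : Surjective π
  con : Continuous π
  cls : ∀ (A : Type) [Group A] (q : G →* A), Surjective q → IsOpen (q.ker : Set G) →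
    C (π.ker.map q)
  emb : ∀ (E D : Type) [Group E] [Group D] (α : E →* D) (β : G →* D), Surjective α →
    Surjective β → C α.ker → IsOpen (β.ker : Set G) →
      ∃ γ : G →* E, Surjective γ ∧ IsOpen (γ.ker : Set G) ∧ (∀ g, α (γ g) = β g) ∧
        α.ker ≤ π.ker.map γ
  cnt : ∃ u : ℕ → Subgroup G, (∀ n, u n ∈ ON G) ∧ ∀ U ∈ ON G, ∃ n, u n ≤ U

section top

variable {G P : Type} [Group G] [Group P] [TopologicalSpace G] [TopologicalSpace P]
  [IsTopologicalGroup G] [CompactSpace G] [IsTopologicalGroup P] [CompactSpace P] [T2Space P]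

omit [IsTopologicalGroup P] [CompactSpace P] in
/-- a continuous epimorphism of compact groups is open -/
theorem isOpen_map_of {π : G →* P} (hs : Surjective π) (hc : Continuous π) {U : Subgroup G}
    (hU : IsOpen (U : Set G)) : IsOpen ((U.map π : Subgroup P) : Set P) := by
  have h1 : Topology.IsQuotientMap π := hc.isClosedMap.isQuotientMap hc hs
  rw [← h1.isOpen_preimage]
  have h2 : U ≤ (U.map π).comap π := Subgroup.le_comap_map π U
  exact Subgroup.isOpen_mono h2 hU

end top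

section bf

variable {C : ∀ (G : Type) [Group G], Prop} {F G P : Type} [Group F] [Group G] [Group P]
  [TopologicalSpace F] [TopologicalSpace G] [TopologicalSpace P]
  [IsTopologicalGroup F] [IsTopologicalGroup G] [IsTopologicalGroup P]
  [CompactSpace F] [CompactSpace G] [CompactSpace P] [T2Space P]

/-- `R` is a fibre product of `F` and `G` over a group `A` and over `P`, with surjective
projections -/
def FibR (π : F →* P) (π' : G →* P) (R : Subgroup (F × G)) : Prop :=
  ∃ (A : Type) (_ : Group A) (f : F →* A) (g : G →* A), Surjective f ∧ Surjective g ∧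
    IsOpen (f.ker : Set F) ∧ IsOpen (g.ker : Set G) ∧
    (∀ a b, (a, b) ∈ R ↔ (f a = g b ∧ π a = π' b)) ∧ (∀ a, ∃ b, (a, b) ∈ R) ∧
    ∀ b, ∃ a, (a, b) ∈ R

omit [CompactSpace F] [IsTopologicalGroup P] [CompactSpace P] in
theorem forthR (hC : ∀ (A B : Type) [Group A] [Group B] (f : A →* B), Injective f →
      f.range.Normal → C B → C A) {π : F →* P} {π' : G →* P} (hF : PcR C π) (hG : PcR C π')
    {R : Subgroup (F × G)} (hR : FibR π π' R) {U : Subgroup G} (hU : U ∈ ON G) :
    ∃ R' ≤ R, FibR π π' R' ∧ ∀ b, ((1 : F), b) ∈ R' → b ∈ U := by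
  obtain ⟨A, iA, f, g, hf, hg, hfO, hgO, hm, hl, hr⟩ := hR
  obtain ⟨hUn, hUo⟩ := hU
  let V : Subgroup G := U ⊓ g.ker
  have hVo : IsOpen (V : Set G) := hUo.inter hgO
  have hQo : IsOpen ((V.map π' : Subgroup P) : Set P) := isOpen_map_of hG.sur hG.con hVo
  have hQn : (V.map π').Normal := Subgroup.Normal.map inferInstance π' hG.sur
  let δ : G →* A × (P ⧸ V.map π') := g.prod ((QuotientGroup.mk' (V.map π')).comp π')
  let D : Subgroup (A × (P ⧸ V.map π')) := δ.range
  let q : G →* G ⧸ V := QuotientGroup.mk' V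
  have hq : Surjective q := QuotientGroup.mk'_surjective V
  have hqk : ∀ x, q x = 1 ↔ x ∈ V := fun x => by
    rw [QuotientGroup.mk'_apply, QuotientGroup.eq_one_iff]
  obtain ⟨α, hα⟩ := exists_fac q hq δ.rangeRestrict (fun x hx => by
    have h1 : x ∈ V := (hqk x).1 hx
    apply Subtype.ext
    change (g x, (QuotientGroup.mk' (V.map π')) (π' x)) = 1
    have h2 : g x = 1 := h1.2
    have h3 : (QuotientGroup.mk' (V.map π')) (π' x) = 1 := by
      rw [QuotientGroup.mk'_apply, QuotientGroup.eq_one_iff]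
      exact Subgroup.mem_map_of_mem π' h1
    rw [h2, h3]
    rfl)
  have hαs : Surjective α := by
    intro d
    obtain ⟨x, rfl⟩ := δ.rangeRestrict_surjective d
    exact ⟨q x, hα x⟩
  let β' : F →* A × (P ⧸ V.map π') := f.prod ((QuotientGroup.mk' (V.map π')).comp π)
  have hβδ : ∀ a b, (a, b) ∈ R → β' a = δ b := by
    intro a b hab
    obtain ⟨h1, h2⟩ := (hm a b).1 hab
    change (f a, (QuotientGroup.mk' (V.map π')) (π a)) =
      (g b, (QuotientGroup.mk' (V.map π')) (π' b))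
    rw [h1, h2]
  have hβD : ∀ a, β' a ∈ D := by
    intro a
    obtain ⟨b, hb⟩ := hl a
    exact ⟨b, (hβδ a b hb).symm⟩
  let β : F →* D := β'.codRestrict D hβD
  have hβR : ∀ a b, (a, b) ∈ R → β a = α (q b) := by
    intro a b hab
    rw [hα]
    exact Subtype.ext (hβδ a b hab)
  have hβs : Surjective β := by
    rintro ⟨_, b, rfl⟩
    obtain ⟨a, ha⟩ := hr b
    exact ⟨a, Subtype.ext (hβδ a b ha)⟩
  have hβo : IsOpen (β.ker : Set F) := by
    have h1 : (f.ker ⊓ (V.map π').comap π) ≤ β.ker := by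
      rintro x ⟨hx1, hx2⟩
      apply Subtype.ext
      change (f x, (QuotientGroup.mk' (V.map π')) (π x)) = 1
      have h2 : f x = 1 := hx1
      have h3 : (QuotientGroup.mk' (V.map π')) (π x) = 1 := by
        rw [QuotientGroup.mk'_apply, QuotientGroup.eq_one_iff]
        exact hx2
      rw [h2, h3]
      rfl
    refine Subgroup.isOpen_mono h1 ?_
    exact hfO.inter (hQo.preimage hF.con)
  have hαk : α.ker ≤ π'.ker.map q := by
    intro e he
    obtain ⟨y, rfl⟩ := hq e
    have h1 : δ.rangeRestrict y = 1 := by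
      rw [← hα]
      exact he
    have h2 : (g y, (QuotientGroup.mk' (V.map π')) (π' y)) = 1 := congrArg Subtype.val h1
    have h3 : (QuotientGroup.mk' (V.map π')) (π' y) = 1 := congrArg Prod.snd h2
    rw [QuotientGroup.mk'_apply, QuotientGroup.eq_one_iff] at h3
    obtain ⟨v, hv, hvy⟩ := h3
    refine ⟨y * v⁻¹, ?_, ?_⟩
    · rw [SetLike.mem_coe, MonoidHom.mem_ker, map_mul, map_inv, hvy, mul_inv_cancel]
    · rw [map_mul, map_inv, (hqk v).2 hv, inv_one, mul_one]
  have hqo : IsOpen (q.ker : Set G) := by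
    have h1 : q.ker = V := by
      ext x
      rw [MonoidHom.mem_ker]
      exact hqk x
    rw [h1]
    exact hVo
  have hCk : C α.ker := by
    refine hC _ _ (Subgroup.inclusion hαk) (Subgroup.inclusion_injective hαk) ?_
      (hG.cls _ q hq hqo)
    constructor
    rintro x ⟨e, rfl⟩ y
    refine ⟨⟨y.1 * e.1 * y.1⁻¹, ?_⟩, rfl⟩
    exact (inferInstance : α.ker.Normal).conj_mem e.1 e.2 y.1
  obtain ⟨γ, hγs, hγo, hγ, hγk⟩ := hF.emb (G ⧸ V) D α β hαs hβs hCk hβo
  refine ⟨(MonoidHom.eqLocus (γ.comp (MonoidHom.fst F G)) (q.comp (MonoidHom.snd F G))) ⊓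
    (MonoidHom.eqLocus (π.comp (MonoidHom.fst F G)) (π'.comp (MonoidHom.snd F G))), ?_,
    ⟨G ⧸ V, inferInstance, γ, q, hγs, hq, hγo, hqo, fun a b => Iff.rfl, ?_, ?_⟩, ?_⟩
  · rintro ⟨a, b⟩ ⟨h1, h2⟩
    have h1' : γ a = q b := h1
    have h2' : π a = π' b := h2
    rw [hm]
    refine ⟨?_, h2'⟩
    have h3 : β a = α (q b) := by rw [← hγ, h1']
    rw [hα] at h3
    exact congrArg Prod.fst (congrArg Subtype.val h3)
  · intro a
    obtain ⟨b0, hb0⟩ := hl a
    have h1 : (q b0)⁻¹ * γ a ∈ α.ker := by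
      rw [MonoidHom.mem_ker, map_mul, map_inv, hγ, hβR a b0 hb0, inv_mul_cancel]
    obtain ⟨n, hn1, hn2⟩ := hαk h1
    refine ⟨b0 * n, ?_, ?_⟩
    · change γ a = q (b0 * n)
      rw [map_mul, hn2, mul_inv_cancel_left]
    · change π a = π' (b0 * n)
      have h2 : π' n = 1 := hn1
      rw [map_mul, h2, mul_one]
      exact ((hm a b0).1 hb0).2
  · intro b
    obtain ⟨a0, ha0⟩ := hr b
    have h1 : (γ a0)⁻¹ * q b ∈ α.ker := by
      rw [MonoidHom.mem_ker, map_mul, map_inv, hγ, hβR a0 b ha0, inv_mul_cancel]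
    obtain ⟨n, hn1, hn2⟩ := hγk h1
    refine ⟨a0 * n, ?_, ?_⟩
    · change γ (a0 * n) = q b
      rw [map_mul, hn2, mul_inv_cancel_left]
    · change π (a0 * n) = π' b
      have h2 : π n = 1 := hn1
      rw [map_mul, h2, mul_one]
      exact ((hm a0 b).1 ha0).2
  · rintro b ⟨hb, -⟩
    have h1 : γ 1 = q b := hb
    rw [map_one] at h1
    exact ((hqk b).1 h1.symm).1

omit [IsTopologicalGroup F] [IsTopologicalGroup G] [IsTopologicalGroup P] [CompactSpace F]
  [CompactSpace G] [CompactSpace P] [T2Space P] [TopologicalSpace P] in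
theorem FibR.swap {π : F →* P} {π' : G →* P} {R : Subgroup (F × G)} (hR : FibR π π' R) :
    FibR π' π (R.comap (MulEquiv.prodComm : G × F ≃* F × G).toMonoidHom) := by
  obtain ⟨A, iA, f, g, hf, hg, hfO, hgO, hm, hl, hr⟩ := hR
  refine ⟨A, iA, g, f, hg, hf, hgO, hfO, fun a b => ?_, fun a => ?_, fun b => ?_⟩
  · have h1 : (a, b) ∈ R.comap (MulEquiv.prodComm : G × F ≃* F × G).toMonoidHom ↔ (b, a) ∈ R :=
      Iff.rfl
    rw [h1, hm]
    exact and_congr eq_comm eq_comm
  · obtain ⟨b, hb⟩ := hr a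
    exact ⟨b, hb⟩
  · obtain ⟨a, ha⟩ := hl b
    exact ⟨a, ha⟩

omit [CompactSpace G] [IsTopologicalGroup P] [CompactSpace P] in
theorem backR (hC : ∀ (A B : Type) [Group A] [Group B] (f : A →* B), Injective f →
      f.range.Normal → C B → C A) {π : F →* P} {π' : G →* P} (hF : PcR C π) (hG : PcR C π')
    {R : Subgroup (F × G)} (hR : FibR π π' R) {U : Subgroup F} (hU : U ∈ ON F) :
    ∃ R' ≤ R, FibR π π' R' ∧ ∀ a, (a, (1 : G)) ∈ R' → a ∈ U := by
  obtain ⟨R', h1, h2, h3⟩ := forthR hC hG hF hR.swap hU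
  refine ⟨R'.comap (MulEquiv.prodComm : F × G ≃* G × F).toMonoidHom, ?_, h2.swap, ?_⟩
  · rintro ⟨a, b⟩ hab
    have h4 : (b, a) ∈ R' := hab
    exact h1 h4
  · intro a ha
    exact h3 a ha

omit [IsTopologicalGroup P] [CompactSpace P] in
theorem exists_stepR (hC : ∀ (A B : Type) [Group A] [Group B] (f : A →* B), Injective f →
      f.range.Normal → C B → C A) {π : F →* P} {π' : G →* P} (hF : PcR C π) (hG : PcR C π')
    {R : Subgroup (F × G)} (hR : FibR π π' R) {U : Subgroup F} (hU : U ∈ ON F)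
    {V : Subgroup G} (hV : V ∈ ON G) :
    ∃ R' ≤ R, FibR π π' R' ∧ (∀ a, (a, (1 : G)) ∈ R' → a ∈ U) ∧
      ∀ b, ((1 : F), b) ∈ R' → b ∈ V := by
  obtain ⟨R1, h1, h2, h3⟩ := backR hC hF hG hR hU
  obtain ⟨R2, h4, h5, h6⟩ := forthR hC hF hG h2 hV
  exact ⟨R2, h4.trans h1, h5, fun a ha => h3 a (h4 ha), h6⟩

omit [IsTopologicalGroup P] [CompactSpace P] in
theorem exists_seqR (hC : ∀ (A B : Type) [Group A] [Group B] (f : A →* B), Injective f →
      f.range.Normal → C B → C A) {π : F →* P} {π' : G →* P} (hF : PcR C π) (hG : PcR C π') :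
    ∃ R : ℕ → Subgroup (F × G), Antitone R ∧ (∀ n, FibR π π' (R n)) ∧
      (∀ U ∈ ON F, ∃ n, ∀ a, (a, (1 : G)) ∈ R n → a ∈ U) ∧
      ∀ V ∈ ON G, ∃ n, ∀ b, ((1 : F), b) ∈ R n → b ∈ V := by
  obtain ⟨u, hu, hu'⟩ := hF.cnt
  obtain ⟨v, hv, hv'⟩ := hG.cnt
  have h0 : FibR π π' (MonoidHom.eqLocus (π.comp (MonoidHom.fst F G))
      (π'.comp (MonoidHom.snd F G))) := by
    refine ⟨Unit, inferInstance, 1, 1, fun a => ⟨1, rfl⟩, fun a => ⟨1, rfl⟩, ?_, ?_,
      fun a b => ⟨fun h => ⟨rfl, h⟩, fun h => h.2⟩, fun a => ?_, fun b => ?_⟩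
    · rw [MonoidHom.ker_one]
      exact isOpen_univ
    · rw [MonoidHom.ker_one]
      exact isOpen_univ
    · obtain ⟨b, hb⟩ := hG.sur (π a)
      exact ⟨b, hb.symm⟩
    · obtain ⟨a, ha⟩ := hF.sur (π' b)
      exact ⟨a, ha⟩
  choose! s hs1 hs2 hs3 hs4 using fun (n : ℕ) (R : Subgroup (F × G)) (hR : FibR π π' R) =>
    exists_stepR hC hF hG hR (hu n) (hv n)
  let R : ℕ → Subgroup (F × G) := fun n => Nat.rec (MonoidHom.eqLocus
    (π.comp (MonoidHom.fst F G)) (π'.comp (MonoidHom.snd F G))) (fun n R => s n R) n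
  have hR : ∀ n, FibR π π' (R n) := by
    intro n
    induction n with
    | zero => exact h0
    | succ n ih => exact hs2 n (R n) ih
  have hanti : Antitone R := antitone_nat_of_succ_le fun n => hs1 n (R n) (hR n)
  refine ⟨R, hanti, hR, ?_, ?_⟩
  · intro U hU
    obtain ⟨n, hn⟩ := hu' U hU
    exact ⟨n + 1, fun a ha => hn (hs3 n (R n) (hR n) a ha)⟩
  · intro V hV
    obtain ⟨n, hn⟩ := hv' V hV
    exact ⟨n + 1, fun a ha => hn (hs4 n (R n) (hR n) a ha)⟩

end bf

section comp

variable {F G P : Type} [Group F] [Group G] [Group P]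
  [TopologicalSpace F] [TopologicalSpace G] [TopologicalSpace P]
  [IsTopologicalGroup G] [CompactSpace G] [T2Space P]

/-- the homomorphism -/
theorem exists_homR {π : F →* P} {π' : G →* P} (hπ' : Continuous π')
    (hsep : ∀ b : G, (∀ U ∈ ON G, b ∈ U) → b = 1) (R : ℕ → Subgroup (F × G))
    (hanti : Antitone R) (hR : ∀ n, FibR π π' (R n))
    (hV : ∀ V ∈ ON G, ∃ n, ∀ b, ((1 : F), b) ∈ R n → b ∈ V) :
    ∃ θ : F →* G, ∀ a n, (a, θ a) ∈ R n := by
  have hex : ∀ a : F, ∃ b : G, ∀ n, (a, b) ∈ R n := by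
    intro a
    have hc : ∀ n, IsClosed {b : G | (a, b) ∈ R n} := by
      intro n
      obtain ⟨A, iA, f, g, hf, hg, hfO, hgO, hm, hl, hr⟩ := hR n
      have h1 : {b : G | (a, b) ∈ R n} = {b : G | f a = g b} ∩ {b : G | π a = π' b} := by
        ext b
        exact hm a b
      rw [h1]
      obtain ⟨b0, hb0⟩ := hg (f a)
      have h2 : {b : G | f a = g b} = (fun b => b0⁻¹ * b) ⁻¹' (g.ker : Set G) := by
        ext b
        rw [Set.mem_ofPred_eq, Set.mem_preimage, SetLike.mem_coe, MonoidHom.mem_ker, map_mul,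
          map_inv, hb0, inv_mul_eq_one]
      rw [h2]
      have h3 : IsClosed (g.ker : Set G) := Subgroup.isClosed_of_isOpen _ hgO
      exact (h3.preimage (continuous_const.mul continuous_id)).inter
        (isClosed_eq continuous_const hπ')
    have hne : (⋂ n, {b : G | (a, b) ∈ R n}).Nonempty := by
      apply IsCompact.nonempty_iInter_of_sequence_nonempty_isCompact_isClosed
      · intro n b hb
        exact hanti (Nat.le_succ n) hb
      · intro n
        obtain ⟨A, iA, f, g, hf, hg, hfO, hgO, hm, hl, hr⟩ := hR n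
        exact hl a
      · exact (hc 0).isCompact
      · exact hc
    obtain ⟨b, hb⟩ := hne
    exact ⟨b, fun n => Set.mem_iInter.1 hb n⟩
  have huniq : ∀ (a : F) (b b' : G), (∀ n, (a, b) ∈ R n) → (∀ n, (a, b') ∈ R n) → b = b' := by
    intro a b b' h h'
    have h1 : ∀ n, ((1 : F), b⁻¹ * b') ∈ R n := by
      intro n
      have h2 := (R n).mul_mem ((R n).inv_mem (h n)) (h' n)
      have h3 : ((a, b) : F × G)⁻¹ * (a, b') = (1, b⁻¹ * b') := by
        apply Prod.ext
        · exact inv_mul_cancel a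
        · rfl
      rwa [h3] at h2
    have h2 : b⁻¹ * b' = 1 := by
      apply hsep
      intro U hU
      obtain ⟨n, hn⟩ := hV U hU
      exact hn _ (h1 n)
    exact inv_mul_eq_one.1 h2
  choose θ hθ using hex
  refine ⟨MonoidHom.mk' θ ?_, fun a n => hθ a n⟩
  intro a a'
  apply huniq (a * a') _ _ (hθ (a * a'))
  intro n
  exact (R n).mul_mem (hθ a n) (hθ a' n)

end comp

/-- **Uniqueness over `P`.** -/
theorem exists_isoR {C : ∀ (G : Type) [Group G], Prop}
    (hC : ∀ (A B : Type) [Group A] [Group B] (f : A →* B), Injective f →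
      f.range.Normal → C B → C A) {F G P : Type} [Group F] [Group G] [Group P]
    [TopologicalSpace F] [TopologicalSpace G] [TopologicalSpace P]
    [IsTopologicalGroup F] [IsTopologicalGroup G] [IsTopologicalGroup P]
    [CompactSpace F] [CompactSpace G] [CompactSpace P] [T2Space P] [T2Space F] [T2Space G]
    [TotallyDisconnectedSpace F] [TotallyDisconnectedSpace G]
    {π : F →* P} {π' : G →* P} (hF : PcR C π) (hG : PcR C π') :
    ∃ Θ : F ≃ₜ* G, ∀ x, π' (Θ x) = π x := by
  obtain ⟨R, hanti, hR, hU, hV⟩ := exists_seqR hC hF hG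
  obtain ⟨θ, hθ⟩ := exists_homR hG.con (sep_of_profinite G) R hanti hR hV
  let R' : ℕ → Subgroup (G × F) :=
    fun n => (R n).comap (MulEquiv.prodComm : G × F ≃* F × G).toMonoidHom
  have hanti' : Antitone R' := fun m n hmn x hx => hanti hmn hx
  obtain ⟨η, hη⟩ := exists_homR hF.con (sep_of_profinite F) R' hanti' (fun n => (hR n).swap)
    (fun U hU' => hU U hU')
  have hdiv : ∀ (n : ℕ) (a a' : F) (b b' : G), (a, b) ∈ R n → (a', b') ∈ R n →
      (a⁻¹ * a', b⁻¹ * b') ∈ R n := by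
    intro n a a' b b' h h'
    exact (R n).mul_mem ((R n).inv_mem h) h'
  have huniq : ∀ (a : F) (b b' : G), (∀ n, (a, b) ∈ R n) → (∀ n, (a, b') ∈ R n) → b = b' := by
    intro a b b' h h'
    have h2 : b⁻¹ * b' = 1 := by
      apply sep_of_profinite G
      intro U hU'
      obtain ⟨n, hn⟩ := hV U hU'
      apply hn
      have h3 := hdiv n a a b b' (h n) (h' n)
      rwa [inv_mul_cancel] at h3
    exact inv_mul_eq_one.1 h2
  have huniq' : ∀ (a a' : F) (b : G), (∀ n, (a, b) ∈ R n) → (∀ n, (a', b) ∈ R n) → a = a' := by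
    intro a a' b h h'
    have h2 : a⁻¹ * a' = 1 := by
      apply sep_of_profinite F
      intro U hU'
      obtain ⟨n, hn⟩ := hU U hU'
      apply hn
      have h3 := hdiv n a a' b b (h n) (h' n)
      rwa [inv_mul_cancel] at h3
    exact inv_mul_eq_one.1 h2
  have hc : Continuous θ := by
    apply continuous_of_continuousAt_one θ
    intro W hW
    rw [map_one] at hW
    obtain ⟨V, hVO, hVW⟩ := nhds_ON hW
    obtain ⟨n, hn⟩ := hV V hVO
    obtain ⟨A, iA, f, g, hf, hg, hfO, hgO, hm, hl, hr⟩ := hR n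
    -- the elements of `ker f` over `π' (ker g ∩ V)`
    let Q : Subgroup G := g.ker ⊓ V
    have hQ : IsOpen ((Q.map π' : Subgroup P) : Set P) :=
      isOpen_map_of hG.sur hG.con (hgO.inter hVO.2)
    have h1 : ((f.ker ⊓ (Q.map π').comap π : Subgroup F) : Set F) ∈ nhds (1 : F) :=
      (hfO.inter (hQ.preimage hF.con)).mem_nhds (one_mem (f.ker ⊓ (Q.map π').comap π))
    rw [Filter.mem_map]
    refine Filter.mem_of_superset h1 ?_
    rintro a ⟨ha1, ha2⟩
    apply hVW
    obtain ⟨v, ⟨hv1, hv2⟩, hv3⟩ := ha2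
    have h4 := (hm a (θ a)).1 (hθ a n)
    have h5 : θ a * v⁻¹ ∈ V := by
      apply hn
      rw [hm, map_one, map_one, map_mul, map_mul, ← h4.1, ← h4.2, map_inv, map_inv, hv3,
        mul_inv_cancel]
      have h6 : f a = 1 := ha1
      have h7 : g v = 1 := hv1
      rw [h6, h7]
      exact ⟨by rw [inv_one, mul_one], rfl⟩
    have h8 := V.mul_mem h5 hv2
    rwa [inv_mul_cancel_right] at h8
  have hbij : Bijective θ := by
    constructor
    · intro a a' h
      refine huniq' a a' (θ a) (fun n => hθ a n) (fun n => ?_)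
      rw [h]
      exact hθ a' n
    · intro b
      exact ⟨η b, huniq (η b) _ _ (fun n => hθ (η b) n) (fun n => hη b n)⟩
  let e : F ≃* G := MulEquiv.ofBijective θ hbij
  let h : F ≃ₜ G := Continuous.homeoOfEquivCompactToT2 (f := e.toEquiv) hc
  refine ⟨{ e with continuous_toFun := hc, continuous_invFun := h.symm.continuous }, ?_⟩
  intro x
  obtain ⟨A, iA, f, g, hf, hg, hfO, hgO, hm, hl, hr⟩ := hR 0
  exact ((hm x (θ x)).1 (hθ x 0)).2.symm

end Pool.Agent.H87.Fpc
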