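import Pool.Agent.H87.Fpc.RelField

/-!
# Embedding problems for Galois groups of maximal pro-`C` extensions of Galois extensions
-/

set_option autoImplicit false

namespace Pool.Agent.H87.Fpc

open Function

section fac

variable {C : ∀ (G : Type) [Group G], Prop} {K L M S : Type} [Field K] [Field L] [Field M]
  [Field S] [Algebra K L] [Algebra K M] [Algebra L M] [IsScalarTower K L M] [Algebra K S]
  [Algebra L S] [Algebra M S] [IsScalarTower K M S] [IsScalarTower L M S]
  [IsScalarTower K L S] [Normal K L] [IsGalois K M] [IsGalois K S] [IsGalois L S]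

/-- a homomorphism of the Galois group of `S` which is trivial on `Gal(S/M)` -/
theorem factor_max (hC : Good C) (hM : IsMaxProC C L M) {E D : Type} [Group E] [Group D]
    (p : (S ≃ₐ[K] S) →* E) (hp : Surjective p) (hpo : IsOpen (p.ker : Set (S ≃ₐ[K] S)))
    (α : E →* D) (β : (M ≃ₐ[K] M) →* D) (hβo : IsOpen (β.ker : Set (M ≃ₐ[K] M)))
    (hα : C α.ker) (h : ∀ σ : S ≃ₐ[K] S, α (p σ) = β (σ.restrictNormal M))
    (σ : S ≃ₐ[K] S) (hσ : σ.restrictNormal M = 1) : p σ = 1 := by
  obtain ⟨hG, hpro, hmax⟩ := hM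
  let ι : (S ≃ₐ[L] S) →* (S ≃ₐ[K] S) := AlgEquiv.restrictScalarsHom K
  let π : (M ≃ₐ[K] M) →* (L ≃ₐ[K] L) := AlgEquiv.restrictNormalHom L
  let ρ : (S ≃ₐ[K] S) →* (L ≃ₐ[K] L) := AlgEquiv.restrictNormalHom L
  have hρ : ρ.ker = ι.range := ker_restrict
  let X : Subgroup E := (p.comp ι).range
  have hXn : X.Normal := by
    have h1 : X = ρ.ker.map p := by
      rw [hρ, ← MonoidHom.range_comp]
    rw [h1]
    exact Subgroup.Normal.map inferInstance p hp
  have hmem : ∀ x : X, α x.1 ∈ π.ker.map β := by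
    rintro ⟨_, τ, rfl⟩
    refine ⟨(ι τ).restrictNormal M, ?_, (h (ι τ)).symm⟩
    rw [SetLike.mem_coe, MonoidHom.mem_ker]
    change ((ι τ).restrictNormal M).restrictNormal L = 1
    rw [restrict_restrict]
    exact restrict_scalars τ
  let φ : X →* π.ker.map β := (α.comp X.subtype).codRestrict (π.ker.map β) hmem
  have hφ : Surjective φ := by
    rintro ⟨_, n, hn, rfl⟩
    obtain ⟨s, hs⟩ := AlgEquiv.restrictNormalHom_surjective (F := K) (K₁ := M) S n
    have hs' : s.restrictNormal M = n := hs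
    have h1 : s.restrictNormal L = 1 := by
      rw [← restrict_restrict (M := S) L M s, hs']
      exact hn
    obtain ⟨τ, hτ⟩ := exists_scalars (L := L) s h1
    refine ⟨⟨p (ι τ), τ, rfl⟩, ?_⟩
    apply Subtype.ext
    change α (p (ι τ)) = β n
    rw [h]
    have h2 : ι τ = s := hτ
    rw [h2, hs']
  have hX : C X := by
    refine hC.ext _ _ φ hφ ?_ (cls_gal (L := L) hC hpro D β hβo)
    let f : φ.ker →* α.ker := (X.subtype.comp φ.ker.subtype).codRestrict α.ker (fun x => by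
      rw [MonoidHom.mem_ker]
      exact congrArg Subtype.val x.2)
    refine hC.sub _ _ f ?_ ?_ hα
    · intro x y hxy
      apply Subtype.ext
      apply Subtype.ext
      have h1 : (f x).1 = (f y).1 := by rw [hxy]
      exact h1
    · constructor
      rintro _ ⟨x, rfl⟩ a
      have h1 : a.1 * x.1.1 * a.1⁻¹ ∈ X := hXn.conj_mem x.1.1 x.1.2 a.1
      have h2 : α (a.1 * x.1.1 * a.1⁻¹) = 1 := by
        have h3 : α x.1.1 = 1 := congrArg Subtype.val x.2
        have h4 : α a.1 = 1 := a.2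
        rw [map_mul, map_mul, map_inv, h3, h4, mul_one, one_mul, inv_one]
      refine ⟨⟨⟨a.1 * x.1.1 * a.1⁻¹, h1⟩, ?_⟩, rfl⟩
      apply Subtype.ext
      exact h2
  have hko : IsOpen (((p.comp ι).rangeRestrict).ker : Set (S ≃ₐ[L] S)) := by
    rw [MonoidHom.ker_rangeRestrict, ← MonoidHom.comap_ker]
    exact isOpen_comap_scalars hpo
  obtain ⟨T, hT1, hT2, e, hTk, he⟩ := exists_field (K := L) (M := S) (p.comp ι).rangeRestrict
    (p.comp ι).rangeRestrict_surjective hko
  obtain ⟨eT⟩ := hmax T hT1 hT2 (hC.iso _ _ e hX)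
  let ψ : T →ₐ[L] S := (IsScalarTower.toAlgHom L M S).comp eT
  have hψ : ψ.fieldRange = T := AlgHom.fieldRange_of_normal ψ
  have h1 : σ.restrictNormal L = 1 := by
    rw [← restrict_restrict (M := S) L M σ, hσ]
    exact map_one π
  obtain ⟨τ, hτ⟩ := exists_scalars (L := L) σ h1
  have h2 : τ ∈ T.fixingSubgroup := by
    rw [IntermediateField.mem_fixingSubgroup_iff]
    intro t ht
    rw [← hψ] at ht
    obtain ⟨t', rfl⟩ := ht
    change τ (algebraMap M S (eT t')) = algebraMap M S (eT t')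
    have h3 : τ (algebraMap M S (eT t')) = σ (algebraMap M S (eT t')) := by
      rw [← hτ]
      rfl
    have h4 := σ.restrictNormal_commutes M (eT t')
    rw [hσ] at h4
    rw [h3]
    exact h4.symm
  rw [hTk, MonoidHom.ker_rangeRestrict, MonoidHom.mem_ker, MonoidHom.comp_apply] at h2
  have h5 : ι τ = σ := hτ
  rwa [h5] at h2

end fac

/-- **Embedding problems for `Gal(M/K)` over `Gal(L/K)`.** -/
theorem emb_galR {C : ∀ (G : Type) [Group G], Prop} {K L M : Type} (S : Type) [Field K]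
    [Field L] [Field M] [Field S] [Algebra K L] [Algebra K M] [Algebra L M]
    [IsScalarTower K L M] [Algebra K S] [Algebra L S] [Algebra M S] [IsScalarTower K M S]
    [IsScalarTower L M S] [IsScalarTower K L S] [IsGalois K L] [IsGalois K M] [IsGalois K S]
    [IsGalois L S] [IsSepClosed S]
    (hC : Good C) (hM : IsMaxProC C L M) (hP : IsSmallFor C (L ≃ₐ[K] L))
    (hsol : ∀ (N E : Type) [Field N] [Algebra K N] [FiniteDimensional K N] [IsGalois K N]
      [Group E] (α : E →* (N ≃ₐ[K] N)), Finite E → Surjective α → C α.ker → Sol K N E α)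
    (E D : Type) [Group E] [Group D] (α : E →* D) (β : (M ≃ₐ[K] M) →* D)
    (hα : Surjective α) (hβ : Surjective β) (hαk : C α.ker)
    (hβo : IsOpen (β.ker : Set (M ≃ₐ[K] M))) :
    ∃ γ : (M ≃ₐ[K] M) →* E, Surjective γ ∧ IsOpen (γ.ker : Set (M ≃ₐ[K] M)) ∧
      (∀ g, α (γ g) = β g) ∧
      α.ker ≤ (AlgEquiv.restrictNormalHom (K₁ := M) L : (M ≃ₐ[K] M) →* (L ≃ₐ[K] L)).ker.map γ
    := by
  let π : (M ≃ₐ[K] M) →* (L ≃ₐ[K] L) := AlgEquiv.restrictNormalHom L
  have hπs : Surjective π := AlgEquiv.restrictNormalHom_surjective M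
  have hπc : Continuous π := continuous_restrict
  haveI : T2Space (M ≃ₐ[K] M) := krullTopology_t2
  haveI : T2Space (L ≃ₐ[K] L) := krullTopology_t2
  -- finiteness
  haveI hDf : Finite D := by
    obtain ⟨T, hT1, hT2, e, -, -⟩ := exists_field β hβ hβo
    exact Finite.of_equiv _ e.symm.toEquiv
  haveI hEf : Finite E := by
    haveI := hC.fin _ hαk
    haveI : Finite (E ⧸ α.ker) :=
      Finite.of_equiv D (QuotientGroup.quotientKerEquivOfSurjective α hα).symm.toEquiv
    exact Finite.of_equiv _ (Subgroup.groupEquivQuotientProdSubgroup (s := α.ker)).symm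
  have hVo : IsOpen ((β.ker.map π : Subgroup (L ≃ₐ[K] L)) : Set (L ≃ₐ[K] L)) :=
    isOpen_map_of hπs hπc hβo
  have hVn : (β.ker.map π).Normal := Subgroup.Normal.map inferInstance π hπs
  obtain ⟨W, hWn, hWo, hW⟩ := hP.exists_open hVn hVo (n := Nat.card E) Nat.card_pos
  -- the larger quotient
  let β' : (M ≃ₐ[K] M) →* D × ((L ≃ₐ[K] L) ⧸ W) := β.prod ((QuotientGroup.mk' W).comp π)
  let D2 : Subgroup (D × ((L ≃ₐ[K] L) ⧸ W)) := β'.range
  let β2 : (M ≃ₐ[K] M) →* D2 := β'.rangeRestrict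
  have hβ2 : Surjective β2 := β'.rangeRestrict_surjective
  have hβ2o : IsOpen (β2.ker : Set (M ≃ₐ[K] M)) := by
    have h1 : β.ker ⊓ W.comap π ≤ β2.ker := by
      rintro x ⟨hx1, hx2⟩
      apply Subtype.ext
      change (β x, (QuotientGroup.mk' W) (π x)) = 1
      have h2 : β x = 1 := hx1
      have h3 : (QuotientGroup.mk' W) (π x) = 1 := by
        rw [QuotientGroup.mk'_apply, QuotientGroup.eq_one_iff]
        exact hx2
      rw [h2, h3]
      rfl
    exact Subgroup.isOpen_mono h1 (hβo.inter (hWo.preimage hπc))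
  let E2 : Subgroup (E × D2) := MonoidHom.eqLocus (α.comp (MonoidHom.fst E D2))
    ((MonoidHom.fst D _).comp (D2.subtype.comp (MonoidHom.snd E D2)))
  have hE2 : ∀ (e : E) (n : M ≃ₐ[K] M), α e = β n → (e, β2 n) ∈ E2 := fun e n h => h
  let α2 : E2 →* D2 := (MonoidHom.snd E D2).comp E2.subtype
  have hα2 : Surjective α2 := by
    intro d
    obtain ⟨n, rfl⟩ := hβ2 d
    obtain ⟨e, he⟩ := hα (β n)
    exact ⟨⟨(e, β2 n), hE2 e n he⟩, rfl⟩
  have hα2k : C α2.ker := by
    let f : α2.ker →* α.ker := ((MonoidHom.fst E D2).comp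
      (E2.subtype.comp α2.ker.subtype)).codRestrict α.ker (fun x => by
        rw [MonoidHom.mem_ker]
        have h1 : α x.1.1.1 = (x.1.1.2 : D × ((L ≃ₐ[K] L) ⧸ W)).1 := x.1.2
        have h2 : x.1.1.2 = 1 := x.2
        have h3 : (x.1.1.2 : D × ((L ≃ₐ[K] L) ⧸ W)).1 = 1 := by
          rw [h2]
          rfl
        exact h1.trans h3)
    refine hC.sub _ _ f ?_ ?_ hαk
    · intro x y hxy
      apply Subtype.ext
      apply Subtype.ext
      apply Prod.ext
      · have h1 : (f x).1 = (f y).1 := by rw [hxy]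
        exact h1
      · have h2 : x.1.1.2 = 1 := x.2
        have h3 : y.1.1.2 = 1 := y.2
        rw [h2, h3]
    · constructor
      rintro _ ⟨x, rfl⟩ a
      have h1 : α x.1.1.1 = 1 := (f x).2
      have h2 : α a.1 = 1 := a.2
      have h3 : α (a.1 * x.1.1.1 * a.1⁻¹) = β 1 := by
        rw [map_mul, map_mul, map_inv, h1, h2, mul_one, one_mul, inv_one, map_one]
      refine ⟨⟨⟨(a.1 * x.1.1.1 * a.1⁻¹, β2 1), hE2 _ _ h3⟩, ?_⟩, rfl⟩
      rw [MonoidHom.mem_ker]
      exact map_one β2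
  -- the solution over `K`
  obtain ⟨N, hN1, hN2, e, -, he⟩ := exists_field β2 hβ2 hβ2o
  haveI hD2f : Finite D2 := Finite.of_equiv _ e.symm.toEquiv
  haveI hE2f : Finite E2 := inferInstance
  have hsur : Surjective ((e : D2 →* (N ≃ₐ[K] N)).comp α2) := e.surjective.comp hα2
  have hker : ((e : D2 →* (N ≃ₐ[K] N)).comp α2).ker = α2.ker := by
    ext x
    rw [MonoidHom.mem_ker, MonoidHom.mem_ker]
    exact map_eq_one_iff e e.injective
  obtain ⟨F, i1, i2, i3, i4, hF1, hF2, γ, hγ⟩ := hsol N E2 ((e : D2 →* (N ≃ₐ[K] N)).comp α2)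
    inferInstance hsur (by rw [hker]; exact hα2k)
  haveI : Algebra.IsSeparable N F := Algebra.isSeparable_tower_top_of_isSeparable K N F
  haveI : IsScalarTower K N S := by
    refine IsScalarTower.of_algebraMap_eq fun x => ?_
    rw [IsScalarTower.algebraMap_apply K M S, IsScalarTower.algebraMap_apply N M S,
      ← IsScalarTower.algebraMap_apply K N M]
  let j : F →ₐ[N] S := IsSepClosed.lift
  letI : Algebra F S := j.toRingHom.toAlgebra
  haveI t1 : IsScalarTower N F S := IsScalarTower.of_algebraMap_eq fun x => (j.commutes x).symm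
  haveI t2 : IsScalarTower K F S := by
    refine IsScalarTower.of_algebraMap_eq fun x => ?_
    rw [IsScalarTower.algebraMap_apply K N S, IsScalarTower.algebraMap_apply K N F,
      ← IsScalarTower.algebraMap_apply N F S]
  let p : (S ≃ₐ[K] S) →* E2 := (γ : (F ≃ₐ[K] F) →* E2).comp (AlgEquiv.restrictNormalHom F)
  have hp : Surjective p := γ.surjective.comp (AlgEquiv.restrictNormalHom_surjective S)
  have hpo : IsOpen (p.ker : Set (S ≃ₐ[K] S)) := by
    have h3 : p.ker = (AlgEquiv.restrictNormalHom (K₁ := S) F :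
        (S ≃ₐ[K] S) →* (F ≃ₐ[K] F)).ker := by
      ext σ
      rw [MonoidHom.mem_ker, MonoidHom.mem_ker]
      exact map_eq_one_iff γ γ.injective
    rw [h3]
    exact isOpen_ker_restrict F
  have hpα : ∀ σ : S ≃ₐ[K] S, α2 (p σ) = β2 (σ.restrictNormal M) := by
    intro σ
    apply e.injective
    rw [he]
    have h3 := hγ (σ.restrictNormal F)
    rw [restrict_restrict] at h3
    have h4 := restrict_restrict (M := S) N M σ
    rw [h4]
    exact h3
  -- it is a solution in `M`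
  let ρ : (S ≃ₐ[K] S) →* (M ≃ₐ[K] M) := AlgEquiv.restrictNormalHom M
  have hρs : Surjective ρ := AlgEquiv.restrictNormalHom_surjective S
  have hρc : Continuous ρ := continuous_restrict
  obtain ⟨g, hg⟩ := exists_fac ρ hρs p (fun σ hσ =>
    factor_max (L := L) hC hM p hp hpo α2 β2 hβ2o hα2k hpα σ hσ)
  have hgs : Surjective g := by
    intro x
    obtain ⟨σ, rfl⟩ := hp x
    exact ⟨ρ σ, hg σ⟩
  have hgo : IsOpen (g.ker : Set (M ≃ₐ[K] M)) := by
    have h1 : Topology.IsQuotientMap ρ := hρc.isClosedMap.isQuotientMap hρc hρs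
    rw [← h1.isOpen_preimage]
    have h2 : (ρ ⁻¹' (g.ker : Set (M ≃ₐ[K] M))) = (p.ker : Set (S ≃ₐ[K] S)) := by
      ext σ
      change g (ρ σ) = 1 ↔ p σ = 1
      rw [hg]
    rw [h2]
    exact hpo
  have hgα : ∀ n, α2 (g n) = β2 n := by
    intro n
    obtain ⟨σ, rfl⟩ := hρs n
    rw [hg]
    exact hpα σ
  let γ' : (M ≃ₐ[K] M) →* E := ((MonoidHom.fst E D2).comp E2.subtype).comp g
  have hγα : ∀ n, α (γ' n) = β n := by
    intro n
    have h1 : α (g n).1.1 = ((g n).1.2 : D × ((L ≃ₐ[K] L) ⧸ W)).1 := (g n).2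
    have h2 : (g n).1.2 = β2 n := hgα n
    rw [h2] at h1
    exact h1
  have hγs : Surjective γ' := by
    intro x
    obtain ⟨n, hn⟩ := hβ (α x)
    obtain ⟨m, hm⟩ := hgs ⟨(x, β2 n), hE2 x n hn.symm⟩
    refine ⟨m, ?_⟩
    change (g m).1.1 = x
    rw [hm]
  have hγo : IsOpen (γ'.ker : Set (M ≃ₐ[K] M)) := by
    refine Subgroup.isOpen_mono ?_ hgo
    intro x hx
    rw [MonoidHom.mem_ker] at hx ⊢
    change (g x).1.1 = 1
    rw [hx]
    rfl
  refine ⟨γ', hγs, hγo, hγα, ?_⟩
  intro x hx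
  have hUo : IsOpen ((γ'.ker.map π : Subgroup (L ≃ₐ[K] L)) : Set (L ≃ₐ[K] L)) :=
    isOpen_map_of hπs hπc hγo
  have hUi : (γ'.ker.map π).index ∣ Nat.card E := by
    have h1 := Subgroup.index_map_dvd γ'.ker hπs
    rw [Subgroup.index_ker, MonoidHom.range_eq_top.2 hγs, Subgroup.card_top] at h1
    exact h1
  have hUn : (γ'.ker.map π).Normal := Subgroup.Normal.map inferInstance π hπs
  have hle : γ'.ker ≤ β.ker := by
    intro n hn
    rw [MonoidHom.mem_ker] at hn ⊢
    rw [← hγα, hn, map_one]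
  have hUV : γ'.ker.map π ≤ β.ker.map π := Subgroup.map_mono hle
  have hUC : C ((β.ker.map π : Subgroup (L ≃ₐ[K] L)) ⧸
      (γ'.ker.map π).subgroupOf (β.ker.map π)) := by
    -- a quotient of `ker α`
    let q : β.ker →* ((β.ker.map π : Subgroup (L ≃ₐ[K] L)) ⧸
        (γ'.ker.map π).subgroupOf (β.ker.map π)) :=
      (QuotientGroup.mk' ((γ'.ker.map π).subgroupOf (β.ker.map π))).comp
        (π.subgroupMap β.ker)
    let g1 : β.ker →* α.ker := (γ'.comp β.ker.subtype).codRestrict α.ker (fun x => by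
      rw [MonoidHom.mem_ker]
      change α (γ' x.1) = 1
      rw [hγα]
      exact x.2)
    have hg1 : Surjective g1 := by
      rintro ⟨y, hy⟩
      obtain ⟨n, rfl⟩ := hγs y
      have h1 : n ∈ β.ker := by
        rw [MonoidHom.mem_ker, ← hγα]
        exact hy
      exact ⟨⟨n, h1⟩, rfl⟩
    obtain ⟨f, hf⟩ := exists_fac g1 hg1 q (fun x hx => by
      have h1 : γ' x.1 = 1 := congrArg Subtype.val hx
      change (QuotientGroup.mk' ((γ'.ker.map π).subgroupOf (β.ker.map π)))
        (π.subgroupMap β.ker x) = 1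
      rw [QuotientGroup.mk'_apply, QuotientGroup.eq_one_iff, Subgroup.mem_subgroupOf]
      exact ⟨x.1, h1, rfl⟩)
    refine hC.quo _ _ f hαk ?_
    intro z
    obtain ⟨w, rfl⟩ := QuotientGroup.mk'_surjective _ z
    obtain ⟨x, rfl⟩ := π.subgroupMap_surjective β.ker w
    exact ⟨g1 x, hf x⟩
  have hWU := hW (γ'.ker.map π) hUn hUo hUV hUC hUi
  have h1 : α x = β 1 := by
    rw [map_one]
    exact hx
  obtain ⟨n, hn⟩ := hgs ⟨(x, β2 1), hE2 x 1 h1⟩
  have hn1 : γ' n = x := by
    change (g n).1.1 = x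
    rw [hn]
  have hn2 : β2 n = 1 := by
    rw [← hgα, hn]
    change β2 1 = 1
    exact map_one β2
  have hn3 : π n ∈ W := by
    have h2 : (QuotientGroup.mk' W) (π n) = 1 := congrArg Prod.snd (congrArg Subtype.val hn2)
    rw [QuotientGroup.mk'_apply, QuotientGroup.eq_one_iff] at h2
    exact h2
  obtain ⟨z, hz1, hz2⟩ := hWU hn3
  refine ⟨n * z⁻¹, ?_, ?_⟩
  · change π (n * z⁻¹) = 1
    rw [map_mul, map_inv, hz2, mul_inv_cancel]
  · have h2 : γ' z = 1 := hz1
    rw [map_mul, map_inv, h2, inv_one, mul_one, hn1]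

end Pool.Agent.H87.Fpc
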