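import Pool.Agent.H87.Fpc.RelEmb

/-!
# Existence over a Galois extension, small profinite groups
-/

set_option autoImplicit false

namespace Pool.Agent.H87.Fpc

open Function

/-- The profinite group `P` has only finitely many open subgroups of each index. -/
def IsSmall (P : Type) [Group P] [TopologicalSpace P] : Prop :=
  ∀ n : ℕ, {U : Subgroup P | IsOpen (U : Set P) ∧ U.index = n}.Finite

theorem IsSmall.smallFor {P : Type} [Group P] [TopologicalSpace P] (h : IsSmall P)
    (C : ∀ (G : Type) [Group G], Prop) : IsSmallFor C P := by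
  intro V _ _ n
  exact (h n).subset fun U hU => ⟨hU.1, hU.2.2.1⟩

/-- prosolvable groups and classes without solvable groups -/
theorem smallFor_of_solvable {P : Type} [Group P] [TopologicalSpace P]
    (C : ∀ (G : Type) [Group G], Prop)
    (hC : ∀ (A : Type) [Group A], C A → Group.IsSolvable A → Subsingleton A)
    (hP : ∀ (U : Subgroup P) [U.Normal], IsOpen (U : Set P) → Group.IsSolvable (P ⧸ U)) :
    IsSmallFor C P := by
  intro V hV hVo n
  refine (Set.finite_singleton V).subset ?_
  rintro U ⟨hUo, hUV, -, hUn, hUC⟩
  haveI h1 : Group.IsSolvable (P ⧸ U) := hP U hUo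
  let f : V →* P ⧸ U := (QuotientGroup.mk' U).comp V.subtype
  obtain ⟨g, hg⟩ := exists_fac (QuotientGroup.mk' (U.subgroupOf V))
    (QuotientGroup.mk'_surjective _) f (fun x hx => by
      rw [QuotientGroup.mk'_apply, QuotientGroup.eq_one_iff, Subgroup.mem_subgroupOf] at hx
      change (QuotientGroup.mk' U) x.1 = 1
      rw [QuotientGroup.mk'_apply, QuotientGroup.eq_one_iff]
      exact hx)
  have hgi : Injective g := by
    rw [injective_iff_map_eq_one]
    intro z hz
    obtain ⟨x, rfl⟩ := QuotientGroup.mk'_surjective _ z
    rw [hg] at hz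
    have h2 : (QuotientGroup.mk' U) x.1 = 1 := hz
    rw [QuotientGroup.mk'_apply, QuotientGroup.eq_one_iff] at h2
    rw [QuotientGroup.mk'_apply, QuotientGroup.eq_one_iff, Subgroup.mem_subgroupOf]
    exact h2
  have h2 : Group.IsSolvable (V ⧸ U.subgroupOf V) := Group.isSolvable_of_isSolvable_injective hgi
  have h3 := hC _ hUC h2
  refine le_antisymm hUV fun x hx => ?_
  have h4 : (QuotientGroup.mk' (U.subgroupOf V)) ⟨x, hx⟩ = 1 := Subsingleton.elim _ _
  rw [QuotientGroup.mk'_apply, QuotientGroup.eq_one_iff, Subgroup.mem_subgroupOf] at h4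
  exact h4

theorem IsSmallFor.congr {C : ∀ (G : Type) [Group G], Prop} (hC : Good C) {P P' : Type}
    [Group P] [TopologicalSpace P] [Group P'] [TopologicalSpace P'] (h : IsSmallFor C P)
    (e : P ≃ₜ* P') : IsSmallFor C P' := by
  intro V' hV' hVo' n
  let ε : P →* P' := (e : P ≃* P').toMonoidHom
  have hε : Surjective ε := e.surjective
  have h1 := (h (V'.comap ε) inferInstance (hVo'.preimage e.continuous) n).image
    (fun U => U.map ε)
  refine h1.subset ?_
  rintro U' ⟨hUo, hUV, hi, hUn, hUC⟩
  refine ⟨U'.comap ε, ⟨hUo.preimage e.continuous, Subgroup.comap_mono hUV, ?_, inferInstance,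
    ?_⟩, Subgroup.map_comap_eq_self_of_surjective hε U'⟩
  · rw [Subgroup.index_comap_of_surjective _ hε]
    exact hi
  · let τ : V' →* (V'.comap ε : Subgroup P) :=
      { toFun := fun x => ⟨e.symm x.1, by
          rw [Subgroup.mem_comap]
          change e (e.symm x.1) ∈ V'
          rw [e.apply_symm_apply]
          exact x.2⟩
        map_one' := Subtype.ext (map_one e.symm)
        map_mul' := fun x y => Subtype.ext (map_mul e.symm x.1 y.1) }
    have hτ : Surjective τ := by
      rintro ⟨x, hx⟩
      refine ⟨⟨e x, hx⟩, Subtype.ext ?_⟩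
      exact e.symm_apply_apply x
    obtain ⟨g, hg⟩ := exists_fac (QuotientGroup.mk' (U'.subgroupOf V'))
      (QuotientGroup.mk'_surjective _)
      ((QuotientGroup.mk' ((U'.comap ε).subgroupOf (V'.comap ε))).comp τ) (fun x hx => by
        rw [QuotientGroup.mk'_apply, QuotientGroup.eq_one_iff, Subgroup.mem_subgroupOf] at hx
        rw [MonoidHom.comp_apply, QuotientGroup.mk'_apply, QuotientGroup.eq_one_iff,
          Subgroup.mem_subgroupOf, Subgroup.mem_comap]
        change e (e.symm x.1) ∈ U'
        rw [e.apply_symm_apply]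
        exact hx)
    refine hC.quo _ _ g hUC ?_
    intro z
    obtain ⟨w, rfl⟩ := QuotientGroup.mk'_surjective _ z
    obtain ⟨x, rfl⟩ := hτ w
    exact ⟨QuotientGroup.mk' _ x, hg x⟩

/-- topologically finitely generated groups are small -/
theorem small_of_fg (P : Type) [Group P] [TopologicalSpace P] [IsTopologicalGroup P]
    [CompactSpace P] (s : Set P) (hs : s.Finite)
    (hd : Dense ((Subgroup.closure s : Subgroup P) : Set P)) : IsSmall P := by
  classical
  intro n
  haveI : Finite s := hs
  rcases Nat.eq_zero_or_pos n with rfl | hn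
  · refine (Set.finite_empty).subset ?_
    rintro U ⟨hU, hi⟩
    haveI := Subgroup.quotient_finite_of_isOpen U hU
    haveI : U.FiniteIndex := Subgroup.finiteIndex_of_finite_quotient
    exact absurd hi Subgroup.FiniteIndex.index_ne_zero
  · -- the data of an open subgroup
    have key : ∀ U : {U : Subgroup P // IsOpen (U : Set P) ∧ U.index = n},
        ∃ (ψ : P →* Equiv.Perm (Fin n)) (i : Fin n), IsOpen (ψ.ker : Set P) ∧
          ∀ x, x ∈ U.1 ↔ ψ x i = i := by
      rintro ⟨U, hU, hi⟩
      haveI := Subgroup.quotient_finite_of_isOpen U hU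
      have hc : Nat.card (P ⧸ U) = n := hi
      let e : (P ⧸ U) ≃ Fin n := Finite.equivFinOfCardEq hc
      let ψ : P →* Equiv.Perm (Fin n) :=
        e.permCongrHom.toMonoidHom.comp (MulAction.toPermHom P (P ⧸ U))
      have hψ : ∀ (x : P) (y : P ⧸ U), ψ x (e y) = e (x • y) := by
        intro x y
        change e (x • e.symm (e y)) = e (x • y)
        rw [e.symm_apply_apply]
      have hU' : ∀ x, x ∈ U ↔ ψ x (e (1 : P)) = e (1 : P) := by
        intro x
        rw [hψ, e.apply_eq_iff_eq, MulAction.Quotient.smul_coe, smul_eq_mul, mul_one,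
          QuotientGroup.eq, mul_one, inv_mem_iff]
      refine ⟨ψ, e (1 : P), ?_, hU'⟩
      -- the kernel is a finite intersection of conjugates of `U`
      have h1 : (ψ.ker : Set P) = ⋂ y : P ⧸ U, {x : P | x • y = y} := by
        ext x
        rw [SetLike.mem_coe, MonoidHom.mem_ker, Set.mem_iInter]
        constructor
        · intro h y
          have h2 := hψ x y
          rw [h] at h2
          exact (e.injective h2).symm
        · intro h
          apply Equiv.ext
          intro i
          obtain ⟨y, rfl⟩ := e.surjective i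
          rw [hψ]
          have h2 : x • y = y := h y
          rw [h2]
          rfl
      rw [h1]
      refine isOpen_iInter_of_finite fun y => ?_
      obtain ⟨g, rfl⟩ := QuotientGroup.mk_surjective y
      have h2 : {x : P | x • (g : P ⧸ U) = (g : P ⧸ U)} = (fun x => g⁻¹ * x * g) ⁻¹' (U : Set P) := by
        ext x
        rw [Set.mem_ofPred_eq, MulAction.Quotient.smul_coe, smul_eq_mul, QuotientGroup.eq,
          Set.mem_preimage, SetLike.mem_coe]
        have h3 : g⁻¹ * x * g = ((x * g)⁻¹ * g)⁻¹ := by group
        rw [h3, inv_mem_iff]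
      rw [h2]
      exact hU.preimage (by fun_prop)
    choose ψ i hψo hψ using key
    rw [← Set.finite_coe_iff]
    let c : {U : Subgroup P // IsOpen (U : Set P) ∧ U.index = n} →
      (s → Equiv.Perm (Fin n)) × Fin n := fun U => (fun x => ψ U x, i U)
    refine Finite.of_injective c ?_
    intro U V hUV
    have h1 : ∀ x ∈ s, ψ U x = ψ V x := fun x hx =>
      congrFun (congrArg Prod.fst hUV) ⟨x, hx⟩
    have h2 : i U = i V := congrArg Prod.snd hUV
    have h3 : ψ U = ψ V := by
      have h4 : Subgroup.closure s ≤ (ψ U).eqLocus (ψ V) := by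
        rw [Subgroup.closure_le]
        exact h1
      apply MonoidHom.ext
      intro x
      have h5 : IsOpen (((ψ U).ker ⊓ (ψ V).ker : Subgroup P) : Set P) := (hψo U).inter (hψo V)
      have h6 : IsOpen ((fun y => x⁻¹ * y) ⁻¹' (((ψ U).ker ⊓ (ψ V).ker : Subgroup P) : Set P)) :=
        h5.preimage (by fun_prop)
      obtain ⟨y, hy1, hy2⟩ := hd.inter_open_nonempty _ h6 ⟨x, by
        rw [Set.mem_preimage, inv_mul_cancel]
        exact one_mem ((ψ U).ker ⊓ (ψ V).ker)⟩
      have h7 : ψ U (x⁻¹ * y) = 1 := hy1.1
      have h8 : ψ V (x⁻¹ * y) = 1 := hy1.2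
      have h9 : ψ U y = ψ V y := h4 hy2
      rw [map_mul, map_inv, inv_mul_eq_one] at h7 h8
      rw [h7, h8, h9]
    apply Subtype.ext
    ext x
    rw [hψ, hψ, h3, h2]

/-- a copy of the field `T` -/
def Tw (T : Type) : Type := T

instance instFieldTw (T : Type) [Field T] : Field (Tw T) := inferInstanceAs (Field T)

/-- changing the base field by an automorphism -/
theorem exists_twist {L T : Type} [Field L] [Field T] [Algebra L T] [FiniteDimensional L T]
    [IsGalois L T] (s : L ≃+* L) :
    ∃ (T' : Type) (_ : Field T') (_ : Algebra L T') (e : T ≃+* T'), FiniteDimensional L T' ∧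
      IsGalois L T' ∧ (∀ x, e (algebraMap L T x) = algebraMap L T' (s x)) ∧
      Nonempty ((T ≃ₐ[L] T) ≃* (T' ≃ₐ[L] T')) := by
  let e : T ≃+* Tw T := RingEquiv.refl T
  letI : Algebra L (Tw T) :=
    ((e : T →+* Tw T).comp ((algebraMap L T).comp (s.symm : L →+* L))).toAlgebra
  have hal : ∀ x, algebraMap L (Tw T) x = e (algebraMap L T (s.symm x)) := fun x => rfl
  have hcomp : (algebraMap L (Tw T)).comp (s : L →+* L) = (e : T →+* Tw T).comp (algebraMap L T) := by
    ext x
    change algebraMap L (Tw T) (s x) = e (algebraMap L T x)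
    rw [hal, s.symm_apply_apply]
  refine ⟨Tw T, inferInstance, inferInstance, e, Module.Finite.of_equiv_equiv s e hcomp,
    IsGalois.of_equiv_equiv (f := s) (g := e) hcomp, fun x => ?_, ⟨?_⟩⟩
  · rw [hal, s.symm_apply_apply]
  · exact
      { toFun := fun τ => AlgEquiv.ofRingEquiv (f := (e.symm.trans τ.toRingEquiv).trans e)
          (fun x => by
            change e (τ (e.symm (algebraMap L (Tw T) x))) = algebraMap L (Tw T) x
            rw [hal, e.symm_apply_apply, τ.commutes])
        invFun := fun τ => AlgEquiv.ofRingEquiv (f := (e.trans τ.toRingEquiv).trans e.symm)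
          (fun x => by
            change e.symm (τ (e (algebraMap L T x))) = algebraMap L T x
            have h1 : e (algebraMap L T x) = algebraMap L (Tw T) (s x) := by
              rw [hal, s.symm_apply_apply]
            rw [h1, τ.commutes, ← h1, e.symm_apply_apply])
        left_inv := fun τ => by
          apply AlgEquiv.ext
          intro x
          rfl
        right_inv := fun τ => by
          apply AlgEquiv.ext
          intro x
          rfl
        map_mul' := fun τ τ' => by
          apply AlgEquiv.ext
          intro x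
          rfl }

section gal

variable {C : ∀ (G : Type) [Group G], Prop} {K L M : Type} [Field K] [Field L] [Field M]
  [Algebra K L] [Algebra K M] [Algebra L M] [IsScalarTower K L M] [IsGalois K L]

/-- **The maximal pro-`C` extension of a Galois extension is a Galois extension.** -/
theorem galois_of_max (hC : Good C) (hM : IsMaxProC C L M) : IsGalois K M := by
  obtain ⟨hG, hpro, hmax⟩ := hM
  haveI hsepKM : Algebra.IsSeparable K M := Algebra.IsSeparable.trans K L M
  let S := SeparableClosure M
  haveI hsep : Algebra.IsSeparable K S := Algebra.IsSeparable.trans K M S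
  haveI : IsSepClosure K S := ⟨inferInstance, hsep⟩
  haveI hKS : IsGalois K S := IsSepClosure.isGalois
  haveI : IsScalarTower K L S := by
    refine IsScalarTower.of_algebraMap_eq fun x => ?_
    rw [IsScalarTower.algebraMap_apply K M S, IsScalarTower.algebraMap_apply L M S,
      ← IsScalarTower.algebraMap_apply K L M]
  let i : M →ₐ[K] S := IsScalarTower.toAlgHom K M S
  have hnorm : Normal K i.fieldRange := by
    rw [IntermediateField.normal_iff_forall_map_le']
    rintro σ _ ⟨_, ⟨m, rfl⟩, rfl⟩
    change σ (algebraMap M S m) ∈ i.fieldRange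
    -- a finite Galois extension of `L` in `M` which contains `m`
    have hint : IsIntegral L m := Algebra.IsIntegral.isIntegral m
    haveI := IntermediateField.adjoin.finiteDimensional hint
    let T : IntermediateField L M := IntermediateField.normalClosure L
      (IntermediateField.adjoin L {m}) M
    haveI hT1 : FiniteDimensional L T := normalClosure.is_finiteDimensional L _ M
    haveI hT2 : IsGalois L T := IsGalois.normalClosure L _ M
    have hmT : m ∈ T := (IntermediateField.le_normalClosure (IntermediateField.adjoin L {m}))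
      (IntermediateField.mem_adjoin_simple_self L m)
    have hTC : C (T ≃ₐ[L] T) := by
      obtain ⟨-, -, -, -, hq⟩ := hpro
      let r : (M ≃ₐ[L] M) →* (T ≃ₐ[L] T) := AlgEquiv.restrictNormalHom T
      have hr : Surjective r := AlgEquiv.restrictNormalHom_surjective M
      exact hC.iso _ _ (QuotientGroup.quotientKerEquivOfSurjective r hr)
        (hq r.ker (isOpen_ker_restrict T))
    let sL : L ≃ₐ[K] L := σ.restrictNormal L
    obtain ⟨T', i1, i2, e, h1, h2, h3, ⟨h4⟩⟩ := exists_twist (T := T) sL.toRingEquiv
    obtain ⟨f⟩ := hmax T' h1 h2 (hC.iso _ _ h4 hTC)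
    let f1 : T' →ₐ[L] S := (IsScalarTower.toAlgHom L M S).comp f
    let f2 : T' →ₐ[L] S :=
      { toRingHom := ((σ : S →+* S).comp (algebraMap M S)).comp
          (T.val.toRingHom.comp (e.symm : T' →+* T))
        commutes' := fun x => by
          change σ (algebraMap M S (e.symm (algebraMap L T' x) : T)) = algebraMap L S x
          have h5 : algebraMap L T' x = e (algebraMap L T (sL.symm x)) := by
            rw [h3]
            change algebraMap L T' x = algebraMap L T' (sL (sL.symm x))
            rw [sL.apply_symm_apply]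
          rw [h5, e.symm_apply_apply]
          change σ (algebraMap M S (algebraMap L M (sL.symm x))) = algebraMap L S x
          rw [← IsScalarTower.algebraMap_apply L M S]
          have h6 := σ.restrictNormal_commutes L (sL.symm x)
          have h7 : σ.restrictNormal L (sL.symm x) = x := sL.apply_symm_apply x
          rw [h7] at h6
          exact h6.symm }
    -- both homomorphisms have the same image
    have hrange : f1.fieldRange = f2.fieldRange := by
      haveI : Normal L f1.fieldRange := Normal.of_algEquiv (AlgEquiv.ofInjectiveField f1)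
      let φ : f1.fieldRange →ₐ[L] S :=
        f2.comp (AlgEquiv.ofInjectiveField f1).symm.toAlgHom
      have hφ := AlgHom.fieldRange_of_normal φ
      rw [← hφ]
      ext x
      constructor
      · rintro ⟨y, rfl⟩
        exact ⟨(AlgEquiv.ofInjectiveField f1).symm y, rfl⟩
      · rintro ⟨y, rfl⟩
        refine ⟨AlgEquiv.ofInjectiveField f1 y, ?_⟩
        change f2 ((AlgEquiv.ofInjectiveField f1).symm (AlgEquiv.ofInjectiveField f1 y)) = f2 y
        rw [AlgEquiv.symm_apply_apply]
    have hmem : σ (algebraMap M S m) ∈ f2.fieldRange := by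
      refine ⟨e ⟨m, hmT⟩, ?_⟩
      change σ (algebraMap M S (e.symm (e ⟨m, hmT⟩) : T)) = σ (algebraMap M S m)
      rw [e.symm_apply_apply]
    rw [← hrange] at hmem
    obtain ⟨y, hy⟩ := hmem
    refine ⟨f y, ?_⟩
    exact hy
  let e' : M ≃ₐ[K] i.fieldRange := AlgEquiv.ofInjectiveField i
  haveI : Normal K M := Normal.of_algEquiv e'.symm
  exact ⟨⟩

/-- existence -/
theorem exists_maxR (hC : Good C) (K L : Type) [Field K] [Field L] [Algebra K L] :
    ∃ (M : Type) (_ : Field M) (_ : Algebra K M) (_ : Algebra L M) (_ : IsScalarTower K L M),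
      IsMaxProC C L M := by
  obtain ⟨M, i1, i2, h⟩ := exists_max hC L
  letI : Algebra K M := ((algebraMap L M).comp (algebraMap K L)).toAlgebra
  exact ⟨M, i1, inferInstance, i2, IsScalarTower.of_algebraMap_eq fun _ => rfl, h⟩

end gal

end Pool.Agent.H87.Fpc
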