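import Pool.Agent.H87.Fpc.Rel
import Pool.Agent.H87.Fpc.Exist

/-!
# Galois groups of maximal pro-`C` extensions of Galois extensions
-/

set_option autoImplicit false

namespace Pool.Agent.H87.Fpc

open Function

/-- For every open normal subgroup `V` of the profinite group `P` and every `n` there are only
finitely many open normal subgroups `U` of `P` with `U ≤ V`, `V / U` in `C` and index `n`. -/
def IsSmallFor (C : ∀ (G : Type) [Group G], Prop) (P : Type) [Group P] [TopologicalSpace P] :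
    Prop :=
  ∀ (V : Subgroup P), V.Normal → IsOpen (V : Set P) → ∀ n : ℕ,
    {U : Subgroup P | IsOpen (U : Set P) ∧ U ≤ V ∧ U.index = n ∧
      ∃ _ : U.Normal, C (V ⧸ U.subgroupOf V)}.Finite

theorem IsSmallFor.exists_open {C : ∀ (G : Type) [Group G], Prop} {P : Type} [Group P]
    [TopologicalSpace P] (h : IsSmallFor C P) {V : Subgroup P} (hV : V.Normal)
    (hVo : IsOpen (V : Set P)) {n : ℕ} (hn : 0 < n) :
    ∃ W : Subgroup P, W.Normal ∧ IsOpen (W : Set P) ∧
      ∀ (U : Subgroup P) (_ : U.Normal), IsOpen (U : Set P) → U ≤ V → C (V ⧸ U.subgroupOf V) →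
        U.index ∣ n → W ≤ U := by
  let 𝒲 : Set (Subgroup P) := {U | IsOpen (U : Set P) ∧ U ≤ V ∧ U.index ∣ n ∧
    ∃ _ : U.Normal, C (V ⧸ U.subgroupOf V)}
  have hfin : 𝒲.Finite := by
    have h1 : (⋃ k ∈ n.divisors, {U : Subgroup P | IsOpen (U : Set P) ∧ U ≤ V ∧ U.index = k ∧
        ∃ _ : U.Normal, C (V ⧸ U.subgroupOf V)}).Finite :=
      Set.Finite.biUnion (Finset.finite_toSet _) fun k _ => h V hV hVo k
    refine h1.subset ?_
    rintro U ⟨h2, h3, h4, h5⟩
    rw [Set.mem_iUnion₂]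
    exact ⟨U.index, Nat.mem_divisors.2 ⟨h4, hn.ne'⟩, h2, h3, rfl, h5⟩
  refine ⟨sInf 𝒲, sInf_normal _ fun U hU => hU.2.2.2.1, ?_, fun U h1 h2 h3 h4 h5 =>
    sInf_le ⟨h2, h3, h5, h1, h4⟩⟩
  rw [Subgroup.coe_sInf]
  exact hfin.isOpen_biInter fun U hU => hU.1

section fld

variable {K L M : Type} [Field K] [Field L] [Field M] [Algebra K L] [Algebra K M]
  [Algebra L M] [IsScalarTower K L M]

/-- restriction is continuous -/
theorem continuous_restrict [Normal K L] :
    Continuous (AlgEquiv.restrictNormalHom (K₁ := M) L : (M ≃ₐ[K] M) →* (L ≃ₐ[K] L)) := by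
  apply continuous_of_continuousAt_one
  intro W hW
  rw [map_one] at hW
  rw [krullTopology_mem_nhds_one_iff] at hW
  obtain ⟨E, hE, hEW⟩ := hW
  rw [Filter.mem_map, krullTopology_mem_nhds_one_iff]
  let j : L →ₐ[K] M := IsScalarTower.toAlgHom K L M
  have hfd : FiniteDimensional K (E.map j) := by
    let f : E →ₐ[K] M := j.comp E.val
    have h1 : FiniteDimensional K f.fieldRange := LinearMap.finiteDimensional_range f.toLinearMap
    have h2 : f.fieldRange = E.map j := by
      ext x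
      constructor
      · rintro ⟨y, rfl⟩
        exact ⟨y.1, y.2, rfl⟩
      · rintro ⟨y, hy, rfl⟩
        exact ⟨⟨y, hy⟩, rfl⟩
    rwa [h2] at h1
  refine ⟨E.map j, hfd, ?_⟩
  intro σ hσ
  apply hEW
  rw [SetLike.mem_coe, IntermediateField.mem_fixingSubgroup_iff] at hσ ⊢
  intro x hx
  apply (algebraMap L M).injective
  have h1 := σ.restrictNormal_commutes L x
  have h2 := hσ (algebraMap L M x) ⟨x, hx, rfl⟩
  rw [h2] at h1
  exact h1

/-- open subgroups of `Gal(M/K)` meet `Gal(M/L)` in open subgroups -/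
theorem isOpen_comap_scalars [Algebra.IsIntegral K M] [Algebra.IsSeparable K M]
    {U : Subgroup (M ≃ₐ[K] M)} (hU : IsOpen (U : Set (M ≃ₐ[K] M))) :
    IsOpen ((U.comap (AlgEquiv.restrictScalarsHom K : (M ≃ₐ[L] M) →* (M ≃ₐ[K] M)) :
      Subgroup (M ≃ₐ[L] M)) : Set (M ≃ₐ[L] M)) := by
  have h1 := hU.mem_nhds (one_mem U)
  rw [krullTopology_mem_nhds_one_iff] at h1
  obtain ⟨E, hE, hEU⟩ := h1
  obtain ⟨a, ha⟩ := Field.exists_primitive_element K E
  have ha' := congrArg IntermediateField.lift ha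
  rw [IntermediateField.lift_adjoin_simple, IntermediateField.lift_top] at ha'
  have hint : IsIntegral L (a : M) := by
    have h2 : IsIntegral K (a : M) := Algebra.IsIntegral.isIntegral _
    exact h2.tower_top
  haveI := IntermediateField.adjoin.finiteDimensional hint
  refine Subgroup.isOpen_mono ?_
    (IntermediateField.fixingSubgroup_isOpen (IntermediateField.adjoin L {(a : M)}))
  intro σ hσ
  rw [Subgroup.mem_comap]
  apply hEU
  rw [SetLike.mem_coe, ← ha', IntermediateField.mem_fixingSubgroup_iff]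
  intro x hx
  have h3 : σ (a : M) = a := (IntermediateField.mem_fixingSubgroup_iff _ _).1 hσ _
    (IntermediateField.mem_adjoin_simple_self L (a : M))
  induction hx using IntermediateField.adjoin_induction with
  | mem x hx =>
    rw [Set.mem_singleton_iff] at hx
    rw [hx]
    exact h3
  | algebraMap x => exact AlgEquiv.commutes _ x
  | add x y _ _ hx hy => rw [map_add, hx, hy]
  | inv x _ hx => rw [map_inv₀, hx]
  | mul x y _ _ hx hy => rw [map_mul, hx, hy]

/-- the elements of `Gal(M/K)` which are trivial on `L` -/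
theorem exists_scalars [Normal K L] (σ : M ≃ₐ[K] M) (h : σ.restrictNormal L = 1) :
    ∃ τ : M ≃ₐ[L] M, AlgEquiv.restrictScalarsHom K τ = σ := by
  refine ⟨AlgEquiv.ofRingEquiv (f := σ.toRingEquiv) (fun x => ?_), ?_⟩
  · have h1 := σ.restrictNormal_commutes L x
    rw [h] at h1
    exact h1.symm
  · apply AlgEquiv.ext
    intro x
    rfl

theorem restrict_scalars [Normal K L] (τ : M ≃ₐ[L] M) :
    (AlgEquiv.restrictScalarsHom K τ : M ≃ₐ[K] M).restrictNormal L = 1 := by
  apply AlgEquiv.ext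
  intro x
  apply (algebraMap L M).injective
  rw [AlgEquiv.restrictNormal_commutes]
  exact τ.commutes x

/-- an open normal subgroup, given by a homomorphism, and its field -/
theorem exists_field [IsGalois K M] {A : Type} [Group A] (β : (M ≃ₐ[K] M) →* A)
    (hβ : Surjective β) (hβo : IsOpen (β.ker : Set (M ≃ₐ[K] M))) :
    ∃ (T : IntermediateField K M) (_ : FiniteDimensional K T) (_ : IsGalois K T)
      (e : A ≃* (T ≃ₐ[K] T)), T.fixingSubgroup = β.ker ∧ ∀ σ, e (β σ) = σ.restrictNormal T := by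
  have hcl : IsClosed (β.ker : Set (M ≃ₐ[K] M)) := Subgroup.isClosed_of_isOpen _ hβo
  let U : ClosedSubgroup (M ≃ₐ[K] M) := ⟨β.ker, hcl⟩
  let T : IntermediateField K M := IntermediateField.fixedField β.ker
  have hT : T.fixingSubgroup = β.ker := InfiniteGalois.fixingSubgroup_fixedField U
  have hTf : FiniteDimensional K T ∧ IsGalois K T := by
    rw [← InfiniteGalois.isOpen_and_normal_iff_finite_and_isGalois, hT]
    exact ⟨hβo, inferInstance⟩
  obtain ⟨hT1, hT2⟩ := hTf
  let r : (M ≃ₐ[K] M) →* (T ≃ₐ[K] T) := AlgEquiv.restrictNormalHom T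
  have hr : Surjective r := AlgEquiv.restrictNormalHom_surjective M
  have hrk : r.ker = β.ker := by
    rw [← hT]
    exact IntermediateField.restrictNormalHom_ker T
  obtain ⟨e, he⟩ := exists_fac β hβ r (fun x hx => by
    have h1 : x ∈ r.ker := by rw [hrk]; exact hx
    exact h1)
  have hei : Injective e := by
    rw [injective_iff_map_eq_one]
    intro a ha
    obtain ⟨σ, rfl⟩ := hβ a
    rw [he] at ha
    have h1 : σ ∈ β.ker := by rw [← hrk]; exact ha
    exact h1
  have hes : Surjective e := by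
    intro τ
    obtain ⟨σ, rfl⟩ := hr τ
    exact ⟨β σ, he σ⟩
  exact ⟨T, hT1, hT2, MulEquiv.ofBijective e ⟨hei, hes⟩, hT, he⟩

end fld

section cls

variable {C : ∀ (G : Type) [Group G], Prop} {K L M : Type} [Field K] [Field L] [Field M]
  [Algebra K L] [Algebra K M] [Algebra L M] [IsScalarTower K L M] [Normal K L] [IsGalois K M]

omit [IsGalois K M] in
theorem ker_restrict :
    (AlgEquiv.restrictNormalHom (K₁ := M) L : (M ≃ₐ[K] M) →* (L ≃ₐ[K] L)).ker =
      (AlgEquiv.restrictScalarsHom K : (M ≃ₐ[L] M) →* (M ≃ₐ[K] M)).range := by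
  ext σ
  constructor
  · intro h
    obtain ⟨τ, hτ⟩ := exists_scalars (L := L) σ h
    exact ⟨τ, hτ⟩
  · rintro ⟨τ, rfl⟩
    exact restrict_scalars τ

theorem cls_gal (hC : Good C) (hM : IsProC C (M ≃ₐ[L] M)) (A : Type) [Group A]
    (q : (M ≃ₐ[K] M) →* A) (hqo : IsOpen (q.ker : Set (M ≃ₐ[K] M))) :
    C ((AlgEquiv.restrictNormalHom (K₁ := M) L : (M ≃ₐ[K] M) →* (L ≃ₐ[K] L)).ker.map q) := by
  let ι : (M ≃ₐ[L] M) →* (M ≃ₐ[K] M) := AlgEquiv.restrictScalarsHom K
  rw [ker_restrict, ← MonoidHom.range_comp]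
  obtain ⟨-, -, -, -, hq⟩ := hM
  have h1 : IsOpen ((q.comp ι).ker : Set (M ≃ₐ[L] M)) := by
    have h2 : (q.comp ι).ker = q.ker.comap ι := (MonoidHom.comap_ker q ι).symm
    rw [h2]
    exact isOpen_comap_scalars hqo
  exact hC.iso _ _ (QuotientGroup.quotientKerEquivRange (q.comp ι)) (hq (q.comp ι).ker h1)

end cls

end Pool.Agent.H87.Fpc
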