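import Pool.Agent.H87.Fpc.RelEmb
import Pool.Agent.H87.Fpc.Coind

/-!
# Embedding problems over fields with a small extension
-/

set_option autoImplicit false

namespace Pool.Agent.H87.Fpc

open Function

/-- **Embedding problems over `K` have solutions which are proper over `L`.** -/
theorem emb_galS {C : ∀ (G : Type) [Group G], Prop} {K L S : Type} [Field K]
    [Field L] [Field S] [Algebra K L] [Algebra K S] [Algebra L S] [IsScalarTower K L S]
    [IsGalois K L] [IsGalois K S] [IsSepClosed S]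
    (hC : Good C) (hP : IsSmallFor C (L ≃ₐ[K] L))
    (hsol : ∀ (N E : Type) [Field N] [Algebra K N] [FiniteDimensional K N] [IsGalois K N]
      [Group E] (α : E →* (N ≃ₐ[K] N)), Finite E → Surjective α → C α.ker → Sol K N E α)
    (E D : Type) [Group E] [Group D] (α : E →* D) (β : (S ≃ₐ[K] S) →* D)
    (hα : Surjective α) (hβ : Surjective β) (hαk : C α.ker)
    (hβo : IsOpen (β.ker : Set (S ≃ₐ[K] S))) :
    ∃ γ : (S ≃ₐ[K] S) →* E, Surjective γ ∧ IsOpen (γ.ker : Set (S ≃ₐ[K] S)) ∧
      (∀ g, α (γ g) = β g) ∧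
      α.ker ≤ (AlgEquiv.restrictNormalHom (K₁ := S) L : (S ≃ₐ[K] S) →* (L ≃ₐ[K] L)).ker.map γ
    := by
  let π : (S ≃ₐ[K] S) →* (L ≃ₐ[K] L) := AlgEquiv.restrictNormalHom L
  have hπs : Surjective π := AlgEquiv.restrictNormalHom_surjective S
  have hπc : Continuous π := continuous_restrict
  haveI : T2Space (S ≃ₐ[K] S) := krullTopology_t2
  haveI : T2Space (L ≃ₐ[K] L) := krullTopology_t2
  -- finiteness
  haveI hDf : Finite D := by
    obtain ⟨T, hT1, hT2, e, -, -⟩ := exists_field β hβ hβo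
    exact Finite.of_equiv _ e.symm.toEquiv
  haveI hEf : Finite E := by
    haveI := hC.fin _ hαk
    haveI : Finite (E ⧸ α.ker) :=
      Finite.of_equiv D (QuotientGroup.quotientKerEquivOfSurjective α hα).symm.toEquiv
    exact Finite.of_equiv _ (Subgroup.groupEquivQuotientProdSubgroup (s := α.ker)).symm
  have hVo : IsOpen ((β.ker.map π : Subgroup (L ≃ₐ[K] L)) : Set (L ≃ₐ[K] L)) :=
    isOpen_map_of hπs hπc hβo
  have hVn : (β.ker.map π).Normal := Subgroup.Normal.map inferInstance π hπs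
  obtain ⟨W, hWn, hWo, hW⟩ := hP.exists_open hVn hVo (n := Nat.card E) Nat.card_pos
  -- the larger quotient
  let β' : (S ≃ₐ[K] S) →* D × ((L ≃ₐ[K] L) ⧸ W) := β.prod ((QuotientGroup.mk' W).comp π)
  let D2 : Subgroup (D × ((L ≃ₐ[K] L) ⧸ W)) := β'.range
  let β2 : (S ≃ₐ[K] S) →* D2 := β'.rangeRestrict
  have hβ2 : Surjective β2 := β'.rangeRestrict_surjective
  have hβ2o : IsOpen (β2.ker : Set (S ≃ₐ[K] S)) := by
    have h1 : β.ker ⊓ W.comap π ≤ β2.ker := by
      rintro x ⟨hx1, hx2⟩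
      apply Subtype.ext
      change (β x, (QuotientGroup.mk' W) (π x)) = 1
      have h2 : β x = 1 := hx1
      have h3 : (QuotientGroup.mk' W) (π x) = 1 := by
        rw [QuotientGroup.mk'_apply, QuotientGroup.eq_one_iff]
        exact hx2
      rw [h2, h3]
      rfl
    exact Subgroup.isOpen_mono h1 (hβo.inter (hWo.preimage hπc))
  let E2 : Subgroup (E × D2) := MonoidHom.eqLocus (α.comp (MonoidHom.fst E D2))
    ((MonoidHom.fst D _).comp (D2.subtype.comp (MonoidHom.snd E D2)))
  have hE2 : ∀ (e : E) (n : S ≃ₐ[K] S), α e = β n → (e, β2 n) ∈ E2 := fun e n h => h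
  let α2 : E2 →* D2 := (MonoidHom.snd E D2).comp E2.subtype
  have hα2 : Surjective α2 := by
    intro d
    obtain ⟨n, rfl⟩ := hβ2 d
    obtain ⟨e, he⟩ := hα (β n)
    exact ⟨⟨(e, β2 n), hE2 e n he⟩, rfl⟩
  have hα2k : C α2.ker := by
    let f : α2.ker →* α.ker := ((MonoidHom.fst E D2).comp
      (E2.subtype.comp α2.ker.subtype)).codRestrict α.ker (fun x => by
        rw [MonoidHom.mem_ker]
        have h1 : α x.1.1.1 = (x.1.1.2 : D × ((L ≃ₐ[K] L) ⧸ W)).1 := x.1.2
        have h2 : x.1.1.2 = 1 := x.2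
        have h3 : (x.1.1.2 : D × ((L ≃ₐ[K] L) ⧸ W)).1 = 1 := by
          rw [h2]
          rfl
        exact h1.trans h3)
    refine hC.sub _ _ f ?_ ?_ hαk
    · intro x y hxy
      apply Subtype.ext
      apply Subtype.ext
      apply Prod.ext
      · have h1 : (f x).1 = (f y).1 := by rw [hxy]
        exact h1
      · have h2 : x.1.1.2 = 1 := x.2
        have h3 : y.1.1.2 = 1 := y.2
        rw [h2, h3]
    · constructor
      rintro _ ⟨x, rfl⟩ a
      have h1 : α x.1.1.1 = 1 := (f x).2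
      have h2 : α a.1 = 1 := a.2
      have h3 : α (a.1 * x.1.1.1 * a.1⁻¹) = β 1 := by
        rw [map_mul, map_mul, map_inv, h1, h2, mul_one, one_mul, inv_one, map_one]
      refine ⟨⟨⟨(a.1 * x.1.1.1 * a.1⁻¹, β2 1), hE2 _ _ h3⟩, ?_⟩, rfl⟩
      rw [MonoidHom.mem_ker]
      exact map_one β2
  -- the solution over `K`
  obtain ⟨N, hN1, hN2, e, -, he⟩ := exists_field β2 hβ2 hβ2o
  haveI hD2f : Finite D2 := Finite.of_equiv _ e.symm.toEquiv
  haveI hE2f : Finite E2 := inferInstance
  have hsur : Surjective ((e : D2 →* (N ≃ₐ[K] N)).comp α2) := e.surjective.comp hα2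
  have hker : ((e : D2 →* (N ≃ₐ[K] N)).comp α2).ker = α2.ker := by
    ext x
    rw [MonoidHom.mem_ker, MonoidHom.mem_ker]
    exact map_eq_one_iff e e.injective
  obtain ⟨F, i1, i2, i3, i4, hF1, hF2, γ, hγ⟩ := hsol N E2 ((e : D2 →* (N ≃ₐ[K] N)).comp α2)
    inferInstance hsur (by rw [hker]; exact hα2k)
  haveI : Algebra.IsSeparable N F := Algebra.isSeparable_tower_top_of_isSeparable K N F
  let j : F →ₐ[N] S := IsSepClosed.lift
  letI : Algebra F S := j.toRingHom.toAlgebra
  haveI t1 : IsScalarTower N F S := IsScalarTower.of_algebraMap_eq fun x => (j.commutes x).symm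
  haveI t2 : IsScalarTower K F S := by
    refine IsScalarTower.of_algebraMap_eq fun x => ?_
    rw [IsScalarTower.algebraMap_apply K N S, IsScalarTower.algebraMap_apply K N F,
      ← IsScalarTower.algebraMap_apply N F S]
  let g : (S ≃ₐ[K] S) →* E2 := (γ : (F ≃ₐ[K] F) →* E2).comp (AlgEquiv.restrictNormalHom F)
  have hgs : Surjective g := γ.surjective.comp (AlgEquiv.restrictNormalHom_surjective S)
  have hgo : IsOpen (g.ker : Set (S ≃ₐ[K] S)) := by
    have h3 : g.ker = (AlgEquiv.restrictNormalHom (K₁ := S) F :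
        (S ≃ₐ[K] S) →* (F ≃ₐ[K] F)).ker := by
      ext σ
      rw [MonoidHom.mem_ker, MonoidHom.mem_ker]
      exact map_eq_one_iff γ γ.injective
    rw [h3]
    exact isOpen_ker_restrict F
  have hgα : ∀ σ : S ≃ₐ[K] S, α2 (g σ) = β2 σ := by
    intro σ
    apply e.injective
    rw [he]
    have h3 := hγ (σ.restrictNormal F)
    rw [restrict_restrict] at h3
    exact h3
  let γ' : (S ≃ₐ[K] S) →* E := ((MonoidHom.fst E D2).comp E2.subtype).comp g
  have hγα : ∀ n, α (γ' n) = β n := by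
    intro n
    have h1 : α (g n).1.1 = ((g n).1.2 : D × ((L ≃ₐ[K] L) ⧸ W)).1 := (g n).2
    have h2 : (g n).1.2 = β2 n := hgα n
    rw [h2] at h1
    exact h1
  have hγs : Surjective γ' := by
    intro x
    obtain ⟨n, hn⟩ := hβ (α x)
    obtain ⟨m, hm⟩ := hgs ⟨(x, β2 n), hE2 x n hn.symm⟩
    refine ⟨m, ?_⟩
    change (g m).1.1 = x
    rw [hm]
  have hγo : IsOpen (γ'.ker : Set (S ≃ₐ[K] S)) := by
    refine Subgroup.isOpen_mono ?_ hgo
    intro x hx
    rw [MonoidHom.mem_ker] at hx ⊢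
    change (g x).1.1 = 1
    rw [hx]
    rfl
  refine ⟨γ', hγs, hγo, hγα, ?_⟩
  intro x hx
  have hUo : IsOpen ((γ'.ker.map π : Subgroup (L ≃ₐ[K] L)) : Set (L ≃ₐ[K] L)) :=
    isOpen_map_of hπs hπc hγo
  have hUi : (γ'.ker.map π).index ∣ Nat.card E := by
    have h1 := Subgroup.index_map_dvd γ'.ker hπs
    rw [Subgroup.index_ker, MonoidHom.range_eq_top.2 hγs, Subgroup.card_top] at h1
    exact h1
  have hUn : (γ'.ker.map π).Normal := Subgroup.Normal.map inferInstance π hπs
  have hle : γ'.ker ≤ β.ker := by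
    intro n hn
    rw [MonoidHom.mem_ker] at hn ⊢
    rw [← hγα, hn, map_one]
  have hUV : γ'.ker.map π ≤ β.ker.map π := Subgroup.map_mono hle
  have hUC : C ((β.ker.map π : Subgroup (L ≃ₐ[K] L)) ⧸
      (γ'.ker.map π).subgroupOf (β.ker.map π)) := by
    -- a quotient of `ker α`
    let q : β.ker →* ((β.ker.map π : Subgroup (L ≃ₐ[K] L)) ⧸
        (γ'.ker.map π).subgroupOf (β.ker.map π)) :=
      (QuotientGroup.mk' ((γ'.ker.map π).subgroupOf (β.ker.map π))).comp
        (π.subgroupMap β.ker)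
    let g1 : β.ker →* α.ker := (γ'.comp β.ker.subtype).codRestrict α.ker (fun x => by
      rw [MonoidHom.mem_ker]
      change α (γ' x.1) = 1
      rw [hγα]
      exact x.2)
    have hg1 : Surjective g1 := by
      rintro ⟨y, hy⟩
      obtain ⟨n, rfl⟩ := hγs y
      have h1 : n ∈ β.ker := by
        rw [MonoidHom.mem_ker, ← hγα]
        exact hy
      exact ⟨⟨n, h1⟩, rfl⟩
    obtain ⟨f, hf⟩ := exists_fac g1 hg1 q (fun x hx => by
      have h1 : γ' x.1 = 1 := congrArg Subtype.val hx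
      change (QuotientGroup.mk' ((γ'.ker.map π).subgroupOf (β.ker.map π)))
        (π.subgroupMap β.ker x) = 1
      rw [QuotientGroup.mk'_apply, QuotientGroup.eq_one_iff, Subgroup.mem_subgroupOf]
      exact ⟨x.1, h1, rfl⟩)
    refine hC.quo _ _ f hαk ?_
    intro z
    obtain ⟨w, rfl⟩ := QuotientGroup.mk'_surjective _ z
    obtain ⟨x, rfl⟩ := π.subgroupMap_surjective β.ker w
    exact ⟨g1 x, hf x⟩
  have hWU := hW (γ'.ker.map π) hUn hUo hUV hUC hUi
  have h1 : α x = β 1 := by
    rw [map_one]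
    exact hx
  obtain ⟨n, hn⟩ := hgs ⟨(x, β2 1), hE2 x 1 h1⟩
  have hn1 : γ' n = x := by
    change (g n).1.1 = x
    rw [hn]
  have hn2 : β2 n = 1 := by
    rw [← hgα, hn]
    change β2 1 = 1
    exact map_one β2
  have hn3 : π n ∈ W := by
    have h2 : (QuotientGroup.mk' W) (π n) = 1 := congrArg Prod.snd (congrArg Subtype.val hn2)
    rw [QuotientGroup.mk'_apply, QuotientGroup.eq_one_iff] at h2
    exact h2
  obtain ⟨z, hz1, hz2⟩ := hWU hn3
  refine ⟨n * z⁻¹, ?_, ?_⟩
  · change π (n * z⁻¹) = 1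
    rw [map_mul, map_inv, hz2, mul_inv_cancel]
  · have h2 : γ' z = 1 := hz1
    rw [map_mul, map_inv, h2, inv_one, mul_one, hn1]

section sub

variable {K L S : Type} [Field K] [Field L] [Field S] [Algebra K L] [Algebra K S] [Algebra L S]
  [IsScalarTower K L S]

/-- The topology of `Gal(S/L)` is induced by the topology of `Gal(S/K)`. -/
theorem exists_open_scalars [IsGalois K S] [Algebra.IsSeparable L S]
    {V : Subgroup (S ≃ₐ[L] S)} (hV : IsOpen (V : Set (S ≃ₐ[L] S))) :
    ∃ W ∈ ON (S ≃ₐ[K] S), ∀ τ : S ≃ₐ[L] S,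
      (AlgEquiv.restrictScalarsHom K τ : S ≃ₐ[K] S) ∈ W → τ ∈ V := by
  have h1 := hV.mem_nhds (one_mem V)
  rw [krullTopology_mem_nhds_one_iff] at h1
  obtain ⟨T, hT, hTV⟩ := h1
  obtain ⟨a, ha⟩ := Field.exists_primitive_element L T
  have ha' := congrArg IntermediateField.lift ha
  rw [IntermediateField.lift_adjoin_simple, IntermediateField.lift_top] at ha'
  have hint : IsIntegral K (a : S) := Algebra.IsIntegral.isIntegral _
  haveI := IntermediateField.adjoin.finiteDimensional hint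
  let T' : IntermediateField K S := IntermediateField.normalClosure K
    (IntermediateField.adjoin K {(a : S)}) S
  haveI hT1 : FiniteDimensional K T' := normalClosure.is_finiteDimensional K _ S
  haveI hT2 : IsGalois K T' := IsGalois.normalClosure K _ S
  have haT : (a : S) ∈ T' :=
    (IntermediateField.le_normalClosure (IntermediateField.adjoin K {(a : S)}))
      (IntermediateField.mem_adjoin_simple_self K (a : S))
  refine ⟨T'.fixingSubgroup, ⟨?_, IntermediateField.fixingSubgroup_isOpen T'⟩, ?_⟩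
  · rw [← IntermediateField.restrictNormalHom_ker T']
    infer_instance
  · intro τ hτ
    apply hTV
    rw [SetLike.mem_coe, ← ha', IntermediateField.mem_fixingSubgroup_iff]
    intro x hx
    have h3 : τ (a : S) = a := (IntermediateField.mem_fixingSubgroup_iff _ _).1 hτ _ haT
    induction hx using IntermediateField.adjoin_induction with
    | mem x hx =>
      rw [Set.mem_singleton_iff] at hx
      rw [hx]
      exact h3
    | algebraMap x => exact AlgEquiv.commutes _ x
    | add x y _ _ hx hy => rw [map_add, hx, hy]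
    | inv x _ hx => rw [map_inv₀, hx]
    | mul x y _ _ hx hy => rw [map_mul, hx, hy]

end sub

end Pool.Agent.H87.Fpc
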